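import Pool.Agent.SP45.Defs

/-!
# The combinatorial principle, closures, and infinitely often

`E x y` is read `x ∈ y`.
-/

namespace Pool.Agent.IN45

open Pool.Agent.OG45 (Sub)
open Pool.Agent.MAx (Fn)

section

variable {M : Type*} (E : M → M → Prop)

/-- the set `T` of natural numbers is a union of blocks given by `A`: if no element `a` of `A`
has `m < a ≤ n`, then `m ∈ T` if and only if `n ∈ T` -/
def Sat (w A T : M) : Prop := ∀ m n, E m w → E n w → E m n → (∀ a, E a A → E m a → E n a) →
  (E m T ↔ E n T)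

/-- for every family `Z` of sets of natural numbers there is a function `g` such that each member
of `Z` meets almost all intervals `[n, g(n)]`, or there is an infinite set `A` such that for every
union `T` of blocks given by `A` some member of `Z` is almost contained in `T` or almost disjoint
from `T` (here `w = ω`) -/
def Key (w : M) : Prop := ∀ Z, (∀ z, E z Z → Sub E z w) →
  (∃ g, Fn E g w w ∧ ∀ z, E z Z → ∃ k, E k w ∧ ∀ n, E n w → ¬ E n k →
    ∃ m l, E m z ∧ BVM.Rel E g n l ∧ ¬ E m n ∧ ¬ E l m) ∨
  ∃ A, Sub E A w ∧ (∀ n, E n w → ∃ a, E a A ∧ E n a) ∧ ∀ T, Sub E T w → Sat E w A T →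
    ∃ z, E z Z ∧ ((∃ k, E k w ∧ ∀ m, E m z → ¬ E m k → E m T) ∨
      ∃ k, E k w ∧ ∀ m, E m z → ¬ E m k → ¬ E m T)

/-- the point `y` of `Y` is in the closure of `V` -/
def Cl (Y D V y : M) : Prop := E y Y ∧ ∀ U, E U D → E y U → ∃ x, E x U ∧ E x V

/-- the closure of `V` is contained in `U` -/
def Way (Y D V U : M) : Prop := ∀ y, Cl E Y D V y → E y U

end

end Pool.Agent.IN45
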