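import Pool.Agent.SP45.Gsp
import Pool.Agent.IN45.Defs
import Pool.Agent.MAx.Om

/-!
# Tools for sequences of names
-/

namespace Pool.Agent.IN45

open Classical Set Pool.Agent Pool.Agent.LadderTree Pool.Agent.Forcing Pool.Agent.MAx
open Pool.Agent.BVM (BSet UF eqv memv chk Congr le_of_uf Disc OPair FunOn op on onT)
open Pool.Agent.OG45 Pool.Agent.SP45

section

variable {B : Type} [CompleteBooleanAlgebra B] {b : B}

theorem rpFn (f X Y : BSet B) : RpP fun F : Pt b => Fn (In F) (nm F f) (nm F X) (nm F Y) :=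
  RpP.fn f X Y

theorem rpCl (Y D V y : BSet B) :
    RpP fun F : Pt b => Cl (In F) (nm F Y) (nm F D) (nm F V) (nm F y) := by
  unfold Cl
  repeat' (first
    | exact RpP.mem _ _
    | refine RpP.and ?_ ?_ | refine RpP.ex fun _ => ?_ | refine RpP.all fun _ => ?_
    | refine RpP.imp ?_ ?_)

theorem rpWay (Y D V U : BSet B) :
    RpP fun F : Pt b => Way (In F) (nm F Y) (nm F D) (nm F V) (nm F U) := by
  unfold Way
  repeat' (first
    | exact RpP.mem _ _ | exact rpCl _ _ _ _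
    | refine RpP.and ?_ ?_ | refine RpP.ex fun _ => ?_ | refine RpP.all fun _ => ?_
    | refine RpP.imp ?_ ?_)

theorem rpSat (w A T : BSet B) :
    RpP fun F : Pt b => Sat (In F) (nm F w) (nm F A) (nm F T) := by
  unfold Sat
  repeat' (first
    | exact RpP.mem _ _
    | refine RpP.and ?_ ?_ | refine RpP.ex fun _ => ?_ | refine RpP.all fun _ => ?_
    | refine RpP.iff ?_ ?_ | refine RpP.imp ?_ ?_)

theorem rpSplit (w Y D : BSet B) :
    RpP fun F : Pt b => Split (In F) (nm F w) (nm F Y) (nm F D) := by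
  unfold Split
  exact RpP.all fun _ => (rpLarge _ _ _ _).imp (rpSplitC _ _ _ _)

/-- finite conjunctions -/
theorem RpP.allFin {A : ℕ → Pt b → Prop} (h : ∀ i, RpP (A i)) (n : ℕ) :
    RpP fun F => ∀ i < n, A i F := by
  induction n with
  | zero => exact (RpP.const True).congr fun F => by simp
  | succ n ih =>
    refine (ih.and (h n)).congr fun F => ?_
    constructor
    · rintro ⟨h1, h2⟩ i hi
      rcases Nat.lt_succ_iff_lt_or_eq.1 hi with h3 | h3
      · exact h1 i h3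
      · exact h3 ▸ h2
    · intro h1
      exact ⟨fun i hi => h1 i (hi.trans (Nat.lt_succ_self n)), h1 n (Nat.lt_succ_self n)⟩

/-- finite disjunctions -/
theorem RpP.exFin {A : ℕ → Pt b → Prop} (h : ∀ i, RpP (A i)) (n : ℕ) :
    RpP fun F => ∃ i < n, A i F := by
  refine (RpP.allFin (A := fun i F => ¬ A i F) (fun i => (h i).not) n).not.congr fun F => ?_
  push Not
  rfl

end

section

variable {P : Type} [Preorder P]

/-! ### unions of sequences -/

/-- the union of a sequence of sets -/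
noncomputable def unN (u : ℕ → BSet (RO P)) : BSet (RO P) :=
  .mk (Σ n, (u n).ty) (fun i => (u i.1).fn i.2) (fun i => (u i.1).bv i.2)

theorem memv_unN (x : BSet (RO P)) (u : ℕ → BSet (RO P)) :
    memv x (unN u) = ⨆ n, memv x (u n) := by
  rw [unN, BVM.memv_mk, iSup_sigma]
  refine iSup_congr fun n => ?_
  rw [BVM.memv_eq x (u n)]

theorem in_unN {u : ℕ → BSet (RO P)} {F : GG P} {x : Md F} {n : ℕ}
    (h : In F x (nm F (u n))) : In F x (nm F (unN u)) := by
  obtain ⟨x, rfl⟩ := exists_nm x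
  rw [In_nm, memv_unN]
  exact F.1.mono (le_iSup (fun n => memv x (u n)) n) h

theorem fc_unN {u : ℕ → BSet (RO P)} {x : BSet (RO P)} {q : P}
    (h : Fc q fun F => In F (nm F x) (nm F (unN u))) :
    ∃ r ≤ q, ∃ n, Fc r fun F => In F (nm F x) (nm F (u n)) := by
  have h1 : Forc q (memv x (unN u)) := by
    rw [← pt_le_iff]
    exact le_of_pt le_top fun F hF => h F hF
  rw [memv_unN, forc_iSup] at h1
  obtain ⟨r, hr, n, hn⟩ := h1 q le_rfl
  exact ⟨r, hr, n, fun F hF => F.1.mono (pt_le_iff.2 hn) hF⟩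

/-- a family given by a sequence and a set of indices -/
noncomputable def famJ (V : ℕ → BSet (RO P)) (J : ℕ → RO P) : BSet (RO P) := .mk ℕ V J

theorem in_famJ {V : ℕ → BSet (RO P)} {J : ℕ → RO P} {F : GG P} {n : ℕ} (h : F.1.U (J n)) :
    In F (nm F (V n)) (nm F (famJ V J)) := by
  rw [In_nm]
  exact F.1.mono (BVM.memv_self V J n) h

theorem fc_famJ {V : ℕ → BSet (RO P)} {J : ℕ → RO P} {x : BSet (RO P)} {q : P}
    (h : Fc q fun F => In F (nm F x) (nm F (famJ V J))) :
    ∃ r ≤ q, ∃ n, Fc r fun F => F.1.U (J n) ∧ nm F x = nm F (V n) := by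
  have h1 : Forc q (memv x (famJ V J)) := by
    rw [← pt_le_iff]
    exact le_of_pt le_top fun F hF => h F hF
  rw [famJ, BVM.memv_mk, forc_iSup] at h1
  obtain ⟨r, hr, n, hn⟩ := h1 q le_rfl
  refine ⟨r, hr, n, fun F hF => ?_⟩
  have h2 := F.1.mono (pt_le_iff.2 hn) hF
  rw [F.1.inf_iff, ← nm_eq] at h2
  exact h2

/-! ### mixing -/

/-- names can be mixed -/
theorem fc_mix {Φ : BSet (RO P) → GG P → Prop} (hΦ : ∀ a, RpP (Φ a))
    (hc : ∀ a a' F, nm F a = nm F a' → Φ a F → Φ a' F) {q : P}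
    (h : ∀ r ≤ q, ∃ s ≤ r, ∃ a, Fc s (Φ a)) : ∃ a, Fc q (Φ a) := by
  have hA : ∀ a, RpP fun F : GG P => ∃ a', nm F a' = nm F a ∧ Φ a' F := fun a =>
    (hΦ a).congr fun F => ⟨fun h => ⟨a, rfl, h⟩, fun ⟨a', h1, h2⟩ => hc a' a F h1 h2⟩
  obtain ⟨a, ha⟩ := Fc.name (q := q) (A := fun F y => ∃ a', nm F a' = y ∧ Φ a' F) hA
    (Fc.dense (RpP.ex hA) fun r hr => by
      obtain ⟨s, hs, a, ha⟩ := h r hr
      exact ⟨s, hs, fun F hF => ⟨nm F a, a, rfl, ha F hF⟩⟩)
  refine ⟨a, fun F hF => ?_⟩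
  obtain ⟨a', h1, h2⟩ := ha F hF
  exact hc a' a F h1 h2

/-! ### values of sequences at names of natural numbers -/

theorem exists_ev (u : ℕ → BSet (RO P)) (a : BSet (RO P)) : ∃ v : BSet (RO P), ∀ F : GG P,
    (In F (nm F a) (nm F (onT ℕ)) ∧ BVM.Rel (In F) (nm F (seqN u)) (nm F a) (nm F v)) ∨
      (¬ In F (nm F a) (nm F (onT ℕ)) ∧ nm F v = nm F (on 0)) :=
  exists_name (b := (⊤ : RO P)) (P := fun F v =>
    (In F (nm F a) (nm F (onT ℕ)) ∧ BVM.Rel (In F) (nm F (seqN u)) (nm F a) v) ∨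
      (¬ In F (nm F a) (nm F (onT ℕ)) ∧ v = nm F (on 0)))
    (fun v => ((RpP.mem _ _).and (RpP.rel _ _ _)).or ((RpP.mem _ _).not.and (RpP.eq _ _)))
    (fun F => by
      by_cases h : In F (nm F a) (nm F (onT ℕ))
      · obtain ⟨y, hy, _⟩ := (funOn_seqN u F).2 _ h
        exact ⟨y, Or.inl ⟨h, hy⟩⟩
      · exact ⟨_, Or.inr ⟨h, rfl⟩⟩)

/-- the value `u a` of the sequence `u` at the natural number named by `a` -/
noncomputable def ev (u : ℕ → BSet (RO P)) (a : BSet (RO P)) : BSet (RO P) :=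
  (exists_ev u a).choose

theorem ev_spec (u : ℕ → BSet (RO P)) (a : BSet (RO P)) (F : GG P) :
    (In F (nm F a) (nm F (onT ℕ)) ∧ BVM.Rel (In F) (nm F (seqN u)) (nm F a) (nm F (ev u a))) ∨
      (¬ In F (nm F a) (nm F (onT ℕ)) ∧ nm F (ev u a) = nm F (on 0)) :=
  (exists_ev u a).choose_spec F

theorem nat_mem (n : ℕ) (F : GG P) : In F (nm F (on n)) (nm F (onT ℕ)) := BVM.E_onT n F.1

theorem ev_on {u : ℕ → BSet (RO P)} {a : BSet (RO P)} {F : GG P} {n : ℕ}
    (h : nm F a = nm F (on n)) : nm F (ev u a) = nm F (u n) := by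
  rcases ev_spec u a F with ⟨_, h1⟩ | ⟨h1, _⟩
  · rw [h] at h1
    exact rel_seqN.1 h1
  · rw [h] at h1
    exact absurd (nat_mem n F) h1

theorem ev_congr {u : ℕ → BSet (RO P)} {a a' : BSet (RO P)} {F : GG P}
    (h : nm F a = nm F a') : nm F (ev u a) = nm F (ev u a') := by
  rcases ev_spec u a F with ⟨h1, h2⟩ | ⟨h1, h2⟩
  · rcases ev_spec u a' F with ⟨h3, h4⟩ | ⟨h3, h4⟩
    · rw [h] at h2
      obtain ⟨y, _, hy⟩ := (funOn_seqN u F).2 _ h3
      rw [hy _ h2, hy _ h4]
    · rw [h] at h1; exact absurd h1 h3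
  · rcases ev_spec u a' F with ⟨h3, h4⟩ | ⟨h3, h4⟩
    · rw [h] at h1; exact absurd h3 h1
    · rw [h2, h4]

/-- the value `V a b` of the double sequence `V` at the natural numbers named by `a` and `b` -/
noncomputable def blk (V : ℕ → ℕ → BSet (RO P)) (a b : BSet (RO P)) : BSet (RO P) :=
  ev (fun m => ev (V m) b) a

theorem blk_on {V : ℕ → ℕ → BSet (RO P)} {a b : BSet (RO P)} {F : GG P} {m n : ℕ}
    (ha : nm F a = nm F (on m)) (hb : nm F b = nm F (on n)) :
    nm F (blk V a b) = nm F (V m n) := by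
  rw [blk, ev_on ha, ev_on hb]

/-- a finite disjunction is decided -/
theorem fc_exFin {A : ℕ → GG P → Prop} (hA : ∀ i, RpP (A i)) {n : ℕ} {q : P}
    (h : Fc q fun F => ∃ i < n, A i F) : ∃ r ≤ q, ∃ i < n, Fc r (A i) := by
  by_contra hcon
  push Not at hcon
  have h1 : ∀ i < n, Fc q fun F => ¬ A i F := fun i hi =>
    Fc.not (hA i) fun r hr => hcon r hr i hi
  refine Fc.false (q := q) fun F hF => ?_
  obtain ⟨i, hi, h2⟩ := h F hF
  exact h1 i hi F hF h2

/-! ### names of natural numbers -/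

/-- natural numbers are decided -/
theorem fc_nat {a : BSet (RO P)} {q : P} (h : Fc q fun F => In F (nm F a) (nm F (onT ℕ))) :
    ∃ r ≤ q, ∃ n : ℕ, Fc r fun F => nm F a = nm F (on n) := Fc.chk (x := on) h

theorem nat_inj {F : GG P} {m n : ℕ} : nm F (on m) = nm F (on n) ↔ m = n := by
  constructor
  · intro h
    exact disc_nat.eq (nm_eq.1 h)
  · intro h
    rw [h]

theorem nat_lt {F : GG P} {m n : ℕ} : In F (nm F (on m)) (nm F (on n)) ↔ m < n :=
  BVM.E_on_iff F.1

/-- ultrafilters and finite suprema -/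
theorem uf_fin {F : GG P} {κ : Type} [_root_.Finite κ] {c : κ → RO P}
    (hc : F.1.U (⨆ k, c k)) : ∃ k, F.1.U (c k) := by
  by_contra hcon
  push Not at hcon
  have h6 : ∀ s : Set κ, s.Finite → F.1.U (⨅ k ∈ s, (c k)ᶜ) := by
    intro s hs
    induction s, hs using Set.Finite.induction_on with
    | empty => simp [F.1.top]
    | insert _ _ ih =>
      rw [iInf_insert, F.1.inf_iff]
      exact ⟨(F.1.compl_iff).2 (hcon _), ih⟩
  have h7 := F.1.inf hc (h6 univ finite_univ)
  simp only [mem_univ, iInf_pos] at h7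
  rw [← compl_iSup, inf_compl_eq_bot] at h7
  exact F.1.bot h7

/-- elements of finite check sets -/
theorem mem_chk_fin {F : GG P} {κ : Type} [_root_.Finite κ] {x : κ → BSet (RO P)} {y : Md F}
    (h : In F y (nm F (chk x))) : ∃ k, y = nm F (x k) := by
  obtain ⟨y, rfl⟩ := exists_nm y
  have h4 : F.1.U (⨆ i, eqv y (x i)) := by
    rw [← BVM.memv_chk]
    exact h
  obtain ⟨i, hi⟩ := uf_fin h4
  exact ⟨i, nm_eq.2 hi⟩

/-- elements of standard natural numbers are standard -/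
theorem mem_on {F : GG P} {n : ℕ} {x : Md F} (h : In F x (nm F (on n))) :
    ∃ i < n, x = nm F (on i) := by
  obtain ⟨x, rfl⟩ := exists_nm x
  have h4 : F.1.U (⨆ i : Set.Iio n, eqv x (on i.1)) := by
    rw [← BVM.memv_chk (fun i : Set.Iio n => (on i.1 : BSet (RO P))), ← BVM.on_def]
    exact h
  obtain ⟨i, hi⟩ := uf_fin h4
  exact ⟨i.1, i.2, nm_eq.2 hi⟩

/-! ### finite sets -/

/-- finite sets are given by lists of names -/
theorem exists_list {f : BSet (RO P)} {q : P}
    (h : Fc q fun F => OG45.Finite (In F) (nm F (onT ℕ)) (nm F f)) :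
    ∃ r ≤ q, ∃ l : List (BSet (RO P)), Fc r fun F => ∀ x, In F x (nm F f) ↔ ∃ u ∈ l, x = nm F u := by
  obtain ⟨n, hn⟩ := Fc.name (q := q) (A := fun F n => In F n (nm F (onT ℕ)) ∧
    BVM.CardLE (In F) (nm F f) n) (fun _ => (RpP.mem _ _).and (rpCardLE _ _)) h
  obtain ⟨r, hr, m, hm⟩ := fc_nat (a := n) (q := q) (fun F hF => (hn F hF).1)
  have hRp : ∀ h n : BSet (RO P), RpP fun F : GG P =>
      (∀ x y y', BVM.Rel (In F) (nm F h) x y → BVM.Rel (In F) (nm F h) x y' → y' = y) ∧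
      ∀ y, In F y (nm F f) → ∃ x, In F x (nm F n) ∧ BVM.Rel (In F) (nm F h) x y := by
    intro h n
    repeat' (first
      | exact RpP.rel _ _ _ | exact RpP.mem _ _ | exact RpP.eq _ _ | refine RpP.and ?_ ?_
      | refine RpP.ex fun _ => ?_ | refine RpP.all fun _ => ?_
      | refine RpP.imp ?_ ?_)
  obtain ⟨g, hg⟩ := Fc.name (q := r) (A := fun F h =>
    (∀ x y y', BVM.Rel (In F) h x y → BVM.Rel (In F) h x y' → y' = y) ∧
      ∀ y, In F y (nm F f) → ∃ x, In F x (nm F (on m)) ∧ BVM.Rel (In F) h x y)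
    (fun h => hRp h (on m)) (fun F hF => by
      have h3 := (hn.mono hr F hF).2
      have e : nm F n = nm F (on m) := hm F hF
      rw [e] at h3
      exact h3)
  -- a list for the first numbers
  have key : ∀ k ≤ m, ∃ s ≤ r, ∃ l : List (BSet (RO P)), Fc s fun F =>
      ∀ x, (In F x (nm F f) ∧ ∃ i < k, BVM.Rel (In F) (nm F g) (nm F (on i)) x) ↔
        ∃ u ∈ l, x = nm F u := by
    intro k hk
    induction k with
    | zero =>
      refine ⟨r, le_rfl, [], fun F hF x => ?_⟩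
      simp
    | succ k ih =>
      obtain ⟨s, hs, l, hl⟩ := ih (Nat.le_of_succ_le hk)
      have hR1 : ∀ x, RpP fun F : GG P => In F (nm F x) (nm F f) ∧
          BVM.Rel (In F) (nm F g) (nm F (on k)) (nm F x) := fun x =>
        (RpP.mem _ _).and (RpP.rel _ _ _)
      obtain ⟨t, ht, h1 | h1⟩ := fc_decide (RpP.ex (P := fun F x => In F x (nm F f) ∧
          BVM.Rel (In F) (nm F g) (nm F (on k)) x) hR1) s
      · obtain ⟨u, hu⟩ := Fc.name (A := fun F x => In F x (nm F f) ∧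
          BVM.Rel (In F) (nm F g) (nm F (on k)) x) hR1 h1
        refine ⟨t, ht.trans hs, u :: l, fun F hF x => ?_⟩
        have hu' := hu F hF
        have hl' := hl.mono ht F hF
        have hg' := hg.mono (ht.trans hs) F hF
        beta_reduce at hu' hl' hg'
        constructor
        · rintro ⟨h2, i, hi, h3⟩
          rcases Nat.lt_succ_iff_lt_or_eq.1 hi with h4 | h4
          · obtain ⟨v, hv, h5⟩ := (hl' x).1 ⟨h2, i, h4, h3⟩
            exact ⟨v, List.mem_cons_of_mem _ hv, h5⟩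
          · rw [h4] at h3
            exact ⟨u, List.mem_cons_self, hg'.1 _ _ _ hu'.2 h3⟩
        · rintro ⟨v, hv, h5⟩
          rcases List.mem_cons.1 hv with h6 | h6
          · rw [h5, h6]
            exact ⟨hu'.1, k, Nat.lt_succ_self k, hu'.2⟩
          · obtain ⟨h7, i, hi, h8⟩ := (hl' x).2 ⟨v, h6, h5⟩
            exact ⟨h7, i, hi.trans (Nat.lt_succ_self k), h8⟩
      · refine ⟨t, ht.trans hs, l, fun F hF x => ?_⟩
        have hl' := hl.mono ht F hF
        have h1' := h1 F hF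
        beta_reduce at hl' h1'
        rw [← hl']
        constructor
        · rintro ⟨h2, i, hi, h3⟩
          rcases Nat.lt_succ_iff_lt_or_eq.1 hi with h4 | h4
          · exact ⟨h2, i, h4, h3⟩
          · rw [h4] at h3
            exact absurd ⟨x, h2, h3⟩ h1'
        · rintro ⟨h2, i, hi, h3⟩
          exact ⟨h2, i, hi.trans (Nat.lt_succ_self k), h3⟩
  obtain ⟨s, hs, l, hl⟩ := key m le_rfl
  refine ⟨s, hs.trans hr, l, fun F hF x => ?_⟩
  have hl' := hl F hF
  have hg' := hg.mono hs F hF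
  beta_reduce at hl' hg'
  rw [← hl']
  constructor
  · intro hx
    obtain ⟨z, hz, hzx⟩ := hg'.2 x hx
    obtain ⟨i, hi, rfl⟩ := mem_on hz
    exact ⟨hx, i, hi, hzx⟩
  · exact fun h => h.1

/-! ### infinitely often -/

/-- `q` forces that `A n` holds for infinitely many `n` -/
def Inf (q : P) (A : ℕ → GG P → Prop) : Prop :=
  ∀ r ≤ q, ∀ N, ∃ s ≤ r, ∃ n ≥ N, Fc s (A n)

theorem Inf.mono {q r : P} {A : ℕ → GG P → Prop} (h : Inf q A) (hr : r ≤ q) : Inf r A :=
  fun s hs N => h s (hs.trans hr) N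

theorem Inf.imp {q : P} {A A' : ℕ → GG P → Prop} (h : Inf q A)
    (h' : ∀ n, Fc q fun F => A n F → A' n F) : Inf q A' := by
  intro r hr N
  obtain ⟨s, hs, n, hn, h1⟩ := h r hr N
  exact ⟨s, hs, n, hn, fun F hF => (h' n).mono (hs.trans hr) F hF (h1 F hF)⟩

/-- many indices at once -/
theorem Inf.many {q : P} {A : ℕ → GG P → Prop} (h : Inf q A) (k : ℕ) :
    ∃ r ≤ q, ∃ e : ℕ → ℕ, StrictMono e ∧ ∀ i < k, Fc r (A (e i)) := by
  induction k with
  | zero => exact ⟨q, le_rfl, id, strictMono_id, fun i hi => absurd hi (Nat.not_lt_zero i)⟩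
  | succ k ih =>
    obtain ⟨r, hr, e, he, h1⟩ := ih
    obtain ⟨s, hs, n, hn, h2⟩ := h r hr (e k + 1)
    refine ⟨s, hs.trans hr, fun i => if i < k then e i else n + (i - k), ?_, fun i hi => ?_⟩
    · intro i j hij
      show (if i < k then e i else n + (i - k)) < (if j < k then e j else n + (j - k))
      by_cases h3 : j < k
      · rw [if_pos h3, if_pos (hij.trans h3)]
        exact he hij
      · rw [if_neg h3]
        by_cases h4 : i < k
        · rw [if_pos h4]
          have := he h4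
          omega
        · rw [if_neg h4]
          omega
    · beta_reduce
      by_cases h3 : i < k
      · rw [if_pos h3]
        exact (h1 i h3).mono hs
      · rw [if_neg h3, show n + (i - k) = n by omega]
        exact h2

end

end Pool.Agent.IN45
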