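import Pool.Agent.IN45.Names

/-!
# The union of some blocks (module TBL)
-/

namespace Pool.Agent.IN45

open Classical Set Pool.Agent Pool.Agent.LadderTree Pool.Agent.Forcing Pool.Agent.MAx
open Pool.Agent.BVM (BSet UF eqv memv chk Congr le_of_uf Disc OPair FunOn op on onT)
open Pool.Agent.OG45 Pool.Agent.SP45

variable {P : Type} [Preorder P]

/-- the `j`-th number of an increasing sequence is at least `j` -/
theorem le_alpha {α : ℕ → BSet (RO P)} {q : P}
    (hα : ∀ j, Fc q fun F => In F (nm F (α j)) (nm F (onT ℕ)))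
    (hinc : ∀ j, Fc q fun F => In F (nm F (α j)) (nm F (α (j + 1)))) {r : P} (hr : r ≤ q)
    {j n : ℕ} (hn : Fc r fun F => nm F (α j) = nm F (on n)) : j ≤ n := by
  -- induction on `j` for all `r`, `n`: decide `α j` below `r` (`fc_nat`), `nat_lt`
  induction j generalizing r n with
  | zero => exact Nat.zero_le n
  | succ j ih =>
    obtain ⟨s, hs, m, hm⟩ := fc_nat ((hα j).mono hr)
    have h1 : j ≤ m := ih (hs.trans hr) hm
    obtain ⟨F, hF⟩ := exists_gg s
    have e1 := hm F hF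
    have e2 := hn.mono hs F hF
    have e3 := (hinc j).mono (hs.trans hr) F hF
    beta_reduce at e1 e2 e3
    rw [e1, e2, nat_lt] at e3
    omega

/-- smaller numbers are members of the same `α j` -/
private theorem tbl_down {α : ℕ → BSet (RO P)} {q : P}
    (hα : ∀ j, Fc q fun F => In F (nm F (α j)) (nm F (onT ℕ))) (j : ℕ) {m n : ℕ} (hmn : m ≤ n) :
    Fc q fun F => In F (nm F (on n)) (nm F (α j)) → In F (nm F (on m)) (nm F (α j)) := by
  refine Fc.imp (RpP.mem _ _) (RpP.mem _ _) fun r hr h => ?_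
  refine Fc.dense (RpP.mem _ _) fun s hs => ?_
  obtain ⟨t, ht, a, ha⟩ := fc_nat ((hα j).mono (hs.trans hr))
  refine ⟨t, ht, fun F hF => ?_⟩
  have e1 := ha F hF
  have e2 := h.mono (ht.trans hs) F hF
  beta_reduce at e1 e2 ⊢
  rw [e1, nat_lt] at e2 ⊢
  omega

/-- `α j` is increasing -/
private theorem tbl_up {α : ℕ → BSet (RO P)} {q : P}
    (hα : ∀ j, Fc q fun F => In F (nm F (α j)) (nm F (onT ℕ)))
    (hinc : ∀ j, Fc q fun F => In F (nm F (α j)) (nm F (α (j + 1)))) (m : ℕ) {j j' : ℕ}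
    (hj : j ≤ j') :
    Fc q fun F => In F (nm F (on m)) (nm F (α j)) → In F (nm F (on m)) (nm F (α j')) := by
  induction j', hj using Nat.le_induction with
  | base => exact fun F _ h => h
  | succ i _ ih =>
    have h1 : Fc q fun F => In F (nm F (on m)) (nm F (α i)) →
        In F (nm F (on m)) (nm F (α (i + 1))) := by
      refine Fc.imp (RpP.mem _ _) (RpP.mem _ _) fun r hr h => ?_
      refine Fc.dense (RpP.mem _ _) fun s hs => ?_
      obtain ⟨t, ht, a, ha⟩ := fc_nat ((hα i).mono (hs.trans hr))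
      obtain ⟨u, hu, b, hb⟩ := fc_nat ((hα (i + 1)).mono (ht.trans (hs.trans hr)))
      refine ⟨u, hu.trans ht, fun F hF => ?_⟩
      have e1 := ha.mono hu F hF
      have e2 := hb F hF
      have e3 := h.mono (hu.trans (ht.trans hs)) F hF
      have e4 := (hinc i).mono (hu.trans (ht.trans (hs.trans hr))) F hF
      beta_reduce at e1 e2 e3 e4 ⊢
      rw [e1, nat_lt] at e3
      rw [e1, e2, nat_lt] at e4
      rw [e2, nat_lt]
      omega
    intro F hF h
    exact h1 F hF (ih F hF h)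

/-- module TBL: the union `T` of the blocks with index in `J`.
`T m` is the supremum over `j` of `J j ⊓ bv (...)`, the value of `α j ≤ m < α (j + 1)`.
First part: if `T m` holds with another index `j'`, then the blocks `j` and `j'` both contain `m`;
for `j < j'` this contradicts `m < α (j + 1) ≤ α j' ≤ m` (decide all `α i`, `i ≤ j' + 1`, below
a condition, and use `Fc.dense`). -/
theorem exists_T {α : ℕ → BSet (RO P)} {J : ℕ → RO P} {q : P}
    (hα : ∀ j, Fc q fun F => In F (nm F (α j)) (nm F (onT ℕ)))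
    (hinc : ∀ j, Fc q fun F => In F (nm F (α j)) (nm F (α (j + 1)))) :
    ∃ T : ℕ → RO P, (∀ j m, Fc q fun F => ¬ In F (nm F (on m)) (nm F (α j)) →
        In F (nm F (on m)) (nm F (α (j + 1))) → (F.1.U (T m) ↔ F.1.U (J j))) ∧
      ∀ m, ∀ r ≤ q, (Fc r fun F => F.1.U (T m)) → ∃ s ≤ r, ∃ j, Fc s fun F =>
        ¬ In F (nm F (on m)) (nm F (α j)) ∧ In F (nm F (on m)) (nm F (α (j + 1))) := by
  have hR : ∀ j m : ℕ, RpP fun F : GG P => ¬ In F (nm F (on m)) (nm F (α j)) ∧
      In F (nm F (on m)) (nm F (α (j + 1))) := fun j m => by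
    have h1 : RpP fun F : GG P => In F (nm F (on m)) (nm F (α j)) := RpP.mem _ _
    exact h1.not.and (RpP.mem _ _)
  have hT1 : ∀ (j m : ℕ) (F : GG P), F.1.U (pt q) → ¬ In F (nm F (on m)) (nm F (α j)) →
      In F (nm F (on m)) (nm F (α (j + 1))) →
      (F.1.U (⨆ j', J j' ⊓ bv (hR j' m)) ↔ F.1.U (J j)) := by
    intro j m F hF h1 h2
    constructor
    · intro hT
      have hle : pt q ⊓ bv (hR j m) ⊓ (⨆ j', J j' ⊓ bv (hR j' m)) ≤ J j := by
        rw [inf_iSup_eq]
        refine iSup_le fun j' => ?_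
        refine le_of_pt le_top fun F hF => ?_
        rw [F.1.inf_iff, F.1.inf_iff, F.1.inf_iff, bv_iff, bv_iff] at hF
        obtain ⟨⟨hq, h3, h4⟩, h5, h6, h7⟩ := hF
        rcases Nat.lt_trichotomy j j' with hlt | heq | hgt
        · exact absurd (tbl_up hα hinc m (Nat.succ_le_of_lt hlt) F hq h4) h6
        · rw [heq]
          exact h5
        · exact absurd (tbl_up hα hinc m (Nat.succ_le_of_lt hgt) F hq h7) h3
      refine F.1.mono hle ?_
      rw [F.1.inf_iff, F.1.inf_iff, bv_iff]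
      exact ⟨⟨hF, h1, h2⟩, hT⟩
    · intro hJ
      refine F.1.mono (le_iSup (fun j => J j ⊓ bv (hR j m)) j) ?_
      rw [F.1.inf_iff, bv_iff]
      exact ⟨hJ, h1, h2⟩
  have hT2 : ∀ (m : ℕ) (r : P), (Fc r fun F => F.1.U (⨆ j', J j' ⊓ bv (hR j' m))) →
      ∃ s ≤ r, ∃ j, Fc s fun F =>
        ¬ In F (nm F (on m)) (nm F (α j)) ∧ In F (nm F (on m)) (nm F (α (j + 1))) := by
    intro m r h
    have h1 : Forc r (⨆ j, J j ⊓ bv (hR j m)) := by
      rw [← pt_le_iff]
      exact le_of_pt le_top fun F hF => h F hF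
    rw [forc_iSup] at h1
    obtain ⟨s, hs, j, hj⟩ := h1 r le_rfl
    refine ⟨s, hs, j, fun F hF => ?_⟩
    have h2 := F.1.mono (pt_le_iff.2 hj) hF
    rw [F.1.inf_iff, bv_iff] at h2
    exact h2.2
  exact ⟨fun m => ⨆ j, J j ⊓ bv (hR j m), fun j m F hF => hT1 j m F hF,
    fun m r _ h => hT2 m r h⟩

/-- module TBL: `T` is a union of blocks given by any set `A` containing all `α j`.
Let `m < n` be decided standard numbers (`Fc.all`, `Fc.imp`, `fc_nat`) such that no element `a` of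
`A` has `m < a ≤ n`.  If `T m` holds below `s`, let `j` be the block of `m`; then
`m < α (j + 1) ∈ A`, so `n < α (j + 1)`, and `T n` holds since `j` is also the block of `n`.
Conversely, if `T n` holds, let `j` be the block of `n`; `m < α j` is impossible (it would
give `n < α j`), so `j` is the block of `m`. -/
theorem sat_T {α : ℕ → BSet (RO P)} {J T : ℕ → RO P} {A : BSet (RO P)} {q : P}
    (hα : ∀ j, Fc q fun F => In F (nm F (α j)) (nm F (onT ℕ)))
    (hinc : ∀ j, Fc q fun F => In F (nm F (α j)) (nm F (α (j + 1))))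
    (hA : ∀ j, Fc q fun F => In F (nm F (α j)) (nm F A))
    (h1 : ∀ j m, Fc q fun F => ¬ In F (nm F (on m)) (nm F (α j)) →
        In F (nm F (on m)) (nm F (α (j + 1))) → (F.1.U (T m) ↔ F.1.U (J j)))
    (h2 : ∀ m, ∀ r ≤ q, (Fc r fun F => F.1.U (T m)) → ∃ s ≤ r, ∃ j, Fc s fun F =>
        ¬ In F (nm F (on m)) (nm F (α j)) ∧ In F (nm F (on m)) (nm F (α (j + 1)))) :
    Fc q fun F => Sat (In F) (nm F (onT ℕ)) (nm F A) (nm F (MAx.sN T)) := by
  have hRa : ∀ x y : BSet (RO P), RpP fun F : GG P =>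
      ∀ a, In F a (nm F A) → In F (nm F x) a → In F (nm F y) a := fun x y =>
    RpP.all fun a => (RpP.mem _ _).imp ((RpP.mem _ _).imp (RpP.mem _ _))
  have hRt : ∀ x y : BSet (RO P), RpP fun F : GG P =>
      (In F (nm F x) (nm F (MAx.sN T)) ↔ In F (nm F y) (nm F (MAx.sN T))) := fun x y =>
    (RpP.mem _ _).iff (RpP.mem _ _)
  unfold Sat
  refine Fc.all fun x => Fc.all fun y => ?_
  refine Fc.imp (RpP.mem _ _) ((RpP.mem _ _).imp ((RpP.mem _ _).imp ((hRa x y).imp (hRt x y))))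
    fun r1 hr1 hx => ?_
  refine Fc.imp (RpP.mem _ _) ((RpP.mem _ _).imp ((hRa x y).imp (hRt x y))) fun r2 hr2 hy => ?_
  refine Fc.imp (RpP.mem _ _) ((hRa x y).imp (hRt x y)) fun r3 hr3 hxy => ?_
  refine Fc.imp (hRa x y) (hRt x y) fun r4 hr4 hall => ?_
  have hr : r4 ≤ q := hr4.trans (hr3.trans (hr2.trans hr1))
  refine Fc.dense (hRt x y) fun s hs => ?_
  obtain ⟨t, ht, m, hm⟩ := fc_nat (hx.mono (hs.trans (hr4.trans (hr3.trans hr2))))
  obtain ⟨u, hu, n, hn⟩ := fc_nat (hy.mono (ht.trans (hs.trans (hr4.trans hr3))))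
  have hus : u ≤ s := hu.trans ht
  have huq : u ≤ q := hus.trans (hs.trans hr)
  -- the two numbers are in order
  have hmn : m < n := by
    obtain ⟨F, hF⟩ := exists_gg u
    have e1 := hm.mono hu F hF
    have e2 := hn F hF
    have e3 := hxy.mono (hus.trans (hs.trans hr4)) F hF
    beta_reduce at e1 e2 e3
    rwa [e1, e2, nat_lt] at e3
  have hall' : Fc u fun F => ∀ a, In F a (nm F A) → In F (nm F (on m)) a →
      In F (nm F (on n)) a := by
    intro F hF a ha h
    have e1 := hm.mono hu F hF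
    have e2 := hn F hF
    have e3 := hall.mono (hus.trans hs) F hF
    beta_reduce at e1 e2 e3
    rw [e1, e2] at e3
    exact e3 a ha h
  obtain ⟨v, hv, h3⟩ := fc_decide (RpP.val (T m) : RpP fun F : GG P => F.1.U (T m)) u
  obtain ⟨v', hv', h4⟩ := fc_decide (RpP.val (T n) : RpP fun F : GG P => F.1.U (T n)) v
  have hvu : v' ≤ u := hv'.trans hv
  refine ⟨v', hvu.trans hus, fun F hF => ?_⟩
  have e1 := hm.mono (hvu.trans hu) F hF
  have e2 := hn.mono hvu F hF
  beta_reduce at e1 e2 ⊢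
  rw [e1, e2, In_sN, In_sN]
  rcases h3 with h3 | h3 <;> rcases h4 with h4 | h4
  · exact ⟨fun _ => h4 F hF, fun _ => h3.mono hv' F hF⟩
  · -- `T m` holds and `T n` fails
    exfalso
    obtain ⟨w, hw, j, hj⟩ := h2 m v' (hvu.trans huq) (h3.mono hv')
    have hwu : w ≤ u := hw.trans hvu
    obtain ⟨F, hF⟩ := exists_gg w
    have f1 := hj F hF
    have f2 := hall'.mono hwu F hF
    have f3 := (hA (j + 1)).mono (hwu.trans huq) F hF
    have f4 := (tbl_down hα j hmn.le).mono (hwu.trans huq) F hF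
    have f5 := (h1 j m).mono (hwu.trans huq) F hF
    have f6 := (h1 j n).mono (hwu.trans huq) F hF
    have f7 := h3.mono (hw.trans hv') F hF
    have f8 := h4.mono hw F hF
    beta_reduce at f1 f2 f3 f4 f5 f6 f7 f8
    exact f8 ((f6 (fun h => f1.1 (f4 h)) (f2 _ f3 f1.2)).2 ((f5 f1.1 f1.2).1 f7))
  · -- `T m` fails and `T n` holds
    exfalso
    obtain ⟨w, hw, j, hj⟩ := h2 n v' (hvu.trans huq) h4
    have hwu : w ≤ u := hw.trans hvu
    obtain ⟨F, hF⟩ := exists_gg w
    have f1 := hj F hF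
    have f2 := hall'.mono hwu F hF
    have f3 := (hA j).mono (hwu.trans huq) F hF
    have f4 := (tbl_down hα (j + 1) hmn.le).mono (hwu.trans huq) F hF
    have f5 := (h1 j m).mono (hwu.trans huq) F hF
    have f6 := (h1 j n).mono (hwu.trans huq) F hF
    have f7 := h3.mono (hw.trans hv') F hF
    have f8 := h4.mono hw F hF
    beta_reduce at f1 f2 f3 f4 f5 f6 f7 f8
    exact f7 ((f5 (fun h => f1.1 (f2 _ f3 h)) (f4 f1.2)).2 ((f6 f1.1 f1.2).1 f8))
  · exact ⟨fun h => absurd h (h3.mono hv' F hF), fun h => absurd h (h4 F hF)⟩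

end Pool.Agent.IN45
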