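import Pool.Agent.IN45.Gdf
import Pool.Agent.IN45.Tbl

/-!
# The set `T` splits the sequence (module ASM1)
-/

namespace Pool.Agent.IN45

open Classical Set Pool.Agent Pool.Agent.LadderTree Pool.Agent.Forcing Pool.Agent.MAx
open Pool.Agent.BVM (BSet UF eqv memv chk Congr le_of_uf Disc OPair FunOn op on onT)
open Pool.Agent.OG45 Pool.Agent.SP45

variable {P : Type} [Preorder P]

/-- module ASM1: the set `T` splits the sequence `W`.  Let `s ≤ r` force `z ∈ Z`, and name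
`x ∈ X`, `y ∈ Y` with `z = (x, y)`.  For `N'` find `j ≥ N'` with `j ∈ J` and
`y ∈ blk G (α j) (α (j + 1))`, decide `α j = on i`, `α (j + 1) = on m`; so `y ∈ G i m` and at
every `F` some `n` with `i ≤ n < m` has `(x, y) ∈ W n`; decide `n` (`fc_exFin`).  Here
`n ≥ i ≥ j ≥ N'` (`le_alpha`) is in `T`. -/
theorem inf_T {X Y Z : BSet (RO P)} {W : ℕ → BSet (RO P)} {G : ℕ → ℕ → BSet (RO P)} {r : P}
    (hZ : Fc r fun F => IsProd (In F) (nm F Z) (nm F X) (nm F Y))
    (hG : ∀ i m (F : GG P) y, In F y (nm F (G i m)) ↔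
      (In F y (nm F Y) ∧ ∀ x, In F x (nm F X) → ∃ j < m, i ≤ j ∧ InR (In F) (nm F (W j)) x y))
    {α : ℕ → BSet (RO P)} {J T : ℕ → RO P}
    (hα : ∀ j, Fc r fun F => In F (nm F (α j)) (nm F (onT ℕ)))
    (hinc : ∀ j, Fc r fun F => In F (nm F (α j)) (nm F (α (j + 1))))
    (hT : ∀ j m, Fc r fun F => ¬ In F (nm F (on m)) (nm F (α j)) →
        In F (nm F (on m)) (nm F (α (j + 1))) → (F.1.U (T m) ↔ F.1.U (J j)))
    (b : Bool)
    (hJ : ∀ s ≤ r, ∀ y, (Fc s fun F => In F (nm F y) (nm F Y)) →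
        Inf s fun j F => (F.1.U (J j) ↔ b) ∧ In F (nm F y) (nm F (blk G (α j) (α (j + 1)))))
    {s : P} (hs : s ≤ r) {z : BSet (RO P)} (hz : Fc s fun F => In F (nm F z) (nm F Z)) :
    Inf s fun n F => (F.1.U (T n) ↔ b) ∧ In F (nm F z) (nm F (W n)) := by
  intro s' hs' N'
  have hsr : s' ≤ r := hs'.trans hs
  -- names of the coordinates
  have h1 : Fc s' fun F => ∃ x, ∃ y, In F x (nm F X) ∧ In F y (nm F Y) ∧
      OPair (In F) (nm F z) x y := by
    intro F hF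
    have e1 := hZ.mono hsr F hF
    have e2 := hz.mono hs' F hF
    beta_reduce at e1 e2
    exact (e1 _).1 e2
  obtain ⟨x, hx⟩ := Fc.name (A := fun F x => ∃ y, In F x (nm F X) ∧ In F y (nm F Y) ∧
      OPair (In F) (nm F z) x y) (fun x => RpP.ex fun y => (RpP.mem _ _).and
        ((RpP.mem _ _).and (RpP.opair _ _ _))) h1
  obtain ⟨y, hy⟩ := Fc.name (A := fun F y => In F (nm F x) (nm F X) ∧ In F y (nm F Y) ∧
      OPair (In F) (nm F z) (nm F x) y) (fun y => (RpP.mem _ _).and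
        ((RpP.mem _ _).and (RpP.opair _ _ _))) hx
  obtain ⟨t, ht, j, hj, h2⟩ := hJ s' hsr y (fun F hF => (hy F hF).2.1) s' le_rfl N'
  obtain ⟨t1, ht1, i, hi⟩ := fc_nat ((hα j).mono (ht.trans hsr))
  obtain ⟨t2, ht2, m, hm⟩ := fc_nat ((hα (j + 1)).mono (ht1.trans (ht.trans hsr)))
  have h3 : Fc t2 fun F => ∃ n < m, (i ≤ n ∧ InR (In F) (nm F (W n)) (nm F x) (nm F y)) := by
    intro F hF
    have e1 := h2.mono (ht2.trans ht1) F hF
    have e2 := hi.mono ht2 F hF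
    have e3 := hm F hF
    have e4 := hy.mono (ht2.trans (ht1.trans ht)) F hF
    beta_reduce at e1 e2 e3 e4
    have e5 := e1.2
    rw [blk_on e2 e3, hG] at e5
    obtain ⟨n, hn, hin, h⟩ := e5.2 _ e4.1
    exact ⟨n, hn, hin, h⟩
  obtain ⟨t3, ht3, n, hn, h4⟩ := fc_exFin (fun n => (RpP.const (i ≤ n)).and (rpInR _ _ _)) h3
  have hin : i ≤ n := by
    obtain ⟨F, hF⟩ := exists_gg t3
    exact (h4 F hF).1
  have hji : j ≤ i := le_alpha hα hinc (ht1.trans (ht.trans hsr)) hi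
  refine ⟨t3, ht3.trans (ht2.trans (ht1.trans ht)), n, hj.trans (hji.trans hin), ?_⟩
  intro F hF
  have e1 := h2.mono (ht3.trans (ht2.trans ht1)) F hF
  have e2 := hi.mono (ht3.trans ht2) F hF
  have e3 := hm.mono ht3 F hF
  have e4 := hy.mono (ht3.trans (ht2.trans (ht1.trans ht))) F hF
  have e5 := (hT j n).mono (ht3.trans (ht2.trans (ht1.trans (ht.trans hsr)))) F hF
  have e6 := h4 F hF
  beta_reduce at e1 e2 e3 e4 e5 e6 ⊢
  constructor
  · rw [e2, e3] at e5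
    rw [e5 (fun h => absurd (nat_lt.1 h) (not_lt.2 hin)) (nat_lt.2 hn)]
    exact e1.1
  · obtain ⟨z', hz', hzW⟩ := e6.2
    have e7 : nm F z = z' := by
      rw [OPair_nm] at hz'
      have e8 := e4.2.2
      rw [OPair_nm] at e8
      rw [e8, hz']
    rw [e7]
    exact hzW

end Pool.Agent.IN45
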