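import Pool.Agent.IN45.Names

/-!
# Blocks (module BLK)

Names `α j` of an increasing sequence of natural numbers; the `j`-th block is
`[α j, α (j + 1))`.
-/

namespace Pool.Agent.IN45

open Classical Set Pool.Agent Pool.Agent.LadderTree Pool.Agent.Forcing Pool.Agent.MAx
open Pool.Agent.BVM (BSet UF eqv memv chk Congr le_of_uf Disc OPair FunOn op on onT)
open Pool.Agent.OG45 Pool.Agent.SP45

variable {P : Type} [Preorder P]

/-- congruence of `blk` in the second argument -/
theorem blk_congr_right {V : ℕ → ℕ → BSet (RO P)} {a b b' : BSet (RO P)} (F : GG P)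
    (h : nm F b = nm F b') : nm F (blk V a b) = nm F (blk V a b') := by
  refine gg_all (B := fun F : GG P => nm F b = nm F b' → nm F (blk V a b) = nm F (blk V a b'))
    ((RpP.eq _ _).imp (RpP.eq _ _)) (fun q => ?_) F h
  refine Fc.imp (RpP.eq _ _) (RpP.eq _ _) fun r _ hr => ?_
  refine Fc.dense (RpP.eq _ _) fun s hs => ?_
  obtain ⟨t, ht, h1 | h1⟩ := fc_decide (RpP.mem a (onT ℕ)) s
  · obtain ⟨u, hu, m, hm⟩ := fc_nat h1
    refine ⟨u, hu.trans ht, fun G hG => ?_⟩
    have h2 := hr.mono ((hu.trans ht).trans hs) G hG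
    have h3 := hm G hG
    beta_reduce at h2 h3 ⊢
    rw [blk, blk, ev_on h3, ev_on h3]
    exact ev_congr h2
  · refine ⟨t, ht, fun G hG => ?_⟩
    have h2 := h1 G hG
    beta_reduce at h2
    rcases ev_spec (fun m => ev (V m) b) a G with ⟨h3, _⟩ | ⟨_, h3⟩
    · exact absurd h3 h2
    · rcases ev_spec (fun m => ev (V m) b') a G with ⟨h4, _⟩ | ⟨_, h4⟩
      · exact absurd h4 h2
      · beta_reduce
        rw [blk, blk, h3, h4]

/-- conjunctions over lists -/
theorem RpP.allList {X : Type 1} {A : X → GG P → Prop} (h : ∀ x, RpP (A x)) (l : List X) :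
    RpP fun F : GG P => ∀ x ∈ l, A x F := by
  induction l with
  | nil => exact (RpP.const True).congr fun F => by simp
  | cons x l ih =>
    refine ((h x).and ih).congr fun F => ?_
    simp

/-- the step of the recursion -/
theorem blocks_step {Y A : BSet (RO P)} {V : ℕ → ℕ → BSet (RO P)} {h : ℕ → BSet (RO P)} {q : P}
    (hsub : ∀ m n, Fc q fun F => Sub (In F) (nm F (V m n)) (nm F Y))
    (hmono : ∀ m n, Fc q fun F => Sub (In F) (nm F (V m n)) (nm F (V m (n + 1))))
    (hcov : ∀ m, ∀ r ≤ q, ∀ y, (Fc r fun F => In F (nm F y) (nm F Y)) →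
      ∃ s ≤ r, ∃ n, Fc s fun F => In F (nm F y) (nm F (V m n)))
    (hA : Fc q fun F => Sub (In F) (nm F A) (nm F (onT ℕ)))
    (hA' : Fc q fun F => ∀ n, In F n (nm F (onT ℕ)) → ∃ a, In F a (nm F A) ∧ In F n a)
    (hpr : ∀ m n, Fc q fun F => In F (nm F (on m)) (nm F A) → nm F (V m n) ≠ nm F Y)
    (hh : ∀ m, Fc q fun F => In F (nm F (h m)) (nm F (onT ℕ)))
    (a : BSet (RO P)) (ha : Fc q fun F => In F (nm F a) (nm F A))
    (L : List (BSet (RO P))) (hL : ∀ y ∈ L, Fc q fun F => In F (nm F y) (nm F Y)) :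
    ∃ a' y : BSet (RO P), (Fc q fun F => In F (nm F a') (nm F A)) ∧
      (Fc q fun F => In F (nm F a) (nm F a')) ∧
      (Fc q fun F => In F (nm F (ev h a)) (nm F a')) ∧
      (∀ z ∈ L, Fc q fun F => In F (nm F z) (nm F (blk V a a'))) ∧
      (Fc q fun F => In F (nm F y) (nm F Y)) ∧
      Fc q fun F => ¬ In F (nm F y) (nm F (blk V a a')) := by
  -- the second number
  obtain ⟨a', ha'⟩ : ∃ a' : BSet (RO P), Fc q fun F => (In F (nm F a') (nm F A) ∧
      In F (nm F a) (nm F a')) ∧ In F (nm F (ev h a)) (nm F a') ∧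
      ∀ z ∈ L, In F (nm F z) (nm F (blk V a a')) := by
    refine fc_mix (Φ := fun a' F => (In F (nm F a') (nm F A) ∧
      In F (nm F a) (nm F a')) ∧ In F (nm F (ev h a)) (nm F a') ∧
      ∀ z ∈ L, In F (nm F z) (nm F (blk V a a'))) (fun a' => ?_) (fun b b' F hb => ?_) ?_
    · exact ((RpP.mem _ _).and (RpP.mem _ _)).and ((RpP.mem _ _).and
        (RpP.allList (fun z => RpP.mem _ _) L))
    · rintro ⟨⟨h1, h2⟩, h3, h4⟩
      rw [hb] at h1 h2 h3
      refine ⟨⟨h1, h2⟩, h3, fun z hz => ?_⟩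
      rw [← blk_congr_right F hb]
      exact h4 z hz
    · intro r hr
      obtain ⟨s₁, hs₁, m, hm⟩ := fc_nat (a := a) (q := r)
        (fun F hF => hA.mono hr F hF _ (ha.mono hr F hF))
      obtain ⟨s₂, hs₂, k, hk⟩ := fc_nat (a := h m) (q := s₁) ((hh m).mono (hs₁.trans hr))
      have hs₂q : s₂ ≤ q := hs₂.trans (hs₁.trans hr)
      -- the points of the list
      have hlist : ∀ l : List (BSet (RO P)), (∀ y ∈ l, Fc q fun F => In F (nm F y) (nm F Y)) →
          ∃ s ≤ s₂, ∃ n₀ : ℕ, ∀ z ∈ l, ∀ n, n₀ ≤ n →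
            Fc s fun F => In F (nm F z) (nm F (V m n)) := by
        intro l
        induction l with
        | nil => exact fun _ => ⟨s₂, le_rfl, 0, fun z hz => by simp at hz⟩
        | cons x l ih =>
          intro hl
          obtain ⟨s, hs, n₀, h1⟩ := ih fun y hy => hl y (List.mem_cons_of_mem _ hy)
          obtain ⟨t, ht, n₁, h2⟩ := hcov m s (hs.trans hs₂q) x
            ((hl x List.mem_cons_self).mono (hs.trans hs₂q))
          have htq : t ≤ q := ht.trans (hs.trans hs₂q)
          have h3 : ∀ n, n₁ ≤ n → Fc t fun F => In F (nm F x) (nm F (V m n)) := by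
            intro n hn
            induction n, hn using Nat.le_induction with
            | base => exact h2
            | succ n _ ih' => exact fun F hF => (hmono m n).mono htq F hF _ (ih' F hF)
          refine ⟨t, ht.trans hs, max n₀ n₁, fun z hz n hn => ?_⟩
          rcases List.mem_cons.1 hz with h4 | h4
          · rw [h4]
            exact h3 n (le_trans (le_max_right _ _) hn)
          · exact (h1 z h4 n (le_trans (le_max_left _ _) hn)).mono ht
      obtain ⟨s₃, hs₃, n₀, h3⟩ := hlist L hL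
      have hs₃q : s₃ ≤ q := hs₃.trans hs₂q
      obtain ⟨N, hN0⟩ : ∃ N : ℕ, N = max (max (m + 1) (k + 1)) n₀ := ⟨_, rfl⟩
      have hex : Fc s₃ fun F : GG P => ∃ x, In F x (nm F A) ∧ In F (nm F (on N)) x := by
        intro F hF
        have h4 := hA'.mono hs₃q F hF
        beta_reduce at h4
        exact h4 (nm F (on N)) (nat_mem N F)
      obtain ⟨a', ha'⟩ := Fc.name (q := s₃) (A := fun F x => In F x (nm F A) ∧
          In F (nm F (on N)) x)
        (fun _ => (RpP.mem _ _).and (RpP.mem _ _)) hex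
      obtain ⟨s₄, hs₄, n, hn⟩ := fc_nat (a := a') (q := s₃)
        (fun F hF => hA.mono hs₃q F hF _ (ha' F hF).1)
      have hN : N < n := by
        obtain ⟨F, hF⟩ := exists_gg s₄
        have h4 := (ha'.mono hs₄ F hF).2
        have h5 := hn F hF
        beta_reduce at h5
        rw [h5] at h4
        exact nat_lt.1 h4
      refine ⟨s₄, hs₄.trans (hs₃.trans (hs₂.trans hs₁)), a', fun F hF => ?_⟩
      have e1 := hm.mono (hs₄.trans (hs₃.trans hs₂)) F hF
      have e2 := hk.mono (hs₄.trans hs₃) F hF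
      have e3 := hn F hF
      beta_reduce at e1 e2 e3
      refine ⟨⟨(ha'.mono hs₄ F hF).1, ?_⟩, ?_, fun z hz => ?_⟩
      · rw [e1, e3]
        exact nat_lt.2 (by omega)
      · rw [ev_on e1, e2, e3]
        exact nat_lt.2 (by omega)
      · rw [blk_on e1 e3]
        exact (h3 z hz n (by omega)).mono hs₄ F hF
  -- the point
  have hy : Fc q fun F => ∃ y, In F y (nm F Y) ∧ ¬ In F y (nm F (blk V a a')) := by
    refine Fc.dense (RpP.ex fun y => (RpP.mem _ _).and (RpP.mem _ _).not) fun r hr => ?_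
    obtain ⟨s₁, hs₁, m, hm⟩ := fc_nat (a := a) (q := r)
      (fun F hF => hA.mono hr F hF _ (ha.mono hr F hF))
    obtain ⟨s₂, hs₂, n, hn⟩ := fc_nat (a := a') (q := s₁)
      (fun F hF => hA.mono (hs₁.trans hr) F hF _ (ha'.mono (hs₁.trans hr) F hF).1.1)
    refine ⟨s₂, hs₂.trans hs₁, fun F hF => ?_⟩
    have hq : s₂ ≤ q := hs₂.trans (hs₁.trans hr)
    have e1 := hm.mono hs₂ F hF
    have e2 := hn F hF
    have e3 := ha.mono hq F hF
    beta_reduce at e1 e2 e3 ⊢
    rw [blk_on e1 e2]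
    rw [e1] at e3
    have h1 := (hpr m n).mono hq F hF e3
    by_contra hcon
    push Not at hcon
    exact h1 (ext_nm fun z => ⟨(hsub m n).mono hq F hF z, hcon z⟩)
  obtain ⟨y, hy⟩ := Fc.name (A := fun F y => In F y (nm F Y) ∧ ¬ In F y (nm F (blk V a a')))
    (fun y => (RpP.mem _ _).and (RpP.mem _ _).not) hy
  exact ⟨a', y, fun F hF => (ha' F hF).1.1, fun F hF => (ha' F hF).1.2,
    fun F hF => (ha' F hF).2.1, fun z hz F hF => (ha' F hF).2.2 z hz,
    fun F hF => (hy F hF).1, fun F hF => (hy F hF).2⟩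

/-- module BLK.  Here `V m n` is increasing in `n`, and every point is in some `V m n`; `A` is an
infinite set of natural numbers `m` such that `V m n` is never all of `Y`.
Recursion on `j` at the fixed condition `q`: names `α j` and `y j` with `α j ∈ A`,
`y j ∈ Y` and `y j ∉ blk V (α j) (α (j + 1))`.  Given `α j` and `y l` for `l < j`, the name
`α (j + 1)` exists by `fc_mix` for the statement `Φ a`: `a ∈ A`, `α j ∈ a`, `ev h (α j) ∈ a`
and `y l ∈ blk V (α j) a` for all `l < j` (`RpP.allFin` or a list; congruence by `ev_congr`):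
below any `r ≤ q` decide `α j = on m`, `ev h (α j) = on k` and numbers `n l` with
`y l ∈ V m (n l)`, let `N` be the maximum, and name and decide an element `a = on n` of `A` above
`N`; by monotonicity `y l ∈ V m n` (`blk_on`).  Then `y j` exists by `Fc.name`, since
`blk V (α j) (α (j + 1)) ≠ Y` is a subset of `Y` (`Fc.dense`, decide both numbers).
Blocks are different: `y i ∈ blk V (α j) (α (j + 1))` for `i < j`, but not for `j = i`. -/
theorem exists_blocks {Y A : BSet (RO P)} {V : ℕ → ℕ → BSet (RO P)} {h : ℕ → BSet (RO P)} {q : P}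
    (hsub : ∀ m n, Fc q fun F => Sub (In F) (nm F (V m n)) (nm F Y))
    (hmono : ∀ m n, Fc q fun F => Sub (In F) (nm F (V m n)) (nm F (V m (n + 1))))
    (hcov : ∀ m, ∀ r ≤ q, ∀ y, (Fc r fun F => In F (nm F y) (nm F Y)) →
      ∃ s ≤ r, ∃ n, Fc s fun F => In F (nm F y) (nm F (V m n)))
    (hA : Fc q fun F => Sub (In F) (nm F A) (nm F (onT ℕ)))
    (hA' : Fc q fun F => ∀ n, In F n (nm F (onT ℕ)) → ∃ a, In F a (nm F A) ∧ In F n a)
    (hpr : ∀ m n, Fc q fun F => In F (nm F (on m)) (nm F A) → nm F (V m n) ≠ nm F Y)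
    (hh : ∀ m, Fc q fun F => In F (nm F (h m)) (nm F (onT ℕ))) :
    ∃ α : ℕ → BSet (RO P), (∀ j, Fc q fun F => In F (nm F (α j)) (nm F A)) ∧
      (∀ j, Fc q fun F => In F (nm F (α j)) (nm F (α (j + 1)))) ∧
      (∀ j, Fc q fun F => In F (nm F (ev h (α j))) (nm F (α (j + 1)))) ∧
      (∀ j, Fc q fun F => nm F (blk V (α j) (α (j + 1))) ≠ nm F Y) ∧
      ∀ i j, i < j → Fc q fun F =>
        nm F (blk V (α i) (α (i + 1))) ≠ nm F (blk V (α j) (α (j + 1))) := by
  -- the states of the recursion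
  let S : Type 1 := {x : BSet (RO P) × List (BSet (RO P)) //
    (Fc q fun F => In F (nm F x.1) (nm F A)) ∧
    ∀ y ∈ x.2, Fc q fun F => In F (nm F y) (nm F Y)}
  have hstep : ∀ x : S, ∃ a' y : BSet (RO P), (Fc q fun F => In F (nm F a') (nm F A)) ∧
      (Fc q fun F => In F (nm F x.1.1) (nm F a')) ∧
      (Fc q fun F => In F (nm F (ev h x.1.1)) (nm F a')) ∧
      (∀ z ∈ x.1.2, Fc q fun F => In F (nm F z) (nm F (blk V x.1.1 a'))) ∧
      (Fc q fun F => In F (nm F y) (nm F Y)) ∧
      Fc q fun F => ¬ In F (nm F y) (nm F (blk V x.1.1 a')) := fun x =>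
    blocks_step hsub hmono hcov hA hA' hpr hh x.1.1 x.2.1 x.1.2 x.2.2
  choose na ny h1 h2 h3 h4 h5 h6 using hstep
  let nx : S → S := fun x => ⟨(na x, ny x :: x.1.2), h1 x, fun y hy => by
    rcases List.mem_cons.1 hy with e | e
    · rw [e]; exact h5 x
    · exact x.2.2 y e⟩
  obtain ⟨a₀, ha₀⟩ := Fc.name (q := q) (A := fun F x => In F x (nm F A))
    (fun _ => RpP.mem _ _) (fun F hF => by
      obtain ⟨a, ha, _⟩ := hA' F hF _ (nat_mem 0 F)
      exact ⟨a, ha⟩)
  let x₀ : S := ⟨(a₀, []), ha₀, fun y hy => by simp at hy⟩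
  let σ : ℕ → S := fun j => Nat.rec x₀ (fun _ x => nx x) j
  have hσ : ∀ j, σ (j + 1) = nx (σ j) := fun _ => rfl
  have hσ1 : ∀ j, (σ (j + 1)).1.1 = na (σ j) := fun _ => rfl
  have hσ2 : ∀ j, (σ (j + 1)).1.2 = ny (σ j) :: (σ j).1.2 := fun _ => rfl
  have hmem : ∀ i j, i < j → ny (σ i) ∈ (σ j).1.2 := by
    intro i j hij
    induction j, hij using Nat.le_induction with
    | base => rw [hσ2]; exact List.mem_cons_self
    | succ j _ ih => rw [hσ2]; exact List.mem_cons_of_mem _ ih
  refine ⟨fun j => (σ j).1.1, fun j => (σ j).2.1, fun j => ?_, fun j => ?_, fun j => ?_,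
    fun i j hij => ?_⟩
  · have := h2 (σ j)
    rwa [← hσ1] at this
  · have := h3 (σ j)
    rwa [← hσ1] at this
  · intro F hF heq
    have e1 := h6 (σ j) F hF
    have e2 := h5 (σ j) F hF
    beta_reduce at e1 e2 heq
    rw [← hσ1, heq] at e1
    exact e1 e2
  · intro F hF heq
    have e1 := h6 (σ i) F hF
    have e2 := h4 (σ j) _ (hmem i j hij) F hF
    beta_reduce at e1 e2 heq
    rw [← hσ1] at e1 e2
    rw [heq] at e1
    exact e1 e2

end Pool.Agent.IN45
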