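import Pool.Agent.IN45.KeyU
import Pool.Agent.IN45.Blk
import Pool.Agent.IN45.Tbl

/-!
# Blocks in the bounded case (module BDD)
-/

namespace Pool.Agent.IN45

open Classical Set Pool.Agent Pool.Agent.LadderTree Pool.Agent.Forcing Pool.Agent.MAx
open Pool.Agent.BVM (BSet UF eqv memv chk Congr le_of_uf Disc OPair FunOn op on onT)
open Pool.Agent.OG45 Pool.Agent.SP45

variable {P : Type} [Preorder P]

/-- monotone sequences of names -/
theorem sub_le {G : ℕ → BSet (RO P)} {q : P}
    (hmono : ∀ m, Fc q fun F => Sub (In F) (nm F (G m)) (nm F (G (m + 1)))) {m n : ℕ}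
    (hmn : m ≤ n) : Fc q fun F => Sub (In F) (nm F (G m)) (nm F (G n)) := by
  induction n, hmn using Nat.le_induction with
  | base => exact fun F _ x hx => hx
  | succ n _ ih => exact fun F hF x hx => hmono n F hF x (ih F hF x hx)

/-- antitone sequences of names -/
theorem sub_ge {G : ℕ → BSet (RO P)} {q : P}
    (hanti : ∀ m, Fc q fun F => Sub (In F) (nm F (G (m + 1))) (nm F (G m))) {m n : ℕ}
    (hmn : m ≤ n) : Fc q fun F => Sub (In F) (nm F (G n)) (nm F (G m)) := by
  induction n, hmn using Nat.le_induction with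
  | base => exact fun F _ x hx => hx
  | succ n _ ih => exact fun F hF x hx => ih F hF x (hanti n F hF x hx)

/-- the name of the set of all natural numbers `≥ N` -/
noncomputable def tailN (P : Type) [Preorder P] (N : ℕ) : BSet (RO P) :=
  chk fun k : {k : ℕ // N ≤ k} => (on k.1 : BSet (RO P))

theorem tailN_sub (N : ℕ) (F : GG P) : Sub (In F) (nm F (tailN P N)) (nm F (onT ℕ)) := by
  intro x hx
  rw [tailN] at hx
  exact all_chk (b := (⊤ : RO P)) (x := fun k : {k : ℕ // N ≤ k} => (on k.1 : BSet (RO P)))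
    (A := fun F x => In F x (nm F (onT ℕ))) (fun x => RpP.mem x _)
    (fun F k => nat_mem k.1 F) F x hx

theorem on_tailN {N m : ℕ} {F : GG P} :
    In F (nm F (on m)) (nm F (tailN P N)) ↔ N ≤ m := by
  constructor
  · intro h
    by_contra hcon
    rw [tailN] at h
    refine all_chk (b := (⊤ : RO P)) (x := fun k : {k : ℕ // N ≤ k} => (on k.1 : BSet (RO P)))
      (A := fun F x => x ≠ nm F (on m))
      (fun x => (RpP.eq x _).not) (fun F k => ?_) F _ h rfl
    beta_reduce
    rw [Ne, nat_inj]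
    rintro rfl
    exact hcon k.2
  · intro h
    exact In_chk (fun k : {k : ℕ // N ≤ k} => (on k.1 : BSet (RO P))) ⟨m, h⟩ F

/-- module BDD: blocks `[α j, α (j + 1))` and a set of indices which splits.
Case 1: for all `r ≤ q` and `N` some `s ≤ r` and `n` have `G N n = Y` forced by `s`.  Then there are
names `α j` with `α 0 = on 0`, `α j ∈ α (j + 1)` and `blk G (α j) (α (j + 1)) = Y` (recursion and
`fc_mix`; `G` is increasing in the second argument); let `J j` be `tv (Even j)`, or
`if Even j then ⊤ else ⊥`.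
Case 2: otherwise there are `r ≤ q` and `N` such that `r` forces `G N n ≠ Y` for all `n`
(`Fc.not`), and then `G m n ≠ Y` for all `m ≥ N` (`G` is decreasing in the first argument).  Let
`A` be the set of all `a ∈ ω` with `¬ a ∈ on N`.  `exists_blocks` for `G`, `A` and `h` gives `α`.
The sets `V j = blk G (α j) (α (j + 1))` are open, different, different from `Y`,
and every `y` is in almost all of them: if `y ∈ ev (G i) (h i)` for `i ≥ N'` is forced
by `t`, and `j ≥ N'`, decide `α j = on i` with `i ≥ j` (`le_alpha`), `h i = on k` with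
`k < α (j + 1) = on n`; then `y ∈ G i k ⊆ G i n`.  Apply `exists_index`. -/
theorem exists_alpha {Y D : BSet (RO P)} {G : ℕ → ℕ → BSet (RO P)} {h : ℕ → BSet (RO P)} {q : P}
    (hS : Fc q fun F => Split (In F) (nm F (onT ℕ)) (nm F Y) (nm F D))
    (hop : ∀ i m, Fc q fun F => SP45.IsOpen (In F) (nm F Y) (nm F D) (nm F (G i m)))
    (hmono : ∀ i m, Fc q fun F => Sub (In F) (nm F (G i m)) (nm F (G i (m + 1))))
    (hanti : ∀ i m, Fc q fun F => Sub (In F) (nm F (G (i + 1) m)) (nm F (G i m)))
    (hcov : ∀ i, ∀ r ≤ q, ∀ y, (Fc r fun F => In F (nm F y) (nm F Y)) →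
      ∃ s ≤ r, ∃ m, Fc s fun F => In F (nm F y) (nm F (G i m)))
    (hh : ∀ i, Fc q fun F => In F (nm F (h i)) (nm F (onT ℕ)))
    (hh' : ∀ s ≤ q, ∀ y, (Fc s fun F => In F (nm F y) (nm F Y)) → ∃ t ≤ s, ∃ N : ℕ, ∀ i ≥ N,
        Fc t fun F => In F (nm F y) (nm F (ev (G i) (h i)))) :
    ∃ r ≤ q, ∃ α : ℕ → BSet (RO P), ∃ J : ℕ → RO P,
      (∀ j, Fc r fun F => In F (nm F (α j)) (nm F (onT ℕ))) ∧
      (∀ j, Fc r fun F => In F (nm F (α j)) (nm F (α (j + 1)))) ∧
      (∀ s ≤ r, ∀ y, (Fc s fun F => In F (nm F y) (nm F Y)) →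
        Inf s fun j F => F.1.U (J j) ∧ In F (nm F y) (nm F (blk G (α j) (α (j + 1))))) ∧
      ∀ s ≤ r, ∀ y, (Fc s fun F => In F (nm F y) (nm F Y)) →
        Inf s fun j F => ¬ F.1.U (J j) ∧ In F (nm F y) (nm F (blk G (α j) (α (j + 1)))) := by
  by_cases hcase : ∀ r ≤ q, ∀ N, ∃ s ≤ r, ∃ n, Fc s fun F => nm F (G N n) = nm F Y
  · -- the first case
    have step : ∀ a : BSet (RO P), (Fc q fun F => In F (nm F a) (nm F (onT ℕ))) →
        ∃ a' : BSet (RO P), Fc q fun F => In F (nm F a') (nm F (onT ℕ)) ∧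
          In F (nm F a) (nm F a') ∧ nm F (blk G a a') = nm F Y := by
      intro a ha
      refine fc_mix (Φ := fun a' F => In F (nm F a') (nm F (onT ℕ)) ∧
          In F (nm F a) (nm F a') ∧ nm F (blk G a a') = nm F Y)
        (fun a' => (RpP.mem _ _).and ((RpP.mem _ _).and (RpP.eq _ _))) ?_ ?_
      · intro a1 a2 F he h
        have e2 : nm F (blk G a a1) = nm F (blk G a a2) := blk_congr_right F he
        rw [he, e2] at h
        exact h
      · intro r hr
        obtain ⟨s, hs, m, hm⟩ := fc_nat (ha.mono hr)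
        obtain ⟨t, ht, n, hn⟩ := hcase s (hs.trans hr) m
        refine ⟨t, ht.trans hs, on (max n (m + 1)), fun F hF => ?_⟩
        have hm' : nm F a = nm F (on m) := hm.mono ht F hF
        have hn' : nm F (G m n) = nm F Y := hn F hF
        have htq : t ≤ q := ht.trans (hs.trans hr)
        refine ⟨nat_mem _ F, ?_, ?_⟩
        · rw [hm', nat_lt]
          exact lt_of_lt_of_le (Nat.lt_succ_self m) (le_max_right _ _)
        · rw [blk_on hm' rfl]
          refine ext_nm fun z => ⟨fun hz => ((hop m _).mono htq F hF).1 z hz, fun hz => ?_⟩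
          refine (sub_le (hmono m) (le_max_left n (m + 1))).mono htq F hF z ?_
          rw [hn']
          exact hz
    choose! nx hnx using step
    obtain ⟨α, hα0, hαs⟩ : ∃ α : ℕ → BSet (RO P), α 0 = on 0 ∧ ∀ j, α (j + 1) = nx (α j) :=
      ⟨fun j => Nat.rec (on 0) (fun _ a => nx a) j, rfl, fun j => rfl⟩
    have hα : ∀ j, Fc q fun F => In F (nm F (α j)) (nm F (onT ℕ)) := by
      intro j
      induction j with
      | zero =>
        rw [hα0]
        exact fun F _ => nat_mem 0 F
      | succ j ih =>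
        rw [hαs]
        exact fun F hF => (hnx (α j) ih F hF).1
    refine ⟨q, le_rfl, α, fun j => if Even j then ⊤ else ⊥, hα, fun j F hF => ?_, ?_, ?_⟩
    · show In F (nm F (α j)) (nm F (α (j + 1)))
      rw [hαs]
      exact (hnx (α j) (hα j) F hF).2.1
    · intro s hs y hy r hr N
      refine ⟨r, le_rfl, 2 * N, by omega, fun F hF => ?_⟩
      beta_reduce
      rw [if_pos (even_two_mul N)]
      refine ⟨F.1.top, ?_⟩
      rw [hαs, (hnx (α (2 * N)) (hα (2 * N)) F (F.1.mono (pt_mono (hr.trans hs)) hF)).2.2]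
      exact hy.mono hr F hF
    · intro s hs y hy r hr N
      refine ⟨r, le_rfl, 2 * N + 1, by omega, fun F hF => ?_⟩
      beta_reduce
      rw [if_neg (by simp [Nat.even_add_one])]
      refine ⟨F.1.bot, ?_⟩
      rw [hαs (2 * N + 1), (hnx (α (2 * N + 1)) (hα (2 * N + 1)) F (F.1.mono (pt_mono (hr.trans hs)) hF)).2.2]
      exact hy.mono hr F hF
  · -- the second case
    push Not at hcase
    obtain ⟨r, hr, N, hN⟩ := hcase
    have hpr : ∀ m ≥ N, ∀ n, Fc r fun F => nm F (G m n) ≠ nm F Y := by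
      intro m hm n F hF heq
      have h1 : Fc r fun F => ¬ nm F (G N n) = nm F Y :=
        Fc.not (RpP.eq _ _) fun s hs => hN s hs n
      refine h1 F hF (ext_nm fun z => ⟨fun hz => ((hop N n).mono hr F hF).1 z hz, fun hz => ?_⟩)
      refine (sub_ge (G := fun i => G i n) (fun i => hanti i n) hm).mono hr F hF z ?_
      beta_reduce
      rw [heq]
      exact hz
    have hA : Fc r fun F => Sub (In F) (nm F (tailN P N)) (nm F (onT ℕ)) :=
      fun F _ => tailN_sub N F
    have hA' : Fc r fun F => ∀ n, In F n (nm F (onT ℕ)) →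
        ∃ a, In F a (nm F (tailN P N)) ∧ In F n a := by
      intro F hF n hn
      refine all_chk (b := (⊤ : RO P)) (A := fun F n => ∃ a, In F a (nm F (tailN P N)) ∧ In F n a)
        (fun n => RpP.ex fun a => (RpP.mem _ _).and (RpP.mem _ _)) (fun F k => ?_) F n hn
      exact ⟨nm F (on (max N (k + 1))), on_tailN.2 (le_max_left _ _),
        nat_lt.2 (lt_of_lt_of_le (Nat.lt_succ_self k) (le_max_right _ _))⟩
    obtain ⟨α, hα1, hα2, hα3, hα4, hα5⟩ := exists_blocks (Y := Y) (A := tailN P N) (V := G)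
      (h := h) (q := r) (fun m n F hF => ((hop m n).mono hr F hF).1)
      (fun m n => (hmono m n).mono hr) (fun m s hs y hy => hcov m s (hs.trans hr) y hy) hA hA'
      (fun m n F hF hm => hpr m (on_tailN.1 hm) n F hF) (fun m => (hh m).mono hr)
    have hαn : ∀ j, Fc r fun F => In F (nm F (α j)) (nm F (onT ℕ)) :=
      fun j F hF => tailN_sub N F _ (hα1 j F hF)
    have hop' : ∀ j, Fc r fun F => SP45.IsOpen (In F) (nm F Y) (nm F D)
        (nm F (blk G (α j) (α (j + 1)))) := by
      intro j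
      refine Fc.dense (rpIsOpen _ _ _) fun s hs => ?_
      obtain ⟨t, ht, m, hm⟩ := fc_nat ((hαn j).mono hs)
      obtain ⟨u, hu, n, hn⟩ := fc_nat ((hαn (j + 1)).mono (ht.trans hs))
      refine ⟨u, hu.trans ht, fun F hF => ?_⟩
      have hm' : nm F (α j) = nm F (on m) := hm.mono hu F hF
      have hn' : nm F (α (j + 1)) = nm F (on n) := hn F hF
      beta_reduce
      rw [blk_on hm' hn']
      exact (hop m n).mono (hu.trans (ht.trans (hs.trans hr))) F hF
    have hinf : ∀ s ≤ r, ∀ y, (Fc s fun F => In F (nm F y) (nm F Y)) →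
        Inf s fun j F => In F (nm F y) (nm F (blk G (α j) (α (j + 1)))) := by
      intro s hs y hy s' hs' N'
      obtain ⟨t, ht, N'', hN''⟩ := hh' s' (hs'.trans (hs.trans hr)) y (hy.mono hs')
      have htr : t ≤ r := ht.trans (hs'.trans hs)
      obtain ⟨t1, ht1, i, hi⟩ := fc_nat ((hαn (max N' N'')).mono htr)
      obtain ⟨t2, ht2, n, hn⟩ := fc_nat ((hαn (max N' N'' + 1)).mono (ht1.trans htr))
      obtain ⟨t3, ht3, k, hk⟩ := fc_nat ((hh i).mono (ht2.trans (ht1.trans (htr.trans hr))))
      have hji : max N' N'' ≤ i := le_alpha hαn hα2 (ht1.trans htr) hi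
      refine ⟨t3, ht3.trans (ht2.trans (ht1.trans ht)), max N' N'', le_max_left _ _,
        fun F hF => ?_⟩
      have e1 : nm F (α (max N' N'')) = nm F (on i) := hi.mono (ht3.trans ht2) F hF
      have e2 : nm F (α (max N' N'' + 1)) = nm F (on n) := hn.mono ht3 F hF
      have e3 : nm F (h i) = nm F (on k) := hk F hF
      have h3 := hα3 (max N' N'') F (F.1.mono (pt_mono (ht3.trans (ht2.trans (ht1.trans htr)))) hF)
      beta_reduce at h3 ⊢
      rw [ev_on e1, e3, e2, nat_lt] at h3
      have h4 := (hN'' i ((le_max_right N' N'').trans hji)).mono (ht3.trans (ht2.trans ht1)) F hF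
      beta_reduce at h4
      rw [ev_on e3] at h4
      rw [blk_on e1 e2]
      exact (sub_le (hmono i) h3.le).mono (ht3.trans (ht2.trans (ht1.trans (htr.trans hr)))) F hF
        _ h4
    obtain ⟨J, hJ1, hJ2⟩ := exists_index (V := fun j => blk G (α j) (α (j + 1))) (hS.mono hr)
      hop' hα5 hα4 hinf
    exact ⟨r, hr, α, J, hαn, hα2, hJ1, hJ2⟩


end Pool.Agent.IN45
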