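import Mathlib

/-!
# Counting (module CNT)

`E n m` stands for `y ∈ E^n_m` and `O k` for `y ∈ O_k`.
-/

namespace Pool.Agent.IN45

/-- Let `k j` increase, and for each `j ≤ 3 i` let there be `n` with `E n (k j + 1)` and
`¬ E n (k j - 1)`.  Then `E i (k (3 i) + 1)`.
Proof.  Let `ψ n` be the least `m` with `E n m` (`⊤` if there is none).  `ψ n + 3 ≤ ψ (n + 1)` by
`hstep`, so `ψ` is strictly increasing.  For `j ≤ 3 i` let `n j` be as in the hypothesis; then
`k j ≤ ψ (n j) ≤ k j + 1`.  So `ψ (n (j + 2)) ≥ k (j + 2) ≥ k j + 2 > ψ (n j)`, hence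
`n (j + 2) > n j`, and `n (2 i) ≥ i`.  So `ψ i ≤ ψ (n (2 i)) ≤ k (2 i) + 1 ≤ k (3 i) + 1`. -/
theorem count_blocks {E : ℕ → ℕ → Prop} (hmono : ∀ n m, E n m → E n (m + 1))
    (hstep : ∀ n m, E (n + 1) m → 3 ≤ m ∧ E n (m - 3)) {i : ℕ} {k : ℕ → ℕ}
    (hk : ∀ j < 3 * i, k j < k (j + 1))
    (h : ∀ j ≤ 3 * i, ∃ n, E n (k j + 1) ∧ ¬ E n (k j - 1)) : E i (k (3 * i) + 1) := by
  have hmono' : ∀ n m m', m ≤ m' → E n m → E n m' := by
    intro n m m' hm hE
    induction m', hm using Nat.le_induction with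
    | base => exact hE
    | succ m' _ ih => exact hmono n m' ih
  have hdown : ∀ n n' m, n' ≤ n → E n m → E n' m := by
    intro n n' m hn hE
    induction n, hn using Nat.le_induction with
    | base => exact hE
    | succ n _ ih =>
      have h1 := hstep n m hE
      exact ih (hmono' n (m - 3) m (Nat.sub_le _ _) h1.2)
  have hk' : ∀ a b, a ≤ b → b ≤ 3 * i → k a ≤ k b := by
    intro a b hab
    induction b, hab using Nat.le_induction with
    | base => intro _; exact le_rfl
    | succ b _ ih =>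
      intro hb
      have h1 := ih (by omega)
      have h2 := hk b (by omega)
      omega
  have key : ∀ i', i' ≤ i → ∀ n, E n (k (2 * i') + 1) → ¬ E n (k (2 * i') - 1) → i' ≤ n := by
    intro i'
    induction i' with
    | zero => intro _ n _ _; exact Nat.zero_le n
    | succ i' ih =>
      intro hi n h1 h2
      obtain ⟨n0, h3, h4⟩ := h (2 * i') (by omega)
      have h5 := ih (by omega) n0 h3 h4
      have h6 : n0 < n := by
        by_contra hc
        push Not at hc
        apply h2
        have h7 : E n (k (2 * i') + 1) := hdown n0 n _ hc h3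
        have h8 := hk (2 * i') (by omega)
        have h9 := hk (2 * i' + 1) (by omega)
        have h10 : 2 * (i' + 1) = 2 * i' + 1 + 1 := by ring
        rw [h10]
        exact hmono' n _ _ (by omega) h7
      omega
  obtain ⟨n, h1, h2⟩ := h (2 * i) (by omega)
  have h3 := key i le_rfl n h1 h2
  have h4 := hdown n i _ h3 h1
  have h5 := hk' (2 * i) (3 * i) (by omega) le_rfl
  exact hmono' i _ _ (by omega) h4

/-- for each `n` with some `E n m`, there is `k ≥ 3 n` with `E n (k + 1)` and `¬ E n k`; here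
`E n m` implies `3 n < m` -/
theorem exists_block {E : ℕ → ℕ → Prop} (h0 : ∀ m, E 0 m → 0 < m)
    (hstep : ∀ n m, E (n + 1) m → 3 ≤ m ∧ E n (m - 3)) {n : ℕ} (h : ∃ m, E n m) :
    ∃ k, 3 * n ≤ k ∧ E n (k + 1) ∧ ¬ E n k := by
  classical
  have hlt : ∀ n m, E n m → 3 * n < m := by
    intro n
    induction n with
    | zero => intro m hm; simpa using h0 m hm
    | succ n ih =>
      intro m hm
      have h1 := hstep n m hm
      have h2 := ih _ h1.2
      omega
  have h1 := Nat.find_spec h
  have h2 := hlt n _ h1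
  refine ⟨Nat.find h - 1, by omega, ?_, ?_⟩
  · rw [Nat.sub_add_cancel (by omega)]; exact h1
  · exact Nat.find_min h (by omega)

end Pool.Agent.IN45
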