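import Pool.Agent.IN45.Gdf

/-!
# The compactness argument (module CPT)
-/

namespace Pool.Agent.IN45

open Classical Set Pool.Agent Pool.Agent.LadderTree Pool.Agent.Forcing Pool.Agent.MAx
open Pool.Agent.BVM (BSet UF eqv memv chk Congr le_of_uf Disc OPair FunOn op on onT)
open Pool.Agent.OG45 Pool.Agent.SP45

variable {P : Type} [Preorder P]

/-- module CPT: for each `y` and `i` there is `m` with `y ∈ G i m`.
At every `F ∋ r` let `𝒞` be the set of all `U ∈ A` such that there are `n ∈ ω` with `¬ n ∈ i`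
(that is `i ≤ n`), `S` with `Rel (seqN W) n S`, and `V ∈ B` with `y ∈ V` and `(x', y') ∈ S` for
all `x' ∈ U` and `y' ∈ V`.  It is a cover of `X`: let `r' ≤ r` force `x ∈ X`; the pair
`z = (x, y)` is in some `W n` with `n ≥ i` (`hinf`), which is open in `Z`.  As in `isOpen_G` take
a finite subcover, decide the list `l` of its elements, and for each `u ∈ l` decide a number
`n u ≥ i`, which is the name `on n` of a standard number (`fc_nat`; induction on the list).  Let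
`m` be larger than all of them. -/
theorem cover_G {X A Y B Z D : BSet (RO P)} {W : ℕ → BSet (RO P)} {q : P}
    (hX : Fc q fun F => Space (In F) (nm F (onT ℕ)) (nm F X) (nm F A))
    (hc : Fc q fun F => Compact (In F) (nm F (onT ℕ)) (nm F X) (nm F A))
    (hZ : Fc q fun F => ProdSpace (In F) (nm F Z) (nm F D) (nm F X) (nm F A) (nm F Y) (nm F B))
    (hW : ∀ n, Fc q fun F => SP45.IsOpen (In F) (nm F Z) (nm F D) (nm F (W n)))
    (hinf : ∀ r ≤ q, ∀ z, (Fc r fun F => In F (nm F z) (nm F Z)) →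
        Inf r fun n F => In F (nm F z) (nm F (W n)))
    {G : ℕ → ℕ → BSet (RO P)} (hG : ∀ i m (F : GG P) y, In F y (nm F (G i m)) ↔
      (In F y (nm F Y) ∧ ∀ x, In F x (nm F X) → ∃ j < m, i ≤ j ∧ InR (In F) (nm F (W j)) x y))
    {r : P} (hr : r ≤ q) {y : BSet (RO P)} (hy : Fc r fun F => In F (nm F y) (nm F Y)) (i : ℕ) :
    ∃ s ≤ r, ∃ m, Fc s fun F => In F (nm F y) (nm F (G i m)) := by
  have hRp0 : ∀ U : BSet (RO P), RpP fun F : GG P => ∃ n S, In F n (nm F (onT ℕ)) ∧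
      ¬ In F n (nm F (on i)) ∧ BVM.Rel (In F) (nm F (seqN W)) n S ∧
      ∀ x', In F x' (nm F U) → InR (In F) S x' (nm F y) := by
    intro U
    repeat' (first
      | exact RpP.mem _ _ | exact RpP.rel _ _ _ | exact rpInR _ _ _
      | refine RpP.and ?_ ?_ | refine RpP.ex fun _ => ?_ | refine RpP.all fun _ => ?_
      | refine RpP.not ?_ | refine RpP.imp ?_ ?_)
  obtain ⟨C, hC⟩ := exists_sep A (P := fun (F : GG P) U => ∃ n S, In F n (nm F (onT ℕ)) ∧
      ¬ In F n (nm F (on i)) ∧ BVM.Rel (In F) (nm F (seqN W)) n S ∧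
      ∀ x', In F x' U → InR (In F) S x' (nm F y)) hRp0
  have hRp1 : ∀ x : BSet (RO P), RpP fun F : GG P => ∃ U, In F U (nm F C) ∧ In F (nm F x) U :=
    fun x => RpP.ex fun U => (RpP.mem _ _).and (RpP.mem _ _)
  -- `C` covers `X`
  have hcover : Fc r fun F => ∀ x, In F x (nm F X) → ∃ U, In F U (nm F C) ∧ In F x U := by
    refine Fc.all fun x => Fc.imp (RpP.mem _ _) (hRp1 x) fun r1 hr1 hx => ?_
    refine Fc.dense (hRp1 x) fun r2 hr2 => ?_
    have hr2q : r2 ≤ q := hr2.trans (hr1.trans hr)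
    have hzZ : Fc r2 fun F => In F (nm F (op x y)) (nm F Z) := by
      intro F hF
      have h1 := (hZ.mono hr2q F hF).1
      exact (h1 _).2 ⟨nm F x, nm F y, hx.mono hr2 F hF, hy.mono (hr2.trans hr1) F hF,
        OPair_nm.2 rfl⟩
    obtain ⟨s, hs, n, hn, hsn⟩ := hinf r2 hr2q (op x y) hzZ r2 le_rfl i
    refine ⟨s, hs, fun F hF => ?_⟩
    obtain ⟨_, hop⟩ := (hW n).mono (hs.trans hr2q) F hF
    obtain ⟨S, hSD, hzS, hSW⟩ := hop _ (hsn F hF)
    have hprod := (hZ.mono (hs.trans hr2q) F hF).2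
    obtain ⟨U, V, hU, hV, hUV⟩ := (hprod S).1 hSD
    obtain ⟨x1, y1, hx1, hy1, ho⟩ := (hUV _).1 hzS
    have ho' : OPair (In F) (nm F (op x y)) (nm F x) (nm F y) := OPair_nm.2 rfl
    obtain ⟨e1, e2⟩ := ho.inj ho'
    rw [e1] at hx1
    rw [e2] at hy1
    refine ⟨U, (hC F U).2 ⟨hU, nm F (on n), nm F (W n), nat_mem n F, ?_, rel_seqN.2 rfl,
      fun x' hx' => ?_⟩, hx1⟩
    · rw [nat_lt]
      exact not_lt.2 hn
    · obtain ⟨x'', rfl⟩ := exists_nm x'
      exact ⟨nm F (op x'' y), OPair_nm.2 rfl,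
        hSW _ ((hUV _).2 ⟨nm F x'', nm F y, hx', hy1, OPair_nm.2 rfl⟩)⟩
  -- a finite subcover
  have hfin : Fc r fun F => ∃ f, OG45.Finite (In F) (nm F (onT ℕ)) f ∧ Sub (In F) f (nm F C) ∧
      ∀ x, In F x (nm F X) → ∃ U, In F U f ∧ In F x U := by
    intro F hF
    refine hc.mono hr F hF (nm F C) (fun U hU => ?_) (hcover F hF)
    have hUA : In F U (nm F A) := ((hC F U).1 hU).1
    exact ⟨(hX.mono hr F hF).sub U hUA, fun x hx => ⟨U, hUA, hx, fun _ h => h⟩⟩
  obtain ⟨f, hf⟩ := Fc.name (A := fun F f => OG45.Finite (In F) (nm F (onT ℕ)) f ∧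
      Sub (In F) f (nm F C) ∧ ∀ x, In F x (nm F X) → ∃ U, In F U f ∧ In F x U) (fun f =>
      (rpFinite _ _).and ((rpSub _ _).and (RpP.all fun x => (RpP.mem _ _).imp
        (RpP.ex fun U => (RpP.mem _ _).and (RpP.mem _ _))))) hfin
  obtain ⟨r', hr', l, hl⟩ := exists_list (f := f) (q := r) fun F hF => (hf F hF).1
  -- the numbers
  have key : ∀ l' : List (BSet (RO P)), (∀ u ∈ l', u ∈ l) → ∃ s ≤ r', ∃ m, ∀ u ∈ l',
      Fc s fun F => ∃ j < m, i ≤ j ∧ ∀ x', In F x' (nm F u) →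
        InR (In F) (nm F (W j)) x' (nm F y) := by
    intro l'
    induction l' with
    | nil => exact fun _ => ⟨r', le_rfl, 0, fun u hu => absurd hu (List.not_mem_nil)⟩
    | cons u l' ih =>
      intro hsub
      obtain ⟨s, hs, m, hm⟩ := ih fun u hu => hsub u (List.mem_cons_of_mem _ hu)
      have hu : Fc s fun F => ∃ n, In F n (nm F (onT ℕ)) ∧ ∃ S,
          ¬ In F n (nm F (on i)) ∧ BVM.Rel (In F) (nm F (seqN W)) n S ∧
          ∀ x', In F x' (nm F u) → InR (In F) S x' (nm F y) := by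
        intro F hF
        have h1 : In F (nm F u) (nm F f) :=
          (hl.mono hs F hF (nm F u)).2 ⟨u, hsub u List.mem_cons_self, rfl⟩
        obtain ⟨_, n, S, h2, h3, h4, h5⟩ := (hC F _).1 ((hf.mono (hs.trans hr') F hF).2.1 _ h1)
        exact ⟨n, h2, S, h3, h4, h5⟩
      obtain ⟨a, ha⟩ := Fc.name (A := fun F n => In F n (nm F (onT ℕ)) ∧ ∃ S,
          ¬ In F n (nm F (on i)) ∧ BVM.Rel (In F) (nm F (seqN W)) n S ∧
          ∀ x', In F x' (nm F u) → InR (In F) S x' (nm F y)) (fun n => by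
        repeat' (first
          | exact RpP.mem _ _ | exact RpP.rel _ _ _ | exact rpInR _ _ _
          | refine RpP.and ?_ ?_ | refine RpP.ex fun _ => ?_ | refine RpP.all fun _ => ?_
          | refine RpP.not ?_ | refine RpP.imp ?_ ?_)) hu
      obtain ⟨t, ht, k, hk⟩ := fc_nat (a := a) (q := s) fun F hF => (ha F hF).1
      refine ⟨t, ht.trans hs, max m (k + 1), fun v hv => ?_⟩
      rcases List.mem_cons.1 hv with h1 | h1
      · intro F hF
        obtain ⟨_, S, h2, h3, h4⟩ := ha.mono ht F hF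
        have e : nm F a = nm F (on k) := hk F hF
        rw [e] at h2 h3
        rw [nat_lt, not_lt] at h2
        rw [rel_seqN] at h3
        rw [h1]
        rw [h3] at h4
        exact ⟨k, lt_of_lt_of_le (Nat.lt_succ_self k) (le_max_right _ _), h2, h4⟩
      · intro F hF
        obtain ⟨j, hj, h2, h3⟩ := (hm v h1).mono ht F hF
        exact ⟨j, lt_of_lt_of_le hj (le_max_left _ _), h2, h3⟩
  obtain ⟨s, hs, m, hm⟩ := key l fun _ h => h
  refine ⟨s, hs.trans hr', m, fun F hF => ?_⟩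
  refine (hG i m F _).2 ⟨hy.mono (hs.trans hr') F hF, fun x hx => ?_⟩
  obtain ⟨U, hU, hxU⟩ := (hf.mono (hs.trans hr') F hF).2.2 x hx
  obtain ⟨u, hu, e⟩ := (hl.mono hs F hF U).1 hU
  obtain ⟨j, hj, h2, h3⟩ := hm u hu F hF
  rw [e] at hxU
  exact ⟨j, hj, h2, h3 x hxU⟩

end Pool.Agent.IN45
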