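import Pool.Agent.IN45.Names

/-!
# Enumeration of a countable base by names (module ENU)

`CardLE D ω` says that some function `f` maps a subset of `ω` onto `D`.  Take a name `f` (by
`Fc.name`), and for each standard `j` a name `β j` such that either `β j ∈ D` and `f(j) = β j`, or
`j` is not in the domain of the part of `f` with values in `D` and `β j = ∅ = on 0` (use
`exists_name`/`Fc.name`).  If `U ∈ D` is forced by `r`, some `x ∈ ω` has `Rel f x U`; take a name
for `x`, decide it to be `on j` (`fc_nat`); then `U = β j` by uniqueness of the values of `f`.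
-/

namespace Pool.Agent.IN45

open Classical Set Pool.Agent Pool.Agent.LadderTree Pool.Agent.Forcing Pool.Agent.MAx
open Pool.Agent.BVM (BSet UF eqv memv chk Congr le_of_uf Disc OPair FunOn op on onT)
open Pool.Agent.OG45 Pool.Agent.SP45

variable {P : Type} [Preorder P]

/-- the names `β j` enumerate the family `D` below `q` (some of them may be names of the empty
set) -/
structure Enum (q : P) (D : BSet (RO P)) (β : ℕ → BSet (RO P)) : Prop where
  mem : ∀ j, Fc q fun F => In F (nm F (β j)) (nm F D) ∨ ∀ x, ¬ In F x (nm F (β j))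
  all : ∀ r ≤ q, ∀ U, (Fc r fun F => In F (nm F U) (nm F D)) →
    ∃ s ≤ r, ∃ j, Fc s fun F => nm F U = nm F (β j)

theorem Enum.mono {q r : P} {D : BSet (RO P)} {β : ℕ → BSet (RO P)} (h : Enum q D β)
    (hr : r ≤ q) : Enum r D β :=
  ⟨fun j => (h.mem j).mono hr, fun s hs U hU => h.all s (hs.trans hr) U hU⟩

theorem exists_enum {D : BSet (RO P)} {q : P}
    (h : Fc q fun F => BVM.CardLE (In F) (nm F D) (nm F (onT ℕ))) :
    ∃ β, Enum q D β := by
  have hRp : ∀ f : BSet (RO P), RpP fun F : GG P =>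
      (∀ x y y', BVM.Rel (In F) (nm F f) x y → BVM.Rel (In F) (nm F f) x y' → y' = y) ∧
      ∀ y, In F y (nm F D) → ∃ x, In F x (nm F (onT ℕ)) ∧ BVM.Rel (In F) (nm F f) x y := by
    intro f
    repeat' (first
      | exact RpP.rel _ _ _ | exact RpP.mem _ _ | exact RpP.eq _ _ | refine RpP.and ?_ ?_
      | refine RpP.ex fun _ => ?_ | refine RpP.all fun _ => ?_
      | refine RpP.imp ?_ ?_)
  obtain ⟨f, hf⟩ := Fc.name (q := q) (A := fun F f =>
    (∀ x y y', BVM.Rel (In F) f x y → BVM.Rel (In F) f x y' → y' = y) ∧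
      ∀ y, In F y (nm F D) → ∃ x, In F x (nm F (onT ℕ)) ∧ BVM.Rel (In F) f x y) hRp h
  have hRv : ∀ (j : ℕ) (v : BSet (RO P)), RpP fun F : GG P =>
      In F (nm F v) (nm F D) ∧ BVM.Rel (In F) (nm F f) (nm F (on j)) (nm F v) := fun j v =>
    (RpP.mem _ _).and (RpP.rel _ _ _)
  have hex : ∀ j : ℕ, ∃ v : BSet (RO P), ∀ F : GG P,
      (In F (nm F v) (nm F D) ∧ BVM.Rel (In F) (nm F f) (nm F (on j)) (nm F v)) ∨
      ((¬ ∃ v', In F v' (nm F D) ∧ BVM.Rel (In F) (nm F f) (nm F (on j)) v') ∧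
        nm F v = nm F (on 0)) := fun j =>
    exists_name (b := (⊤ : RO P)) (P := fun F v =>
      (In F v (nm F D) ∧ BVM.Rel (In F) (nm F f) (nm F (on j)) v) ∨
      ((¬ ∃ v', In F v' (nm F D) ∧ BVM.Rel (In F) (nm F f) (nm F (on j)) v') ∧
        v = nm F (on 0)))
      (fun v => (hRv j v).or ((RpP.ex (P := fun F v' => In F v' (nm F D) ∧
        BVM.Rel (In F) (nm F f) (nm F (on j)) v') (hRv j)).not.and (RpP.eq _ _)))
      (fun F => by
        by_cases h : ∃ v', In F v' (nm F D) ∧ BVM.Rel (In F) (nm F f) (nm F (on j)) v'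
        · obtain ⟨v', hv'⟩ := h
          exact ⟨v', Or.inl hv'⟩
        · exact ⟨_, Or.inr ⟨h, rfl⟩⟩)
  choose β hβ using hex
  refine ⟨β, ⟨fun j F _ => ?_, fun r hr U hU => ?_⟩⟩
  · rcases hβ j F with h1 | h1
    · exact Or.inl h1.1
    · refine Or.inr fun x hx => ?_
      rw [h1.2] at hx
      obtain ⟨i, hi, _⟩ := mem_on hx
      exact absurd hi (Nat.not_lt_zero i)
  · have hx0 : Fc r fun F => ∃ x, In F x (nm F (onT ℕ)) ∧ BVM.Rel (In F) (nm F f) x (nm F U) :=
      fun F hF => (hf.mono hr F hF).2 _ (hU F hF)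
    obtain ⟨x, hx⟩ := Fc.name (A := fun F x => In F x (nm F (onT ℕ)) ∧
      BVM.Rel (In F) (nm F f) x (nm F U)) (fun _ => (RpP.mem _ _).and (RpP.rel _ _ _)) hx0
    obtain ⟨s, hs, j, hj⟩ := fc_nat (a := x) (q := r) (fun F hF => (hx F hF).1)
    refine ⟨s, hs, j, fun F hF => ?_⟩
    have hx' := hx.mono hs F hF
    have hj' := hj F hF
    have hU' := hU.mono hs F hF
    have hf' := hf.mono (hs.trans hr) F hF
    beta_reduce at hx' hj' hU' hf' ⊢
    rw [hj'] at hx'
    rcases hβ j F with h1 | h1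
    · exact hf'.1 _ _ _ h1.2 hx'.2
    · exact absurd ⟨_, hU', hx'.2⟩ h1.1

/-- the base of a product: `δ (pair i j)` is the name of the product of `α i` and `β j`
(`MAx.prodN`, `MAx.In_prodN`) if both are members of the bases, and of the empty set
otherwise -/
theorem enum_prod {X A Y B Z D : BSet (RO P)} {α β : ℕ → BSet (RO P)} {q : P}
    (hZ : Fc q fun F => ProdSpace (In F) (nm F Z) (nm F D) (nm F X) (nm F A) (nm F Y) (nm F B))
    (hA : Enum q A α) (hB : Enum q B β) : ∃ δ, Enum q D δ := by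
  have hR : ∀ i j, RpP fun F : GG P => In F (nm F (α i)) (nm F A) ∧ In F (nm F (β j)) (nm F B) :=
    fun i j => (RpP.mem _ _).and (RpP.mem _ _)
  have hex : ∀ n : ℕ, ∃ v : BSet (RO P), ∀ F : GG P,
      ((In F (nm F (α n.unpair.1)) (nm F A) ∧ In F (nm F (β n.unpair.2)) (nm F B)) ∧
        nm F v = nm F (prodN (α n.unpair.1) (β n.unpair.2))) ∨
      (¬ (In F (nm F (α n.unpair.1)) (nm F A) ∧ In F (nm F (β n.unpair.2)) (nm F B)) ∧
        nm F v = nm F (on 0)) := fun n =>
    exists_name (b := (⊤ : RO P)) (P := fun F v =>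
      ((In F (nm F (α n.unpair.1)) (nm F A) ∧ In F (nm F (β n.unpair.2)) (nm F B)) ∧
        v = nm F (prodN (α n.unpair.1) (β n.unpair.2))) ∨
      (¬ (In F (nm F (α n.unpair.1)) (nm F A) ∧ In F (nm F (β n.unpair.2)) (nm F B)) ∧
        v = nm F (on 0)))
      (fun v => ((hR _ _).and (RpP.eq _ _)).or ((hR _ _).not.and (RpP.eq _ _)))
      (fun F => by
        by_cases h : In F (nm F (α n.unpair.1)) (nm F A) ∧ In F (nm F (β n.unpair.2)) (nm F B)
        · exact ⟨_, Or.inl ⟨h, rfl⟩⟩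
        · exact ⟨_, Or.inr ⟨h, rfl⟩⟩)
  choose δ hδ using hex
  refine ⟨δ, ⟨fun n F hF => ?_, fun r hr W hW => ?_⟩⟩
  · rcases hδ n F with h1 | h1
    · left
      rw [h1.2]
      exact ((hZ F hF).2 _).2 ⟨_, _, h1.1.1, h1.1.2, fun p => In_prodN _ _ F p⟩
    · refine Or.inr fun x hx => ?_
      rw [h1.2] at hx
      obtain ⟨i, hi, _⟩ := mem_on hx
      exact absurd hi (Nat.not_lt_zero i)
  · have hRP : ∀ U V : BSet (RO P), RpP fun F : GG P => In F (nm F U) (nm F A) ∧
        In F (nm F V) (nm F B) ∧ IsProd (In F) (nm F W) (nm F U) (nm F V) := fun U V =>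
      (RpP.mem _ _).and ((RpP.mem _ _).and (RpP.all fun _ => (RpP.mem _ _).iff
        (RpP.ex fun _ => RpP.ex fun _ => (RpP.mem _ _).and ((RpP.mem _ _).and
          (RpP.opair _ _ _)))))
    have h0 : Fc r fun F => ∃ U V, In F U (nm F A) ∧ In F V (nm F B) ∧
        IsProd (In F) (nm F W) U V := fun F hF => ((hZ.mono hr F hF).2 _).1 (hW F hF)
    obtain ⟨U, hU⟩ := Fc.name (A := fun F U => ∃ V, In F U (nm F A) ∧ In F V (nm F B) ∧
        IsProd (In F) (nm F W) U V) (fun U => RpP.ex (P := fun F V => In F (nm F U) (nm F A) ∧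
        In F V (nm F B) ∧ IsProd (In F) (nm F W) (nm F U) V) (hRP U)) h0
    obtain ⟨V, hV⟩ := Fc.name (A := fun F V => In F (nm F U) (nm F A) ∧ In F V (nm F B) ∧
        IsProd (In F) (nm F W) (nm F U) V) (hRP U) hU
    obtain ⟨s, hs, i, hi⟩ := hA.all r hr U (fun F hF => (hV F hF).1)
    obtain ⟨t, ht, j, hj⟩ := hB.all s (hs.trans hr) V (fun F hF => (hV.mono hs F hF).2.1)
    refine ⟨t, ht.trans hs, Nat.pair i j, fun F hF => ?_⟩
    have hV' := hV.mono (ht.trans hs) F hF
    have hi' := hi.mono ht F hF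
    have hj' := hj F hF
    beta_reduce at hV' hi' hj' ⊢
    obtain ⟨h1, h2, h3⟩ := hV'
    rw [hi'] at h1 h3
    rw [hj'] at h2 h3
    have h4 := hδ (Nat.pair i j) F
    rw [Nat.unpair_pair] at h4
    rcases h4 with h4 | h4
    · rw [h4.2]
      refine ext_nm fun z => ?_
      rw [In_prodN]
      exact h3 z
    · exact absurd ⟨h1, h2⟩ h4.1

end Pool.Agent.IN45
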