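import Pool.Agent.IN45.Enum

/-!
# The sets `G(i, m)` (module GDF)

`Z = X × Y` and `W n` (`n = 0, 1, …`) are names of open subsets of `Z`.
-/

namespace Pool.Agent.IN45

open Classical Set Pool.Agent Pool.Agent.LadderTree Pool.Agent.Forcing Pool.Agent.MAx
open Pool.Agent.BVM (BSet UF eqv memv chk Congr le_of_uf Disc OPair FunOn op on onT)
open Pool.Agent.OG45 Pool.Agent.SP45

variable {P : Type} [Preorder P]

/-- `{x} × ...`: the pair `(x, y)` is in `W` -/
def InR {M : Type*} (E : M → M → Prop) (W x y : M) : Prop := ∃ z, OPair E z x y ∧ E z W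

theorem rpInR (W x y : BSet (RO P)) :
    RpP fun F : GG P => InR (In F) (nm F W) (nm F x) (nm F y) :=
  RpP.ex fun z => (RpP.opair z x y).and (RpP.mem z W)

/-- module GDF: the names `G i m = {y ∈ Y : ∀ x ∈ X, ∃ j, i ≤ j < m, (x, y) ∈ W j}`
(`exists_sep` and `RpP.exFin`) -/
theorem exists_G (X Y : BSet (RO P)) (W : ℕ → BSet (RO P)) :
    ∃ G : ℕ → ℕ → BSet (RO P), ∀ i m (F : GG P) y, In F y (nm F (G i m)) ↔
      (In F y (nm F Y) ∧ ∀ x, In F x (nm F X) → ∃ j < m, i ≤ j ∧ InR (In F) (nm F (W j)) x y) := by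
  have h : ∀ i m : ℕ, ∃ G : BSet (RO P), ∀ (F : GG P) (y : Md F), In F y (nm F G) ↔
      (In F y (nm F Y) ∧ ∀ x, In F x (nm F X) → ∃ j < m, i ≤ j ∧ InR (In F) (nm F (W j)) x y) := by
    intro i m
    exact exists_sep Y (P := fun (F : GG P) y => ∀ x, In F x (nm F X) →
      ∃ j < m, i ≤ j ∧ InR (In F) (nm F (W j)) x y) (fun y => RpP.all fun x =>
        (RpP.mem _ _).imp (RpP.exFin (fun j => (RpP.const (i ≤ j)).and (rpInR _ _ _)) m))
  choose G hG using h
  exact ⟨G, fun i m F y => hG i m F y⟩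

end Pool.Agent.IN45
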