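import Pool.Agent.IN45.KeyU
import Pool.Agent.IN45.Cnt

/-!
# From the bound to a sequence (module HSQ)
-/

namespace Pool.Agent.IN45

open Classical Set Pool.Agent Pool.Agent.LadderTree Pool.Agent.Forcing Pool.Agent.MAx
open Pool.Agent.BVM (BSet UF eqv memv chk Congr le_of_uf Disc OPair FunOn op on onT)
open Pool.Agent.OG45 Pool.Agent.SP45

variable {P : Type} [Preorder P]

/-- one step of the recursion in `exists_h` -/
theorem hsq_step {γ : ℕ → BSet (RO P)} {r : P}
    (hγ : ∀ n, Fc r fun F => In F (nm F (γ n)) (nm F (onT ℕ))) (a : BSet (RO P))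
    (ha : Fc r fun F => In F (nm F a) (nm F (onT ℕ))) :
    ∃ a' : BSet (RO P), Fc r fun F => In F (nm F a') (nm F (onT ℕ)) ∧
      In F (nm F a) (nm F a') ∧ In F (nm F (ev γ a)) (nm F a') := by
  refine fc_mix (Φ := fun a' F => In F (nm F a') (nm F (onT ℕ)) ∧
      In F (nm F a) (nm F a') ∧ In F (nm F (ev γ a)) (nm F a'))
    (fun a' => (RpP.mem _ _).and ((RpP.mem _ _).and (RpP.mem _ _))) ?_ ?_
  · intro a1 a2 F h12 h
    rw [h12] at h
    exact h
  · intro s hs
    obtain ⟨u, hu, m, hm⟩ := fc_nat (ha.mono hs)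
    obtain ⟨v, hv, k, hk⟩ := fc_nat ((hγ m).mono (hu.trans hs))
    refine ⟨v, hv.trans hu, on (max m k + 1), fun F hF => ?_⟩
    have h1 : nm F a = nm F (on m) := hm.mono hv F hF
    have h2 : nm F (γ m) = nm F (on k) := hk F hF
    refine ⟨nat_mem _ F, ?_, ?_⟩
    · rw [h1, nat_lt]
      omega
    · rw [ev_on h1, h2, nat_lt]
      omega

/-- the sequence of the recursion in `exists_h` -/
theorem hsq_seq {γ : ℕ → BSet (RO P)} {r : P}
    (hγ : ∀ n, Fc r fun F => In F (nm F (γ n)) (nm F (onT ℕ))) :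
    ∃ c : ℕ → BSet (RO P), (∀ j, Fc r fun F => In F (nm F (c j)) (nm F (onT ℕ))) ∧
      (∀ j, Fc r fun F => In F (nm F (c j)) (nm F (c (j + 1)))) ∧
      ∀ j, Fc r fun F => In F (nm F (ev γ (c j))) (nm F (c (j + 1))) := by
  choose g hg using fun a : {a : BSet (RO P) // Fc r fun F => In F (nm F a) (nm F (onT ℕ))} =>
    hsq_step hγ a.1 a.2
  let c : ℕ → {a : BSet (RO P) // Fc r fun F => In F (nm F a) (nm F (onT ℕ))} := fun n =>
    Nat.rec ⟨on 0, fun F _ => nat_mem 0 F⟩ (fun _ a => ⟨g a, fun F hF => (hg a F hF).1⟩) n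
  have hc : ∀ j, (c (j + 1)).1 = g (c j) := fun _ => rfl
  refine ⟨fun j => (c j).1, fun j => (c j).2, fun j F hF => ?_, fun j F hF => ?_⟩
  · beta_reduce
    rw [hc]
    exact (hg (c j) F hF).2.1
  · beta_reduce
    rw [hc]
    exact (hg (c j) F hF).2.2

/-- finitely many names of natural numbers are decided -/
theorem hsq_decide {c : ℕ → BSet (RO P)} {t : P}
    (hc : ∀ j, Fc t fun F => In F (nm F (c j)) (nm F (onT ℕ))) (n : ℕ) :
    ∃ u ≤ t, ∃ d : ℕ → ℕ, ∀ j < n, Fc u fun F => nm F (c j) = nm F (on (d j)) := by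
  induction n with
  | zero => exact ⟨t, le_rfl, id, fun j hj => absurd hj (Nat.not_lt_zero j)⟩
  | succ n ih =>
    obtain ⟨u, hu, d, hd⟩ := ih
    obtain ⟨v, hv, m, hm⟩ := fc_nat ((hc n).mono hu)
    refine ⟨v, hv.trans hu, fun j => if j = n then m else d j, fun j hj => ?_⟩
    by_cases h : j = n
    · subst h
      simpa using hm
    · simp only [if_neg h]
      exact (hd j (by omega)).mono hv

/-- module HSQ: a sequence `h` with `y ∈ E i (h i)` for almost all `i`.
Names `c j` of natural numbers with `c 0 = on 0`, `c j ∈ c (j + 1)` and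
`ev γ (c j) ∈ c (j + 1)` (recursion at `r`; `fc_mix` or `Fc.name`).  Let `h i = c (4 i + 1)`.
Let `s ≤ r` force `y ∈ Y`, and `t`, `N` as in `Bdd`.  Let `i ≥ N`; we show `y ∈ ev (E i) (h i)`
by `Fc.dense` at `t`.  Below any condition decide `c j = on (d j)` for `j ≤ 4 i + 1` and then,
one after the other for `j ≤ 3 i`, numbers `k j` with `d (N + j) ≤ k j < d (N + j + 1)` and
`y ∈ O (k j)`: `N ≤ d (N + j)`, so `Bdd` gives `k j ≥ d (N + j)` with
`k j ≤ γ (d (N + j)) < d (N + j + 1)`.  At an ultrafilter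
apply `count_blocks` to `E n m := (y ∈ E n m)`, so `y ∈ E i (k (3 i) + 1)`, and
`k (3 i) + 1 ≤ d (N + 3 i + 1) ≤ d (4 i + 1)`; `E i` is increasing. -/
theorem exists_h {Y : BSet (RO P)} {O γ : ℕ → BSet (RO P)} {E : ℕ → ℕ → BSet (RO P)} {r : P}
    (hγ : Bdd r Y O γ)
    (hmono : ∀ n m, Fc r fun F => Sub (In F) (nm F (E n m)) (nm F (E n (m + 1))))
    (hstep : ∀ n m, Fc r fun F => ∀ y, In F y (nm F (E (n + 1) m)) →
        3 ≤ m ∧ In F y (nm F (E n (m - 3))))
    (hO : ∀ k, Fc r fun F => ∀ y, In F y (nm F (O k)) →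
        ∃ n ≤ k, In F y (nm F (E n (k + 1))) ∧ ¬ In F y (nm F (E n (k - 1)))) :
    ∃ h : ℕ → BSet (RO P), (∀ i, Fc r fun F => In F (nm F (h i)) (nm F (onT ℕ))) ∧
      ∀ s ≤ r, ∀ y, (Fc s fun F => In F (nm F y) (nm F Y)) → ∃ t ≤ s, ∃ N : ℕ, ∀ i ≥ N,
        Fc t fun F => In F (nm F y) (nm F (ev (E i) (h i))) := by
  obtain ⟨c, hc1, hc2, hc3⟩ := hsq_seq hγ.1
  refine ⟨fun i => c (4 * i + 1), fun i => hc1 _, fun s hs y hy => ?_⟩
  obtain ⟨t, ht, N, hN⟩ := hγ.2 s hs y hy
  refine ⟨t, ht, N, fun i hi => ?_⟩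
  refine Fc.dense (RpP.mem _ _) fun t' ht' => ?_
  obtain ⟨u, hu, d, hd⟩ := hsq_decide (fun j => (hc1 j).mono (ht'.trans (ht.trans hs))) (4 * i + 2)
  have hur : u ≤ r := hu.trans (ht'.trans (ht.trans hs))
  have hd1 : ∀ j, j + 1 < 4 * i + 2 → d j < d (j + 1) := by
    intro j hj
    obtain ⟨F, hF⟩ := exists_gg u
    have h1 : nm F (c j) = nm F (on (d j)) := hd j (by omega) F hF
    have h2 : nm F (c (j + 1)) = nm F (on (d (j + 1))) := hd (j + 1) hj F hF
    have h3 := (hc2 j).mono hur F hF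
    beta_reduce at h3
    rw [h1, h2, nat_lt] at h3
    exact h3
  have hd2 : ∀ a b, a ≤ b → b < 4 * i + 2 → d a ≤ d b := by
    intro a b hab
    induction b, hab using Nat.le_induction with
    | base => intro _; exact le_rfl
    | succ b _ ih =>
      intro hb
      have h1 := ih (by omega)
      have h2 := hd1 b hb
      omega
  have hd3 : ∀ j, j < 4 * i + 2 → j ≤ d j := by
    intro j
    induction j with
    | zero => intro _; exact Nat.zero_le _
    | succ j ih =>
      intro hj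
      have h1 := ih (by omega)
      have h2 := hd1 j hj
      omega
  -- the numbers `k j`
  have hk : ∀ l ≤ 3 * i + 1, ∃ v ≤ u, ∃ k : ℕ → ℕ, ∀ j < l, d (N + j) ≤ k j ∧
      k j < d (N + j + 1) ∧ Fc v fun F => In F (nm F y) (nm F (O (k j))) := by
    intro l
    induction l with
    | zero => intro _; exact ⟨u, le_rfl, id, fun j hj => absurd hj (Nat.not_lt_zero j)⟩
    | succ l ih =>
      intro hl
      obtain ⟨v, hv, k, hk⟩ := ih (by omega)
      have h1 : N ≤ d (N + l) := (Nat.le_add_right N l).trans (hd3 _ (by omega))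
      obtain ⟨w, hw, m, hm, hwm⟩ := hN (d (N + l)) h1 v (hv.trans (hu.trans ht'))
      have hwr : w ≤ r := hw.trans (hv.trans hur)
      obtain ⟨x, hx, g, hg⟩ := fc_nat ((hγ.1 (d (N + l))).mono hwr)
      have h2 : m < d (N + l + 1) := by
        obtain ⟨F, hF⟩ := exists_gg x
        have h3 : nm F (γ (d (N + l))) = nm F (on g) := hg F hF
        have h4 := (hwm.mono hx F hF).1
        rw [h3, nat_lt] at h4
        have h5 : nm F (c (N + l)) = nm F (on (d (N + l))) :=
          (hd (N + l) (by omega)).mono (hx.trans (hw.trans hv)) F hF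
        have h6 : nm F (c (N + l + 1)) = nm F (on (d (N + l + 1))) :=
          (hd (N + l + 1) (by omega)).mono (hx.trans (hw.trans hv)) F hF
        have h7 := (hc3 (N + l)).mono (hx.trans hwr) F hF
        beta_reduce at h7
        rw [ev_on h5, h3, h6, nat_lt] at h7
        omega
      refine ⟨w, hw.trans hv, fun j => if j = l then m else k j, fun j hj => ?_⟩
      by_cases h : j = l
      · subst h
        simp only [if_true]
        exact ⟨hm, h2, fun F hF => (hwm F hF).2⟩
      · simp only [if_neg h]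
        obtain ⟨h8, h9, h10⟩ := hk j (by omega)
        exact ⟨h8, h9, h10.mono hw⟩
  obtain ⟨v, hv, k, hk⟩ := hk (3 * i + 1) le_rfl
  refine ⟨v, hv.trans hu, fun F hF => ?_⟩
  have hFr : F.1.U (pt r) := F.1.mono (pt_mono (hv.trans hur)) hF
  have hm' : ∀ n m, In F (nm F y) (nm F (E n m)) → In F (nm F y) (nm F (E n (m + 1))) :=
    fun n m h => hmono n m F hFr _ h
  have key := count_blocks (E := fun n m => In F (nm F y) (nm F (E n m))) hm'
    (fun n m h => hstep n m F hFr _ h) (i := i) (k := k)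
    (fun j hj => by
      have h1 := (hk j (by omega)).2.1
      have h2 := (hk (j + 1) (by omega)).1
      have h3 : N + (j + 1) = N + j + 1 := by ring
      rw [h3] at h2
      omega)
    (fun j hj => by
      obtain ⟨n, _, h1⟩ := hO (k j) F hFr _ ((hk j (by omega)).2.2 F hF)
      exact ⟨n, h1⟩)
  beta_reduce at key ⊢
  have h1 := (hk (3 * i) (by omega)).2.1
  have h2 : d (N + 3 * i + 1) ≤ d (4 * i + 1) := hd2 _ _ (by omega) (by omega)
  have h3 : nm F (c (4 * i + 1)) = nm F (on (d (4 * i + 1))) :=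
    (hd (4 * i + 1) (by omega)).mono hv F hF
  rw [ev_on h3]
  have h4 : ∀ a b, a ≤ b → In F (nm F y) (nm F (E i a)) → In F (nm F y) (nm F (E i b)) := by
    intro a b hab h
    induction b, hab using Nat.le_induction with
    | base => exact h
    | succ b _ ih => exact hm' i b ih
  exact h4 _ _ (by omega) key

end Pool.Agent.IN45
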