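import Pool.Agent.IN45.Spl

/-!
# The use of the principle (module KEY)

`O k` are names of open subsets of `Y`, and every point is in infinitely many of them.
-/

namespace Pool.Agent.IN45

open Classical Set Pool.Agent Pool.Agent.LadderTree Pool.Agent.Forcing Pool.Agent.MAx
open Pool.Agent.BVM (BSet UF eqv memv chk Congr le_of_uf Disc OPair FunOn op on onT)
open Pool.Agent.OG45 Pool.Agent.SP45

variable {P : Type} [Preorder P]

/-- `γ n` are names of natural numbers, and for each point `y`, for almost all `n` there is `m` with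
`n ≤ m ≤ γ n` and `y ∈ O m` -/
def Bdd (r : P) (Y : BSet (RO P)) (O γ : ℕ → BSet (RO P)) : Prop :=
  (∀ n, Fc r fun F => In F (nm F (γ n)) (nm F (onT ℕ))) ∧
  ∀ s ≤ r, ∀ y, (Fc s fun F => In F (nm F y) (nm F Y)) → ∃ t ≤ s, ∃ N : ℕ, ∀ n ≥ N, ∀ t' ≤ t,
    ∃ u ≤ t', ∃ m ≥ n, Fc u fun F => ¬ In F (nm F (γ n)) (nm F (on m)) ∧
      In F (nm F y) (nm F (O m))

/-- the family of all sets `z(y) = {k : y ∈ O k}` has a name -/
theorem exists_famZ (Y : BSet (RO P)) (O : ℕ → BSet (RO P)) : ∃ Z : BSet (RO P),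
    ∀ (F : GG P) (z : Md F), In F z (nm F Z) ↔ Sub (In F) z (nm F (onT ℕ)) ∧
      ∃ y, In F y (nm F Y) ∧ ∀ k, In F k (nm F (onT ℕ)) →
        (In F k z ↔ ∃ u, BVM.Rel (In F) (nm F (seqN O)) k u ∧ In F y u) := by
  obtain ⟨p, hp⟩ := exists_name (b := (⊤ : RO P))
    (P := fun F p => ∀ t, In F t p ↔ ∀ z, In F z t → In F z (nm F (onT ℕ)))
    (fun p => by
      repeat' (first
        | exact RpP.mem _ _ | refine RpP.all fun _ => ?_ | refine RpP.iff ?_ ?_
        | refine RpP.imp ?_ ?_))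
    (fun F => (BVM.zfc F.1).power (nm F (onT ℕ)))
  obtain ⟨Z, hZ⟩ := exists_sep (b := (⊤ : RO P)) p
    (P := fun F z => ∃ y, In F y (nm F Y) ∧ ∀ k, In F k (nm F (onT ℕ)) →
        (In F k z ↔ ∃ u, BVM.Rel (In F) (nm F (seqN O)) k u ∧ In F y u)) (fun y => by
      repeat' (first
        | exact RpP.mem _ _ | exact RpP.rel _ _ _ | refine RpP.and ?_ ?_
        | refine RpP.ex fun _ => ?_ | refine RpP.all fun _ => ?_ | refine RpP.iff ?_ ?_
        | refine RpP.imp ?_ ?_))
  refine ⟨Z, fun F z => ?_⟩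
  rw [hZ, hp]
  rfl

theorem sN_sub2 {F : GG P} {a : ℕ → RO P} {x : Md F} (h : In F x (nm F (MAx.sN a))) :
    In F x (nm F (onT ℕ)) := MAx.sN_sub h

/-- the name of the set `z(y)` -/
noncomputable def zN (O : ℕ → BSet (RO P)) (y : BSet (RO P)) : BSet (RO P) :=
  MAx.sN fun k => memv y (O k)

theorem zN_sub {F : GG P} {y : BSet (RO P)} {O : ℕ → BSet (RO P)} {x : Md F}
    (h : In F x (nm F (zN O y))) : In F x (nm F (onT ℕ)) := MAx.sN_sub h

theorem in_zN {F : GG P} {y : BSet (RO P)} {O : ℕ → BSet (RO P)} {n : ℕ} :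
    In F (nm F (on n)) (nm F (zN O y)) ↔ In F (nm F y) (nm F (O n)) := MAx.In_sN F _ n

theorem zN_iff (F : GG P) (y : BSet (RO P)) (O : ℕ → BSet (RO P)) (k : Md F)
    (hk : In F k (nm F (onT ℕ))) : In F k (nm F (zN O y)) ↔
      ∃ u, BVM.Rel (In F) (nm F (seqN O)) k u ∧ In F (nm F y) u := by
  refine om_all (b := (⊤ : RO P)) (RpP.const True)
        (P := fun F k => In F k (nm F (zN O y)) ↔
          ∃ u, BVM.Rel (In F) (nm F (seqN O)) k u ∧ In F (nm F y) u)
        (fun k => (RpP.mem _ _).iff (RpP.ex fun u => (RpP.rel _ _ _).and (RpP.mem _ _)))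
        (fun F _ n => ?_) F trivial k hk
  rw [in_zN]
  constructor
  · intro h
    exact ⟨_, rel_seqN.2 rfl, h⟩
  · rintro ⟨u, hu, h⟩
    rw [rel_seqN.1 hu] at h
    exact h

/-- the first alternative of the principle -/
def Alt1 (F : GG P) (Z g : Md F) : Prop := Fn (In F) g (nm F (onT ℕ)) (nm F (onT ℕ)) ∧
  ∀ z, In F z Z → ∃ k, In F k (nm F (onT ℕ)) ∧ ∀ n, In F n (nm F (onT ℕ)) → ¬ In F n k →
    ∃ m l, In F m z ∧ BVM.Rel (In F) g n l ∧ ¬ In F m n ∧ ¬ In F l m

/-- the second alternative of the principle -/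
def Alt2 (F : GG P) (Z A : Md F) : Prop := Sub (In F) A (nm F (onT ℕ)) ∧
  (∀ n, In F n (nm F (onT ℕ)) → ∃ a, In F a A ∧ In F n a) ∧
  ∀ T, Sub (In F) T (nm F (onT ℕ)) → Sat (In F) (nm F (onT ℕ)) A T →
    ∃ z, In F z Z ∧ ((∃ k, In F k (nm F (onT ℕ)) ∧ ∀ m, In F m z → ¬ In F m k → In F m T) ∨
      ∃ k, In F k (nm F (onT ℕ)) ∧ ∀ m, In F m z → ¬ In F m k → ¬ In F m T)

theorem rpAlt1 (Z g : BSet (RO P)) : RpP fun F : GG P => Alt1 F (nm F Z) (nm F g) := by
  unfold Alt1
  repeat' (first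
    | exact RpP.mem _ _ | exact RpP.rel _ _ _ | exact rpFn _ _ _ | refine RpP.and ?_ ?_
    | refine RpP.ex fun _ => ?_ | refine RpP.all fun _ => ?_ | refine RpP.not ?_
    | refine RpP.imp ?_ ?_)

theorem rpAlt2 (Z A : BSet (RO P)) : RpP fun F : GG P => Alt2 F (nm F Z) (nm F A) := by
  unfold Alt2
  repeat' (first
    | exact RpP.mem _ _ | exact rpSub _ _ | exact rpSat _ _ _ | refine RpP.and ?_ ?_
    | refine RpP.or ?_ ?_
    | refine RpP.ex fun _ => ?_ | refine RpP.all fun _ => ?_ | refine RpP.not ?_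
    | refine RpP.imp ?_ ?_)

/-- module KEY: the principle `Key` for the family `Z` of all sets `z(y) = {k : y ∈ O k}`.
The family has a name: separate, from the power set of `ω` (`BVM.exists_power`), the `z` such
that for some `y ∈ Y`, for all `k ∈ ω`: `k ∈ z` if and only if `y ∈ u` for the `u` with
`Rel (seqN O) k u`.  `fc_decide` (or `Fc.or`) decides which alternative holds.
First alternative: name `g` and names `γ n` with `Rel g n (γ n)`.  For `y ∈ Y` (below `s`) the set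
`z(y)` has the name `MAx.sN fun k => memv y (O k)`, it is in the family; name and decide the number
`k` of the principle: this is `N`.
Second alternative: name `A`; for given `T` with `Sat`, name `z`, then `y`, and decide the number
`k`; for standard `m` (with `m ∈ z ↔ y ∈ O m`) apply `MAx.In_sN`. -/
theorem key_use (hK : ∀ F : GG P, Key (In F) (nm F (onT ℕ))) {Y : BSet (RO P)}
    {O : ℕ → BSet (RO P)} (q : P) :
    ∃ r ≤ q, (∃ γ, Bdd r Y O γ) ∨ ∃ A : BSet (RO P),
      (Fc r fun F => Sub (In F) (nm F A) (nm F (onT ℕ))) ∧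
      (Fc r fun F => ∀ n, In F n (nm F (onT ℕ)) → ∃ a, In F a (nm F A) ∧ In F n a) ∧
      ∀ T : ℕ → RO P, (Fc r fun F => Sat (In F) (nm F (onT ℕ)) (nm F A) (nm F (MAx.sN T))) →
        ∃ s ≤ r, ∃ y, (Fc s fun F => In F (nm F y) (nm F Y)) ∧ ∃ N : ℕ,
          (∀ m ≥ N, Fc s fun F => In F (nm F y) (nm F (O m)) → F.1.U (T m)) ∨
          ∀ m ≥ N, Fc s fun F => In F (nm F y) (nm F (O m)) → ¬ F.1.U (T m) := by
  obtain ⟨Z, hZ⟩ := exists_famZ Y O
  obtain ⟨r, hr, h1 | h1⟩ := fc_decide (RpP.ex (P := fun F g => Alt1 F (nm F Z) g)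
    fun g => rpAlt1 Z g) q
  · -- first alternative
    refine ⟨r, hr, Or.inl ?_⟩
    obtain ⟨g, hg⟩ := Fc.name (fun g => rpAlt1 Z g) h1
    have h2 : ∀ n : ℕ, ∃ c : BSet (RO P), Fc r fun F =>
        BVM.Rel (In F) (nm F g) (nm F (on n)) (nm F c) := by
      intro n
      refine Fc.name (A := fun F c => BVM.Rel (In F) (nm F g) (nm F (on n)) c)
        (fun c => RpP.rel _ _ _) fun F hF => ?_
      obtain ⟨y, hy, -⟩ := (hg F hF).1.1.2 _ (nat_mem n F)
      exact ⟨y, hy⟩
    choose γ hγ using h2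
    refine ⟨γ, fun n F hF => (hg F hF).1.2 _ _ (hγ n F hF), fun s hs y hy => ?_⟩
    -- the set `z(y)`
    have hz : Fc s fun F => In F (nm F (zN O y)) (nm F Z) := by
      intro F hF
      exact (hZ F _).2 ⟨fun x hx => zN_sub hx, nm F y, hy F hF, fun k hk => zN_iff F y O k hk⟩
    have hk : Fc s fun F => ∃ k, In F k (nm F (onT ℕ)) ∧
        ∀ n, In F n (nm F (onT ℕ)) → ¬ In F n k →
          ∃ m l, In F m (nm F (zN O y)) ∧
            BVM.Rel (In F) (nm F g) n l ∧ ¬ In F m n ∧ ¬ In F l m := by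
      intro F hF
      exact (hg.mono hs F hF).2 _ (hz F hF)
    obtain ⟨k, hk⟩ := Fc.name (A := fun F k => In F k (nm F (onT ℕ)) ∧
        ∀ n, In F n (nm F (onT ℕ)) → ¬ In F n k →
          ∃ m l, In F m (nm F (zN O y)) ∧
            BVM.Rel (In F) (nm F g) n l ∧ ¬ In F m n ∧ ¬ In F l m) (fun k => by
      repeat' (first
        | exact RpP.mem _ _ | exact RpP.rel _ _ _ | refine RpP.and ?_ ?_
        | refine RpP.ex fun _ => ?_ | refine RpP.all fun _ => ?_ | refine RpP.not ?_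
        | refine RpP.imp ?_ ?_)) hk
    obtain ⟨t, ht, N, hN⟩ := fc_nat (a := k) (q := s) (fun F hF => (hk F hF).1)
    refine ⟨t, ht, N, fun n hn t' ht' => ?_⟩
    have h3 : Fc t' fun F => ∃ m, In F m (nm F (zN O y)) ∧
        ¬ In F m (nm F (on n)) ∧ ¬ In F (nm F (γ n)) m := by
      intro F hF
      have hk' := (hk.mono (ht'.trans ht) F hF).2
      have e : nm F k = nm F (on N) := hN.mono ht' F hF
      rw [e] at hk'
      obtain ⟨m, l, h4, h5, h6, h7⟩ := hk' _ (nat_mem n F) (fun h => by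
        rw [nat_lt] at h
        omega)
      have hg' := (hg.mono (ht'.trans (ht.trans hs)) F hF).1.1.2 _ (nat_mem n F)
      obtain ⟨w, hw, hw'⟩ := hg'
      have e1 := hw' _ h5
      have e2 := hw' _ ((hγ n).mono (ht'.trans (ht.trans hs)) F hF)
      refine ⟨m, h4, h6, ?_⟩
      rw [e2, ← e1]
      exact h7
    obtain ⟨m, hm⟩ := Fc.name (A := fun F m => In F m (nm F (zN O y)) ∧
        ¬ In F m (nm F (on n)) ∧ ¬ In F (nm F (γ n)) m)
      (fun m => (RpP.mem _ _).and ((RpP.mem _ _).not.and (RpP.mem _ _).not)) h3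
    obtain ⟨u, hu, m', hm'⟩ := fc_nat (a := m) (q := t') (fun F hF => zN_sub (hm F hF).1)
    have h8 : Fc u fun F => In F (nm F (on m')) (nm F (zN O y)) ∧
        ¬ In F (nm F (on m')) (nm F (on n)) ∧ ¬ In F (nm F (γ n)) (nm F (on m')) := by
      intro F hF
      have h9 := hm.mono hu F hF
      have e : nm F m = nm F (on m') := hm' F hF
      beta_reduce at h9
      rw [e] at h9
      exact h9
    refine ⟨u, hu, m', ?_, fun F hF => ⟨(h8 F hF).2.2, ?_⟩⟩
    · obtain ⟨F, hF⟩ := exists_gg u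
      by_contra hcon
      exact (h8 F hF).2.1 (nat_lt.2 (by omega))
    · exact in_zN.1 (h8 F hF).1
  · -- second alternative
    have h2 : Fc r fun F => ∃ A, Alt2 F (nm F Z) A := by
      intro F hF
      rcases hK F (nm F Z) (fun z hz => ((hZ F z).1 hz).1) with h3 | h3
      · exact absurd h3 (h1 F hF)
      · exact h3
    obtain ⟨A, hA⟩ := Fc.name (fun A => rpAlt2 Z A) h2
    refine ⟨r, hr, Or.inr ⟨A, fun F hF => (hA F hF).1, fun F hF => (hA F hF).2.1,
      fun T hT => ?_⟩⟩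
    obtain ⟨z, hz⟩ := Fc.name (q := r) (A := fun F z => In F z (nm F Z) ∧
      ((∃ k, In F k (nm F (onT ℕ)) ∧ ∀ m, In F m z → ¬ In F m k → In F m (nm F (MAx.sN T))) ∨
      ∃ k, In F k (nm F (onT ℕ)) ∧ ∀ m, In F m z → ¬ In F m k → ¬ In F m (nm F (MAx.sN T))))
      (fun z => by
        repeat' (first
          | exact RpP.mem _ _ | refine RpP.and ?_ ?_ | refine RpP.or ?_ ?_
          | refine RpP.ex fun _ => ?_ | refine RpP.all fun _ => ?_ | refine RpP.not ?_
          | refine RpP.imp ?_ ?_))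
      (fun F hF => (hA F hF).2.2 _ (fun x hx => sN_sub2 hx) (hT F hF))
    obtain ⟨y, hy⟩ := Fc.name (q := r) (A := fun F y => In F y (nm F Y) ∧
      ∀ k, In F k (nm F (onT ℕ)) →
        (In F k (nm F z) ↔ ∃ u, BVM.Rel (In F) (nm F (seqN O)) k u ∧ In F y u))
      (fun y => by
        repeat' (first
          | exact RpP.mem _ _ | exact RpP.rel _ _ _ | refine RpP.and ?_ ?_
          | refine RpP.ex fun _ => ?_ | refine RpP.all fun _ => ?_ | refine RpP.iff ?_ ?_
          | refine RpP.imp ?_ ?_))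
      (fun F hF => ((hZ F _).1 (hz F hF).1).2)
    have hO : ∀ m : ℕ, Fc r fun F => In F (nm F y) (nm F (O m)) →
        In F (nm F (on m)) (nm F z) := by
      intro m F hF h3
      exact ((hy F hF).2 _ (nat_mem m F)).2 ⟨_, rel_seqN.2 rfl, h3⟩
    obtain ⟨s, hs, h3⟩ := Fc.or (q := r)
      (A := fun F => ∃ k, In F k (nm F (onT ℕ)) ∧
        ∀ m, In F m (nm F z) → ¬ In F m k → In F m (nm F (MAx.sN T)))
      (B := fun F => ∃ k, In F k (nm F (onT ℕ)) ∧
        ∀ m, In F m (nm F z) → ¬ In F m k → ¬ In F m (nm F (MAx.sN T)))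
      (by
        repeat' (first
          | exact RpP.mem _ _ | refine RpP.and ?_ ?_
          | refine RpP.ex fun _ => ?_ | refine RpP.all fun _ => ?_ | refine RpP.not ?_
          | refine RpP.imp ?_ ?_)) (fun F hF => (hz F hF).2)
    rcases h3 with h3 | h3
    · obtain ⟨k, hk⟩ := Fc.name (A := fun F k => In F k (nm F (onT ℕ)) ∧
        ∀ m, In F m (nm F z) → ¬ In F m k → In F m (nm F (MAx.sN T))) (fun k => by
        repeat' (first
          | exact RpP.mem _ _ | refine RpP.and ?_ ?_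
          | refine RpP.ex fun _ => ?_ | refine RpP.all fun _ => ?_ | refine RpP.not ?_
          | refine RpP.imp ?_ ?_)) h3
      obtain ⟨t, ht, N, hN⟩ := fc_nat (a := k) (q := s) (fun F hF => (hk F hF).1)
      refine ⟨t, ht.trans hs, y, fun F hF => (hy.mono (ht.trans hs) F hF).1, N,
        Or.inl fun m hm F hF h4 => ?_⟩
      have h5 := (hO m).mono (ht.trans hs) F hF h4
      have hk' := (hk.mono ht F hF).2 _ h5
      have e : nm F k = nm F (on N) := hN F hF
      rw [e] at hk'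
      exact (In_sN F T m).1 (hk' fun h => by
        rw [nat_lt] at h
        omega)
    · obtain ⟨k, hk⟩ := Fc.name (A := fun F k => In F k (nm F (onT ℕ)) ∧
        ∀ m, In F m (nm F z) → ¬ In F m k → ¬ In F m (nm F (MAx.sN T))) (fun k => by
        repeat' (first
          | exact RpP.mem _ _ | refine RpP.and ?_ ?_
          | refine RpP.ex fun _ => ?_ | refine RpP.all fun _ => ?_ | refine RpP.not ?_
          | refine RpP.imp ?_ ?_)) h3
      obtain ⟨t, ht, N, hN⟩ := fc_nat (a := k) (q := s) (fun F hF => (hk F hF).1)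
      refine ⟨t, ht.trans hs, y, fun F hF => (hy.mono (ht.trans hs) F hF).1, N,
        Or.inr fun m hm F hF h4 => ?_⟩
      have h5 := (hO m).mono (ht.trans hs) F hF h4
      have hk' := (hk.mono ht F hF).2 _ h5
      have e : nm F k = nm F (on N) := hN F hF
      rw [e] at hk'
      exact fun h6 => hk' (fun h => by
        rw [nat_lt] at h
        omega) ((In_sN F T m).2 h6)

end Pool.Agent.IN45
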