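import Pool.Agent.IN45.Names

/-!
# Large covers from sequences (module LRG)

`famJ V J` is the family of all `V n` with `n ∈ J`.
Open cover: members are open (`fc_famJ`: a name `U` of a member is decided to be `V n`, use
`Fc.all`, `Fc.imp`, `Fc.dense`); every point is in a member, by `hinf` for `N = 0` (`in_famJ`);
the whole space is not a member (`fc_famJ` and `hpr`).
No finite set contains all members to which `z` belongs: suppose `r` forces that the finite set
`f` does (`Fc.name` for `f`).  By `exists_list`, below some `s ≤ r` the elements of `f` are the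
classes of a list `l` of names.  By `Inf.many` with `k = l.length + 1` there are a condition
`t ≤ s` and `k` indices `e i` such that `t` forces `e i ∈ J` and `z ∈ V (e i)`.  Take an
ultrafilter `F ∋ t` (`exists_gg`): the map `i ↦` (some index of an entry of `l` with class
`nm F (V (e i))`) is injective by `hne`; pigeonhole.
-/

namespace Pool.Agent.IN45

open Classical Set Pool.Agent Pool.Agent.LadderTree Pool.Agent.Forcing Pool.Agent.MAx
open Pool.Agent.BVM (BSet UF eqv memv chk Congr le_of_uf Disc OPair FunOn op on onT)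
open Pool.Agent.OG45 Pool.Agent.SP45

variable {P : Type} [Preorder P]

theorem large_famJ {Z D : BSet (RO P)} {V : ℕ → BSet (RO P)} {J : ℕ → RO P} {q : P}
    (hop : ∀ n, Fc q fun F => SP45.IsOpen (In F) (nm F Z) (nm F D) (nm F (V n)))
    (hne : ∀ m n, m < n → Fc q fun F => nm F (V m) ≠ nm F (V n))
    (hpr : ∀ n, Fc q fun F => nm F (V n) ≠ nm F Z)
    (hinf : ∀ r ≤ q, ∀ z, (Fc r fun F => In F (nm F z) (nm F Z)) →
      Inf r fun n F => F.1.U (J n) ∧ In F (nm F z) (nm F (V n))) :
    Fc q fun F => Large (In F) (nm F (onT ℕ)) (nm F Z) (nm F D) (nm F (famJ V J)) := by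
  have h1 : Fc q fun F => ∀ U, In F U (nm F (famJ V J)) →
      SP45.IsOpen (In F) (nm F Z) (nm F D) U := by
    refine Fc.all fun y => Fc.imp (RpP.mem _ _) (rpIsOpen _ _ _) fun r hr hy => ?_
    refine Fc.dense (rpIsOpen _ _ _) fun r' hr' => ?_
    obtain ⟨s, hs, n, hn⟩ := fc_famJ (hy.mono hr')
    refine ⟨s, hs, fun F hF => ?_⟩
    have e := (hn F hF).2
    show SP45.IsOpen (In F) (nm F Z) (nm F D) (nm F y)
    rw [e]
    exact (hop n).mono (hs.trans (hr'.trans hr)) F hF
  have h2 : Fc q fun F => ∀ x, In F x (nm F Z) →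
      ∃ U, In F U (nm F (famJ V J)) ∧ In F x U := by
    refine Fc.all fun z => Fc.imp (RpP.mem _ _)
      (RpP.ex fun _ => (RpP.mem _ _).and (RpP.mem _ _)) fun r hr hz => ?_
    refine Fc.dense (RpP.ex fun _ => (RpP.mem _ _).and (RpP.mem _ _)) fun r' hr' => ?_
    obtain ⟨s, hs, n, _, h⟩ := hinf r' (hr'.trans hr) z (hz.mono hr') r' le_rfl 0
    exact ⟨s, hs, fun F hF => ⟨nm F (V n), in_famJ (h F hF).1, (h F hF).2⟩⟩
  have h3 : Fc q fun F => ¬ In F (nm F Z) (nm F (famJ V J)) := by
    refine Fc.not (RpP.mem _ _) fun r hr h => ?_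
    obtain ⟨s, hs, n, hn⟩ := fc_famJ h
    exact Fc.false (q := s) fun F hF => (hpr n).mono (hs.trans hr) F hF (hn F hF).2.symm
  have h4 : Fc q fun F => ∀ x, In F x (nm F Z) → ¬ ∃ f, OG45.Finite (In F) (nm F (onT ℕ)) f ∧
      ∀ U, In F U (nm F (famJ V J)) → In F x U → In F U f := by
    have hRp : ∀ z f : BSet (RO P), RpP fun F : GG P =>
        OG45.Finite (In F) (nm F (onT ℕ)) (nm F f) ∧
          ∀ U, In F U (nm F (famJ V J)) → In F (nm F z) U → In F U (nm F f) := fun z f =>
      (rpFinite _ _).and (RpP.all fun _ =>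
        (RpP.mem _ _).imp ((RpP.mem _ _).imp (RpP.mem _ _)))
    refine Fc.all fun z => Fc.imp (RpP.mem _ _) (RpP.ex (hRp z)).not fun r hr hz => ?_
    refine Fc.not (RpP.ex (hRp z)) fun r' hr' h => ?_
    obtain ⟨f, hf⟩ := Fc.name (A := fun F f => OG45.Finite (In F) (nm F (onT ℕ)) f ∧
      ∀ U, In F U (nm F (famJ V J)) → In F (nm F z) U → In F U f) (hRp z) h
    obtain ⟨s, hs, l, hl⟩ := exists_list (fun F hF => (hf F hF).1)
    have hsq : s ≤ q := hs.trans (hr'.trans hr)
    obtain ⟨t, ht, e, he, hte⟩ :=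
      (hinf s hsq z (hz.mono (hs.trans hr'))).many (l.length + 1)
    obtain ⟨F, hF⟩ := exists_gg t
    have hFs : F.1.U (pt s) := F.1.mono (pt_mono ht) hF
    have hFr : F.1.U (pt r') := F.1.mono (pt_mono hs) hFs
    have key : ∀ i : Fin (l.length + 1), ∃ c : Fin l.length, nm F (V (e i)) = nm F (l.get c) := by
      intro i
      have hi := hte i.1 i.2 F hF
      have hin := (hf F hFr).2 (nm F (V (e i))) (in_famJ hi.1) hi.2
      obtain ⟨u, hu, hue⟩ := (hl F hFs _).1 hin
      obtain ⟨c, rfl⟩ := List.mem_iff_get.1 hu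
      exact ⟨c, hue⟩
    choose c hc using key
    obtain ⟨i, j, hij, hcij⟩ := Fintype.exists_ne_map_eq_of_card_lt c (by simp)
    have hkey : ∀ i j : Fin (l.length + 1), i < j → c i = c j → False := by
      intro i j hij hcij
      have h5 : nm F (V (e i)) = nm F (V (e j)) := by rw [hc i, hc j, hcij]
      exact (hne (e i) (e j) (he hij)).mono (ht.trans hsq) F hF h5
    rcases lt_or_gt_of_ne hij with h5 | h5
    · exact hkey i j h5 hcij
    · exact hkey j i h5 hcij.symm
  exact fun F hF => ⟨⟨h1 F hF, h2 F hF, h3 F hF⟩, h4 F hF⟩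

/-- conversely, if `famJ V J` is large, then every point is in infinitely many `V n`
with `n ∈ J` -/
theorem inf_of_large {Z D C : BSet (RO P)} {V : ℕ → BSet (RO P)} {J : ℕ → RO P} {q : P}
    (hC : Fc q fun F => Large (In F) (nm F (onT ℕ)) (nm F Z) (nm F D) (nm F C))
    (hsub : Fc q fun F => Sub (In F) (nm F C) (nm F (famJ V J))) {r : P} (hr : r ≤ q)
    {z : BSet (RO P)} (hz : Fc r fun F => In F (nm F z) (nm F Z)) :
    Inf r fun n F => F.1.U (J n) ∧ In F (nm F z) (nm F (V n)) := by
  intro s hs N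
  have hsq : s ≤ q := hs.trans hr
  let x : Fin N → BSet (RO P) := fun i => V i
  have h1 : Fc s fun F => ∃ U, In F U (nm F C) ∧ In F (nm F z) U ∧ ¬ In F U (nm F (chk x)) := by
    intro F hF
    have h2 := (hC.mono hsq F hF).2 (nm F z) (hz.mono hs F hF)
    by_contra hcon
    push Not at hcon
    exact h2 ⟨nm F (chk x), finite_chk x F, fun U hU hzU => hcon U hU hzU⟩
  obtain ⟨U, hU⟩ := Fc.name (A := fun F U => In F U (nm F C) ∧ In F (nm F z) U ∧
    ¬ In F U (nm F (chk x)))
    (fun U => (RpP.mem _ _).and ((RpP.mem _ _).and (RpP.mem _ _).not)) h1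
  have h3 : Fc s fun F => In F (nm F U) (nm F (famJ V J)) := fun F hF =>
    hsub.mono hsq F hF _ (hU F hF).1
  obtain ⟨t, ht, n, hn⟩ := fc_famJ h3
  refine ⟨t, ht, n, ?_, fun F hF => ⟨(hn F hF).1, ?_⟩⟩
  · by_contra hlt
    have hlt' : n < N := not_le.1 hlt
    refine Fc.false (q := t) fun F hF => ?_
    have h4 := (hU.mono ht F hF).2.2
    apply h4
    have e := (hn F hF).2
    have h5 := In_chk x ⟨n, hlt'⟩ F
    rw [e]
    exact h5
  · have e := (hn F hF).2
    have h4 := (hU.mono ht F hF).2.1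
    beta_reduce at h4
    rw [e] at h4
    exact h4

end Pool.Agent.IN45
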