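import Pool.Agent.IN45.Top

/-!
# The open sets `E^n_m` and `O_k` (module OPE)

`V n m` are names of open sets, for each `n` increasing in `m` with closures, with union `Y` and
`V n 0 = ∅`.  `E n m = ⋂_{i ≤ n} V i (m - 3 (n - i))` with `E n m = ∅` for `m < 3 n`, and
`O k = ⋃_{n ≤ k} (E n (k + 1) ∖ closure of E n (k - 1))`.
-/

namespace Pool.Agent.IN45

open Classical Set Pool.Agent Pool.Agent.LadderTree Pool.Agent.Forcing Pool.Agent.MAx
open Pool.Agent.BVM (BSet UF eqv memv chk Congr le_of_uf Disc OPair FunOn op on onT)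
open Pool.Agent.OG45 Pool.Agent.SP45

variable {P : Type} [Preorder P]

/-- a neighbourhood which is contained in finitely many open sets -/
theorem ope_nbhd {M : Type*} {E : M → M → Prop} {w Y D : M} (hS : Space E w Y D) (U : ℕ → M)
    (k : ℕ) (hU : ∀ i < k, SP45.IsOpen E Y D (U i)) {x : M} (hx : E x Y)
    (h : ∀ i < k, E x (U i)) : ∃ W, E W D ∧ E x W ∧ ∀ i < k, Sub E W (U i) := by
  induction k with
  | zero =>
    obtain ⟨W, hW, hxW⟩ := hS.cov x hx
    exact ⟨W, hW, hxW, fun i hi => absurd hi (Nat.not_lt_zero i)⟩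
  | succ k ih =>
    obtain ⟨W, hW, hxW, h1⟩ := ih (fun i hi => hU i (hi.trans (Nat.lt_succ_self k)))
      fun i hi => h i (hi.trans (Nat.lt_succ_self k))
    obtain ⟨W', hW', hxW', h2⟩ := (hU k (Nat.lt_succ_self k)).2 x (h k (Nat.lt_succ_self k))
    obtain ⟨W2, hW2, hx2, h3, h4⟩ := hS.inter W W' x hW hW' hxW hxW'
    refine ⟨W2, hW2, hx2, fun i hi z hz => ?_⟩
    rcases Nat.lt_succ_iff_lt_or_eq.1 hi with h5 | h5
    · exact h1 i h5 z (h3 z hz)
    · rw [h5]
      exact h2 z (h4 z hz)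

/-- the sets `E n m`.  Define names with
`y ∈ E n m ↔ y ∈ Y ∧ 3 n ≤ m ∧ ∀ i ≤ n, y ∈ V i (m - 3 (n - i))`
(`exists_sep`, `RpP.allFin`, `RpP.const`).  `E n m ⊆ V n m` (take `i = n`).  `E n 0` is
empty since `V 0 0` is (for `n = 0`; for `n ≥ 1` since `3 n ≤ 0` fails).
`Way (E n m) (E n (m + 1))`: closures of subsets.  Note `3 n ≤ m` gives
`(m + 1) - 3 (n - i) = (m - 3 (n - i)) + 1`.
`E (n + 1) m ⊆ E n (m - 3)`.  Cover: decide `m_i` with `y ∈ V i m_i` for `i ≤ n` (induction on `n`)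
and let `m ≥ m_i + 3 n` for all `i`. -/
theorem exists_E {Y D : BSet (RO P)} {V : ℕ → ℕ → BSet (RO P)} {q : P}
    (hS : Fc q fun F => Space (In F) (nm F (onT ℕ)) (nm F Y) (nm F D))
    (hV : ∀ n m, Fc q fun F => SP45.IsOpen (In F) (nm F Y) (nm F D) (nm F (V n m)))
    (h0 : ∀ n, Fc q fun F => ∀ y, ¬ In F y (nm F (V n 0)))
    (hway : ∀ n m, Fc q fun F =>
      Way (In F) (nm F Y) (nm F D) (nm F (V n m)) (nm F (V n (m + 1))))
    (hcov : ∀ n, ∀ r ≤ q, ∀ y, (Fc r fun F => In F (nm F y) (nm F Y)) →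
      ∃ s ≤ r, ∃ m, Fc s fun F => In F (nm F y) (nm F (V n m))) :
    ∃ E : ℕ → ℕ → BSet (RO P),
      (∀ n m, Fc q fun F => SP45.IsOpen (In F) (nm F Y) (nm F D) (nm F (E n m))) ∧
      (∀ n, Fc q fun F => ∀ y, ¬ In F y (nm F (E n 0))) ∧
      (∀ n m, Fc q fun F => Way (In F) (nm F Y) (nm F D) (nm F (E n m)) (nm F (E n (m + 1)))) ∧
      (∀ n m, Fc q fun F => Sub (In F) (nm F (E n m)) (nm F (V n m))) ∧
      (∀ n m, Fc q fun F => ∀ y, In F y (nm F (E (n + 1) m)) →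
        3 ≤ m ∧ In F y (nm F (E n (m - 3)))) ∧
      ∀ n, ∀ r ≤ q, ∀ y, (Fc r fun F => In F (nm F y) (nm F Y)) →
        ∃ s ≤ r, ∃ m, Fc s fun F => In F (nm F y) (nm F (E n m)) := by
  have hex : ∀ n m : ℕ, ∃ o : BSet (RO P), ∀ (F : GG P) (z : Md F), In F z (nm F o) ↔
      In F z (nm F Y) ∧ (3 * n ≤ m ∧ ∀ i < n + 1, In F z (nm F (V i (m - 3 * (n - i))))) :=
    fun n m => exists_sep (b := (⊤ : RO P)) Y
      (P := fun F z => 3 * n ≤ m ∧ ∀ i < n + 1, In F z (nm F (V i (m - 3 * (n - i)))))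
      (fun y => (RpP.const _).and (RpP.allFin (fun i => RpP.mem _ _) (n + 1)))
  choose E hE using hex
  refine ⟨E, fun n m F hF => ⟨fun x hx => ((hE n m F x).1 hx).1, fun x hx => ?_⟩,
    fun n F hF y hy => ?_, fun n m F hF y hy => ?_, fun n m F hF y hy => ?_,
    fun n m F hF y hy => ?_, fun n r hr y hy => ?_⟩
  · obtain ⟨hxY, hnm, h1⟩ := (hE n m F x).1 hx
    obtain ⟨W, hW, hxW, h2⟩ := ope_nbhd (hS F hF)
      (fun i => nm F (V i (m - 3 * (n - i)))) (n + 1) (fun i _ => hV _ _ F hF) hxY h1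
    exact ⟨W, hW, hxW, fun z hz => (hE n m F z).2
      ⟨(hS F hF).sub W hW z hz, hnm, fun i hi => h2 i hi z hz⟩⟩
  · obtain ⟨_, hn, h1⟩ := (hE n 0 F y).1 hy
    obtain rfl : n = 0 := by omega
    exact h0 0 F hF y (h1 0 (Nat.lt_succ_self 0))
  · obtain ⟨U, hU, hyU⟩ := (hS F hF).cov y hy.1
    obtain ⟨x, _, hx⟩ := hy.2 U hU hyU
    have hnm : 3 * n ≤ m := ((hE n m F x).1 hx).2.1
    refine (hE n (m + 1) F y).2 ⟨hy.1, by omega, fun i hi => ?_⟩
    have h1 : In F y (nm F (V i (m - 3 * (n - i) + 1))) :=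
      hway i (m - 3 * (n - i)) F hF y (hy.mono fun z hz => ((hE n m F z).1 hz).2.2 i hi)
    rw [show m + 1 - 3 * (n - i) = m - 3 * (n - i) + 1 by omega]
    exact h1
  · have h1 := ((hE n m F y).1 hy).2.2 n (Nat.lt_succ_self n)
    rw [Nat.sub_self, Nat.mul_zero, Nat.sub_zero] at h1
    exact h1
  · obtain ⟨hyY, hnm, h1⟩ := (hE (n + 1) m F y).1 hy
    refine ⟨by omega, (hE n (m - 3) F y).2 ⟨hyY, by omega, fun i hi => ?_⟩⟩
    have h2 := h1 i (by omega)
    rw [show m - 3 * (n + 1 - i) = m - 3 - 3 * (n - i) by omega] at h2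
    exact h2
  · have key : ∀ k : ℕ, ∃ s ≤ r, ∃ M : ℕ, Fc s fun F =>
        ∀ i < k, ∀ m, M ≤ m → In F (nm F y) (nm F (V i m)) := by
      intro k
      induction k with
      | zero => exact ⟨r, le_rfl, 0, fun F hF i hi => absurd hi (Nat.not_lt_zero i)⟩
      | succ k ih =>
        obtain ⟨s, hs, M, hM⟩ := ih
        obtain ⟨t, ht, m0, hm0⟩ := hcov k s (hs.trans hr) y (hy.mono hs)
        refine ⟨t, ht.trans hs, max M m0, fun F hF i hi m hm => ?_⟩
        have hFq : F.1.U (pt q) := F.1.mono (pt_mono ((ht.trans hs).trans hr)) hF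
        rcases Nat.lt_succ_iff_lt_or_eq.1 hi with h5 | h5
        · exact hM.mono ht F hF i h5 m ((le_max_left _ _).trans hm)
        · rw [h5]
          have h6 : m0 ≤ m := (le_max_right _ _).trans hm
          induction m, h6 using Nat.le_induction with
          | base => exact hm0 F hF
          | succ b hb ih2 =>
            have h7 : In F (nm F y) (nm F (V k b)) := by
              clear ih2 hm
              induction b, hb using Nat.le_induction with
              | base => exact hm0 F hF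
              | succ c _ ih3 =>
                exact (hway k c F hFq) _ (cl_of_mem ((hV k c F hFq).1 _ ih3) ih3)
            exact (hway k b F hFq) _ (cl_of_mem ((hV k b F hFq).1 _ h7) h7)
    obtain ⟨s, hs, M, hM⟩ := key (n + 1)
    refine ⟨s, hs, M + 3 * n, fun F hF => ?_⟩
    have hFr : F.1.U (pt r) := F.1.mono (pt_mono hs) hF
    exact (hE n (M + 3 * n) F _).2 ⟨hy F hFr, by omega, fun i hi => hM F hF i hi _ (by omega)⟩

end Pool.Agent.IN45
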