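import Pool.Agent.IN45.Top
import Pool.Agent.IN45.Cnt

/-!
# The open sets `E^n_m` and `O_k` (module OPO)

`V n m` are names of open sets, for each `n` increasing in `m` with closures, with union `Y` and
`V n 0 = ∅`.  `E n m = ⋂_{i ≤ n} V i (m - 3 (n - i))` with `E n m = ∅` for `m < 3 n`, and
`O k = ⋃_{n ≤ k} (E n (k + 1) ∖ closure of E n (k - 1))`.
-/

namespace Pool.Agent.IN45

open Classical Set Pool.Agent Pool.Agent.LadderTree Pool.Agent.Forcing Pool.Agent.MAx
open Pool.Agent.BVM (BSet UF eqv memv chk Congr le_of_uf Disc OPair FunOn op on onT)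
open Pool.Agent.OG45 Pool.Agent.SP45

variable {P : Type} [Preorder P]

/-- the sets `O k` (at `F`, every statement is about finitely many standard `n`).  For the last
part decide `m` with `y ∈ E n m` and apply `exists_block` at an ultrafilter; the number `k` can be
decided (`fc_decide` finitely often, or use `Fc.not` and suppose that `y ∈ E n (k + 1)` and
`y ∉ E n k` fails for all `3 n ≤ k < m`). -/
theorem exists_O {Y D : BSet (RO P)} {E : ℕ → ℕ → BSet (RO P)} {q : P}
    (hS : Fc q fun F => Space (In F) (nm F (onT ℕ)) (nm F Y) (nm F D))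
    (hE : ∀ n m, Fc q fun F => SP45.IsOpen (In F) (nm F Y) (nm F D) (nm F (E n m)))
    (h0 : ∀ n, Fc q fun F => ∀ y, ¬ In F y (nm F (E n 0)))
    (hway : ∀ n m, Fc q fun F =>
      Way (In F) (nm F Y) (nm F D) (nm F (E n m)) (nm F (E n (m + 1))))
    (hstep : ∀ n m, Fc q fun F => ∀ y, In F y (nm F (E (n + 1) m)) →
        3 ≤ m ∧ In F y (nm F (E n (m - 3))))
    (hcov : ∀ n, ∀ r ≤ q, ∀ y, (Fc r fun F => In F (nm F y) (nm F Y)) →
      ∃ s ≤ r, ∃ m, Fc s fun F => In F (nm F y) (nm F (E n m))) :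
    ∃ O : ℕ → BSet (RO P),
      (∀ k, Fc q fun F => SP45.IsOpen (In F) (nm F Y) (nm F D) (nm F (O k))) ∧
      (∀ k, Fc q fun F => ∀ y, In F y (nm F (O k)) →
        ∃ n ≤ k, In F y (nm F (E n (k + 1))) ∧ ¬ In F y (nm F (E n (k - 1)))) ∧
      ∀ r ≤ q, ∀ y, (Fc r fun F => In F (nm F y) (nm F Y)) →
        Inf r fun k F => In F (nm F y) (nm F (O k)) := by
  have hex : ∀ k : ℕ, ∃ o : BSet (RO P), ∀ (F : GG P) (z : Md F), In F z (nm F o) ↔
      In F z (nm F Y) ∧ ∃ n < k + 1, In F z (nm F (E n (k + 1))) ∧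
        ¬ Cl (In F) (nm F Y) (nm F D) (nm F (E n (k - 1))) z := fun k =>
    exists_sep (b := (⊤ : RO P)) Y
      (P := fun F z => ∃ n < k + 1, In F z (nm F (E n (k + 1))) ∧
        ¬ Cl (In F) (nm F Y) (nm F D) (nm F (E n (k - 1))) z)
      (fun y => RpP.exFin (fun n => (RpP.mem _ _).and (rpCl _ _ _ _).not) (k + 1))
  choose O hO using hex
  have hexS : ∀ n k : ℕ, ∃ o : BSet (RO P), ∀ (F : GG P) (z : Md F), In F z (nm F o) ↔
      In F z (nm F (E n (k + 1))) ∧
        ¬ Cl (In F) (nm F Y) (nm F D) (nm F (E n (k - 1))) z := fun n k =>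
    exists_sep (b := (⊤ : RO P)) (E n (k + 1))
      (P := fun F z => ¬ Cl (In F) (nm F Y) (nm F D) (nm F (E n (k - 1))) z)
      (fun y => (rpCl _ _ _ _).not)
  choose S hSn using hexS
  refine ⟨O, fun k F hF => ⟨fun x hx => ((hO k F x).1 hx).1, fun x hx => ?_⟩,
    fun k F hF y hy => ?_, fun r hr y hy => ?_⟩
  · obtain ⟨hxY, n, hn, h1, h2⟩ := (hO k F x).1 hx
    have h3 : SP45.IsOpen (In F) (nm F Y) (nm F D) (nm F (S n k)) :=
      isOpen_sdiff_cl (hS F hF) (hE n (k + 1) F hF) (hSn n k F)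
    obtain ⟨V, hV, hxV, hVS⟩ := h3.2 x ((hSn n k F x).2 ⟨h1, h2⟩)
    refine ⟨V, hV, hxV, fun z hz => ?_⟩
    have h4 := (hSn n k F z).1 (hVS z hz)
    exact (hO k F z).2 ⟨(hE n (k + 1) F hF).1 z h4.1, n, hn, h4⟩
  · obtain ⟨hyY, n, hn, h1, h2⟩ := (hO k F y).1 hy
    exact ⟨n, Nat.lt_succ_iff.1 hn, h1, fun h3 => h2 (cl_of_mem hyY h3)⟩
  · intro r' hr' N
    obtain ⟨s, hs, m, hm⟩ := hcov (N + 1) r' (hr'.trans hr) y (hy.mono hr')
    have hsq : s ≤ q := hs.trans (hr'.trans hr)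
    have hfin : Fc s fun F => ∃ k < m, N ≤ k ∧ In F (nm F y) (nm F (O k)) := by
      intro F hF
      have hFq : F.1.U (pt q) := F.1.mono (pt_mono hsq) hF
      have hyY : In F (nm F y) (nm F Y) := (hE (N + 1) m F hFq).1 _ (hm F hF)
      obtain ⟨k, hk, h1, h2⟩ := exists_block (E := fun n m => In F (nm F y) (nm F (E n m)))
        (fun m' hm' => by
          rcases Nat.eq_zero_or_pos m' with h | h
          · rw [h] at hm'
            exact absurd hm' (h0 0 F hFq _)
          · exact h)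
        (fun n m' hm' => hstep n m' F hFq _ hm') (n := N + 1) ⟨m, hm F hF⟩
      have hmono : ∀ m', k ≤ m' → In F (nm F y) (nm F (E (N + 1) k)) ∨ k < m' ∨ m' = k := by
        intro m' hm'
        rcases Nat.lt_or_ge k m' with h | h
        · exact Or.inr (Or.inl h)
        · exact Or.inr (Or.inr (le_antisymm h hm'))
      have hup : ∀ a b, a ≤ b → In F (nm F y) (nm F (E (N + 1) a)) →
          In F (nm F y) (nm F (E (N + 1) b)) := by
        intro a b hab ha
        induction b, hab using Nat.le_induction with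
        | base => exact ha
        | succ b _ ih => exact (hway (N + 1) b F hFq) _ (cl_of_mem hyY ih)
      have hkm : k < m := by
        by_contra hc
        exact h2 (hup m k (not_lt.1 hc) (hm F hF))
      refine ⟨k, hkm, by omega, (hO k F _).2 ⟨hyY, N + 1, by omega, h1, fun hcl => ?_⟩⟩
      have h3 := hway (N + 1) (k - 1) F hFq _ hcl
      rw [Nat.sub_add_cancel (by omega)] at h3
      exact h2 h3
    obtain ⟨t, ht, k, hkm, hk⟩ := fc_exFin (A := fun k F => N ≤ k ∧ In F (nm F y) (nm F (O k)))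
      (fun k => (RpP.const _).and (RpP.mem _ _)) hfin
    obtain ⟨F0, hF0⟩ := exists_gg t
    exact ⟨t, ht.trans hs, k, (hk F0 hF0).1, fun F hF => (hk F hF).2⟩

end Pool.Agent.IN45
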