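import Pool.Agent.IN45.Nrm

/-!
# Shrinking (module SHR)
-/

namespace Pool.Agent.IN45

open Classical Set Pool.Agent Pool.Agent.LadderTree Pool.Agent.Forcing Pool.Agent.MAx
open Pool.Agent.BVM (BSet UF eqv memv chk Congr le_of_uf Disc OPair FunOn op on onT)
open Pool.Agent.OG45 Pool.Agent.SP45

/-- the closure of a finite union -/
theorem shr_cl_fin {M : Type*} {E : M → M → Prop} {w Y D V S y : M} (hS : Space E w Y D)
    (β : ℕ → M) (p : ℕ → Prop) (n : ℕ)
    (hU : ∀ x, E x S → (E x V ∨ ∃ j < n, p j ∧ E x (β j)))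
    (h : Cl E Y D S y) : Cl E Y D V y ∨ ∃ j < n, p j ∧ Cl E Y D (β j) y := by
  by_contra hcon
  push Not at hcon
  obtain ⟨h1, h2⟩ := hcon
  obtain ⟨U, hU1, hyU, h3⟩ := top_exists_disj h.1 h1
  obtain ⟨W, hW, hyW, h4, h5⟩ := top_nbhd_fin hS hU1 hyU β p n h2
  obtain ⟨x, hxW, hxS⟩ := h.2 W hW hyW
  rcases hU x hxS with h6 | ⟨j, hj, hp, h6⟩
  · exact h3 x (h4 x hxW) h6
  · exact h5 j hj hp x hxW h6

variable {P : Type} [Preorder P]

/-- the property which defines the set `A` -/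
def ShrC {M : Type*} (E : M → M → Prop) (Y D V G : M) (β : ℕ → M) (n : ℕ) (z : M) : Prop :=
  E z V ∨ ∃ j < n, Way E Y D (β j) G ∧ E z (β j)

theorem shr_rp (Y D V G : BSet (RO P)) (β : ℕ → BSet (RO P)) (n : ℕ) (z : BSet (RO P)) :
    RpP fun F : GG P => ShrC (In F) (nm F Y) (nm F D) (nm F V) (nm F G) (fun i => nm F (β i)) n
      (nm F z) := by
  unfold ShrC
  exact (RpP.mem _ _).or (RpP.exFin (fun i => (rpWay _ _ _ _).and (RpP.mem _ _)) n)

/-- one step of the recursion -/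
theorem shr_step {Y D : BSet (RO P)} {β : ℕ → BSet (RO P)} {q : P} (hE : Enum q D β)
    (hS : Fc q fun F => Space (In F) (nm F (onT ℕ)) (nm F Y) (nm F D)) {G : ℕ → BSet (RO P)}
    (hG : ∀ m, Fc q fun F => SP45.IsOpen (In F) (nm F Y) (nm F D) (nm F (G m)))
    (hmono : ∀ m, Fc q fun F => Sub (In F) (nm F (G m)) (nm F (G (m + 1))))
    (m : ℕ) (V : BSet (RO P))
    (hV : Fc q fun F => SP45.IsOpen (In F) (nm F Y) (nm F D) (nm F V))
    (hVG : Fc q fun F => Way (In F) (nm F Y) (nm F D) (nm F V) (nm F (G m))) :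
    ∃ V' : BSet (RO P), (Fc q fun F => SP45.IsOpen (In F) (nm F Y) (nm F D) (nm F V')) ∧
      (Fc q fun F => Way (In F) (nm F Y) (nm F D) (nm F V') (nm F (G (m + 1)))) ∧
      (Fc q fun F => Way (In F) (nm F Y) (nm F D) (nm F V) (nm F V')) ∧
      Fc q fun F => ∀ j < m + 1, Way (In F) (nm F Y) (nm F D) (nm F (β j)) (nm F (G (m + 1))) →
        ∀ x, In F x (nm F Y) → In F x (nm F (β j)) → In F x (nm F V') := by
  obtain ⟨A, hA⟩ := exists_sep (b := (⊤ : RO P)) Y (P := fun F z => ShrC (In F) (nm F Y) (nm F D)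
    (nm F V) (nm F (G (m + 1))) (fun i => nm F (β i)) (m + 1) z)
    (fun z => shr_rp Y D V (G (m + 1)) β (m + 1) z)
  have hAY : Fc q fun F => Sub (In F) (nm F A) (nm F Y) := fun F _ x hx => ((hA F x).1 hx).1
  have hAG : Fc q fun F => Way (In F) (nm F Y) (nm F D) (nm F A) (nm F (G (m + 1))) := by
    intro F hF y hy
    have h1 := hS F hF
    have h2 := hVG F hF
    have h3 := hmono m F hF
    beta_reduce at h1 h2 h3
    rcases shr_cl_fin h1 (V := nm F V) (fun i => nm F (β i))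
      (fun j => Way (In F) (nm F Y) (nm F D) (nm F (β j)) (nm F (G (m + 1)))) (m + 1)
      (fun x hx => ((hA F x).1 hx).2) hy with h4 | ⟨j, _, h5, h6⟩
    · exact h3 _ (h2 _ h4)
    · exact h5 _ h6
  obtain ⟨V', h1, h2, h3⟩ := exists_between hE hS hAY (hG (m + 1)) hAG
  refine ⟨V', h1, h3, fun F hF => ?_, fun F hF j hj hw x hx hxj => ?_⟩
  · have h4 := h2 F hF
    have h5 := hV F hF
    beta_reduce at h4 h5
    exact h4.mono_left fun x hx => (hA F x).2 ⟨h5.1 x hx, Or.inl hx⟩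
  · have h4 := h2 F hF
    beta_reduce at h4
    exact h4 x (cl_of_mem hx ((hA F x).2 ⟨hx, Or.inr ⟨j, hj, hw, hxj⟩⟩))

/-- module SHR, shrinking: let `G m` be an increasing sequence of open sets which covers `Y`.
There are open sets `V m` with `V 0 = ∅`, `Way (V m) (V (m + 1))`, `V m ⊆ G m`, which cover `Y`.
Recursion at the fixed condition `q`, with `V m` such that moreover `Way (V m) (G m)`: let
`A = V m ∪ ⋃ {β j : j ≤ m, Way (β j) (G (m + 1))}` (`exists_sep` from `Y`, `RpP.exFin`), so that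
`Way A (G (m + 1))` (finite unions, at `F`: `cl_union` and induction), and take `V (m + 1)` by
`exists_between`.  Cover: if `y ∈ G m`, then `exists_way` and `Enum.all` give `j` with `y ∈ β j`
and `Way (β j) (G m)`; let `n ≥ j, m`; then `y ∈ V (n + 1)`.
The name of the empty set is `on 0` (`mem_on`). -/
theorem exists_shrink {Y D : BSet (RO P)} {β : ℕ → BSet (RO P)} {q : P} (hE : Enum q D β)
    (hS : Fc q fun F => Space (In F) (nm F (onT ℕ)) (nm F Y) (nm F D)) {G : ℕ → BSet (RO P)}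
    (hG : ∀ m, Fc q fun F => SP45.IsOpen (In F) (nm F Y) (nm F D) (nm F (G m)))
    (hmono : ∀ m, Fc q fun F => Sub (In F) (nm F (G m)) (nm F (G (m + 1))))
    (hcov : ∀ r ≤ q, ∀ y, (Fc r fun F => In F (nm F y) (nm F Y)) →
      ∃ s ≤ r, ∃ m, Fc s fun F => In F (nm F y) (nm F (G m))) :
    ∃ V : ℕ → BSet (RO P),
      (∀ m, Fc q fun F => SP45.IsOpen (In F) (nm F Y) (nm F D) (nm F (V m))) ∧
      (Fc q fun F => ∀ y, ¬ In F y (nm F (V 0))) ∧
      (∀ m, Fc q fun F => Way (In F) (nm F Y) (nm F D) (nm F (V m)) (nm F (V (m + 1)))) ∧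
      (∀ m, Fc q fun F => Sub (In F) (nm F (V m)) (nm F (G m))) ∧
      ∀ r ≤ q, ∀ y, (Fc r fun F => In F (nm F y) (nm F Y)) →
        ∃ s ≤ r, ∃ m, Fc s fun F => In F (nm F y) (nm F (V m)) := by
  have hemp : ∀ (F : GG P) (y : Md F), ¬ In F y (nm F (on 0)) := fun F y hy => by
    obtain ⟨i, hi, _⟩ := mem_on hy
    exact absurd hi (Nat.not_lt_zero i)
  let Inv : ℕ → BSet (RO P) → Prop := fun m V =>
    (Fc q fun F => SP45.IsOpen (In F) (nm F Y) (nm F D) (nm F V)) ∧
    Fc q fun F => Way (In F) (nm F Y) (nm F D) (nm F V) (nm F (G m))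
  have h0 : Inv 0 (on 0) := by
    refine ⟨fun F _ => ⟨fun x hx => absurd hx (hemp F x), fun x hx => absurd hx (hemp F x)⟩,
      fun F hF y hy => ?_⟩
    have h1 := hS F hF
    beta_reduce at h1
    obtain ⟨U, hU, hyU⟩ := h1.cov y hy.1
    obtain ⟨x, _, hx⟩ := hy.2 U hU hyU
    exact absurd hx (hemp F x)
  have hst : ∀ (m : ℕ) (v : {V : BSet (RO P) // Inv m V}), ∃ v' : {V : BSet (RO P) // Inv (m + 1) V},
      (Fc q fun F => Way (In F) (nm F Y) (nm F D) (nm F v.1) (nm F v'.1)) ∧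
      Fc q fun F => ∀ j < m + 1, Way (In F) (nm F Y) (nm F D) (nm F (β j)) (nm F (G (m + 1))) →
        ∀ x, In F x (nm F Y) → In F x (nm F (β j)) → In F x (nm F v'.1) := by
    intro m v
    obtain ⟨V', h1, h2, h3, h4⟩ := shr_step hE hS hG hmono m v.1 v.2.1 v.2.2
    exact ⟨⟨V', h1, h2⟩, h3, h4⟩
  choose f hf1 hf2 using hst
  let s : (m : ℕ) → {V : BSet (RO P) // Inv m V} := fun m => Nat.rec ⟨on 0, h0⟩ (fun m v => f m v) m
  have hs : ∀ m, s (m + 1) = f m (s m) := fun m => rfl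
  have hGm : ∀ m k, Fc q fun F => Sub (In F) (nm F (G m)) (nm F (G (m + k))) := by
    intro m k
    induction k with
    | zero => exact fun F _ x hx => hx
    | succ k ih => exact fun F hF x hx => hmono (m + k) F hF x (ih F hF x hx)
  refine ⟨fun m => (s m).1, fun m => (s m).2.1, fun F _ y => hemp F y, fun m => ?_, fun m => ?_,
    fun r hr y hy => ?_⟩
  · have h1 := hf1 m (s m)
    rw [← hs] at h1
    exact h1
  · intro F hF
    have h1 := (s m).2.1 F hF
    have h2 := (s m).2.2 F hF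
    beta_reduce at h1 h2
    exact Way.sub h1.1 h2
  · obtain ⟨t, ht, m, hm⟩ := hcov r hr y hy
    have htq : t ≤ q := ht.trans hr
    obtain ⟨W, hW⟩ := Fc.name (q := t) (A := fun F W => In F W (nm F D) ∧ In F (nm F y) W ∧
        Way (In F) (nm F Y) (nm F D) W (nm F (G m)))
      (fun W => (RpP.mem W _).and ((RpP.mem _ W).and (rpWay _ _ _ _))) (fun F hF => by
        have h1 := (hG m).mono htq F hF
        have h2 := hS.mono htq F hF
        have h3 := hm F hF
        beta_reduce at h1 h2 h3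
        exact exists_way h2 h1 h3)
    obtain ⟨u, hu, j, hj⟩ := hE.all t htq W (fun F hF => (hW F hF).1)
    refine ⟨u, hu.trans ht, max m j + 1, fun F hF => ?_⟩
    have h1 := hj F hF
    have h2 := hW.mono hu F hF
    have h3 := hy.mono (hu.trans ht) F hF
    have h4 := (hf2 (max m j) (s (max m j))).mono (hu.trans htq) F hF
    have h5 := (hGm m (max m j + 1 - m)).mono (hu.trans htq) F hF
    beta_reduce at h1 h2 h3 h4 h5
    rw [← hs] at h4
    rw [h1] at h2
    rw [show m + (max m j + 1 - m) = max m j + 1 by omega] at h5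
    exact h4 j (by omega) (h2.2.2.mono_right h5) _ h3 h2.2.1

end Pool.Agent.IN45
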