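import Pool.Agent.IN45.Gdf

/-!
# The tube lemma (module TUB)
-/

namespace Pool.Agent.IN45

open Classical Set Pool.Agent Pool.Agent.LadderTree Pool.Agent.Forcing Pool.Agent.MAx
open Pool.Agent.BVM (BSet UF eqv memv chk Congr le_of_uf Disc OPair FunOn op on onT)
open Pool.Agent.OG45 Pool.Agent.SP45

variable {P : Type} [Preorder P]

/-- `U × V ⊆ W j` for some `j` with `i ≤ j < m`, and `y ∈ V ∈ B` -/
def TubP (W : ℕ → BSet (RO P)) (i m : ℕ) (F : GG P) (B y U V : Md F) : Prop :=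
  In F V B ∧ In F y V ∧ ∃ j < m, i ≤ j ∧ ∀ x', In F x' U → ∀ y', In F y' V →
    InR (In F) (nm F (W j)) x' y'

theorem rpTubP (W : ℕ → BSet (RO P)) (i m : ℕ) (B y U V : BSet (RO P)) :
    RpP fun F : GG P => TubP W i m F (nm F B) (nm F y) (nm F U) (nm F V) := by
  refine (RpP.mem _ _).and ((RpP.mem _ _).and ?_)
  refine RpP.exFin (fun j => (RpP.const (i ≤ j)).and ?_) m
  exact RpP.all fun x' => (RpP.mem _ _).imp (RpP.all fun y' => (RpP.mem _ _).imp (rpInR _ _ _))

/-- points of the product are covered by boxes inside the open sets -/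
theorem tub_cover {X A Y B Z D : BSet (RO P)} {W : ℕ → BSet (RO P)} {F : GG P} {i m : ℕ}
    (hZ : ProdSpace (In F) (nm F Z) (nm F D) (nm F X) (nm F A) (nm F Y) (nm F B))
    (hW : ∀ n < m, SP45.IsOpen (In F) (nm F Z) (nm F D) (nm F (W n))) {x y : Md F}
    (h : ∃ j < m, i ≤ j ∧ InR (In F) (nm F (W j)) x y) :
    ∃ U, In F U (nm F A) ∧ In F x U ∧ ∃ V, TubP W i m F (nm F B) y U V := by
  obtain ⟨j, hj, hij, z, hz, hzW⟩ := h
  obtain ⟨S, hSD, hzS, hSW⟩ := (hW j hj).2 z hzW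
  obtain ⟨U, V, hU, hV, hS⟩ := (hZ.2 S).1 hSD
  obtain ⟨x1, y1, hx1, hy1, hz1⟩ := (hS z).1 hzS
  obtain ⟨rfl, rfl⟩ := BVM.OPair.inj hz hz1
  refine ⟨U, hU, hx1, V, hV, hy1, j, hj, hij, fun x' hx' y' hy' => ?_⟩
  obtain ⟨x', rfl⟩ := exists_nm x'
  obtain ⟨y', rfl⟩ := exists_nm y'
  have e1 : OPair (In F) (nm F (BVM.op x' y')) (nm F x') (nm F y') := OPair_nm.2 rfl
  exact ⟨_, e1, hSW _ ((hS _).2 ⟨_, _, hx', hy', e1⟩)⟩

/-- finite intersections of boxes -/
theorem tub_inter {Y B : BSet (RO P)} {W : ℕ → BSet (RO P)} {F : GG P} {i m : ℕ}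
    (hY : Space (In F) (nm F (onT ℕ)) (nm F Y) (nm F B)) {y : Md F} (hy : In F y (nm F Y))
    (l : List (BSet (RO P))) (h : ∀ u ∈ l, ∃ V, TubP W i m F (nm F B) y (nm F u) V) :
    ∃ V, In F V (nm F B) ∧ In F y V ∧ ∀ u ∈ l, TubP W i m F (nm F B) y (nm F u) V := by
  induction l with
  | nil =>
    obtain ⟨V, hV, hyV⟩ := hY.cov y hy
    exact ⟨V, hV, hyV, fun u hu => absurd hu List.not_mem_nil⟩
  | cons u l ih =>
    obtain ⟨V, hV, hyV, hVl⟩ := ih fun u hu => h u (List.mem_cons_of_mem _ hu)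
    obtain ⟨V1, hV1, hyV1, j, hj, hij, hjV⟩ := h u List.mem_cons_self
    obtain ⟨V2, hV2, hyV2, h1, h2⟩ := hY.inter V V1 y hV hV1 hyV hyV1
    refine ⟨V2, hV2, hyV2, fun u' hu' => ?_⟩
    rcases List.mem_cons.1 hu' with e | e
    · rw [e]
      exact ⟨hV2, hyV2, j, hj, hij, fun x' hx' y' hy' => hjV x' hx' y' (h2 y' hy')⟩
    · obtain ⟨-, -, j', hj', hij', hj'V⟩ := hVl u' e
      exact ⟨hV2, hyV2, j', hj', hij', fun x' hx' y' hy' => hj'V x' hx' y' (h1 y' hy')⟩

/-- module TUB, the tube lemma: `G i m` is open.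
Let `r ≤ q` force `y ∈ G i m`.  At every `F ∋ r` let `𝒞` be the set of all `U ∈ A` such that for
some `V ∈ B` with `y ∈ V`, and some `j` with `i ≤ j < m`, `(x', y') ∈ W j` for all `x' ∈ U` and
`y' ∈ V`.  Members of `𝒞` are open (members of the base are open), and they cover `X`: for `x ∈ X`
some `z = (x, y)` is in some `W j`, which is open in `Z`, so that some `S ∈ D` has `z ∈ S ⊆ W j`,
and `S = U × V` with `U ∈ A`, `V ∈ B`.  Take a name of `𝒞` (`exists_sep` from `A`), a name of a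
finite subcover `f` (`Fc.name`), and decide the list `l` of its elements (`exists_list`).  For
each `u ∈ l` there is `V ∈ B` as above; the intersection of these finitely many `V` contains a
member `V'` of `B` with `y ∈ V'` (induction on the list, with the axiom `inter`, and `Space.cov`
for the empty list).  Then `V' ⊆ G i m`.  At an ultrafilter `F` the list `l` is standard, so this
part can be done at `F`. -/
theorem isOpen_G {X A Y B Z D : BSet (RO P)} {W : ℕ → BSet (RO P)} {q : P}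
    (hX : Fc q fun F => Space (In F) (nm F (onT ℕ)) (nm F X) (nm F A))
    (hc : Fc q fun F => Compact (In F) (nm F (onT ℕ)) (nm F X) (nm F A))
    (hY : Fc q fun F => Space (In F) (nm F (onT ℕ)) (nm F Y) (nm F B))
    (hZ : Fc q fun F => ProdSpace (In F) (nm F Z) (nm F D) (nm F X) (nm F A) (nm F Y) (nm F B))
    (hW : ∀ n, Fc q fun F => SP45.IsOpen (In F) (nm F Z) (nm F D) (nm F (W n)))
    {G : ℕ → ℕ → BSet (RO P)} (hG : ∀ i m (F : GG P) y, In F y (nm F (G i m)) ↔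
      (In F y (nm F Y) ∧ ∀ x, In F x (nm F X) → ∃ j < m, i ≤ j ∧ InR (In F) (nm F (W j)) x y))
    (i m : ℕ) : Fc q fun F => SP45.IsOpen (In F) (nm F Y) (nm F B) (nm F (G i m)) := by
  have hmain : Fc q fun F => ∀ y, In F y (nm F (G i m)) →
      ∃ V, In F V (nm F B) ∧ In F y V ∧ Sub (In F) V (nm F (G i m)) := by
    refine Fc.all (A := fun F y => In F y (nm F (G i m)) →
      ∃ V, In F V (nm F B) ∧ In F y V ∧ Sub (In F) V (nm F (G i m))) fun y => ?_
    have hR : RpP fun F : GG P => ∃ V, In F V (nm F B) ∧ In F (nm F y) V ∧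
        Sub (In F) V (nm F (G i m)) :=
      RpP.ex fun V => (RpP.mem _ _).and ((RpP.mem _ _).and (rpSub _ _))
    refine Fc.imp (RpP.mem _ _) hR fun r hr hy => Fc.dense hR fun s hs => ?_
    have hsq : s ≤ q := hs.trans hr
    -- the family of the first factors of the boxes
    obtain ⟨C, hC⟩ := exists_sep A (P := fun (F : GG P) U =>
      ∃ V, TubP W i m F (nm F B) (nm F y) U V) (fun U => RpP.ex fun V => rpTubP W i m B y U V)
    have h1 : Fc s fun F => ∃ f, OG45.Finite (In F) (nm F (onT ℕ)) f ∧ Sub (In F) f (nm F C) ∧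
        ∀ x, In F x (nm F X) → ∃ U, In F U f ∧ In F x U := by
      intro F hF
      have eX := hX.mono hsq F hF
      have ec := hc.mono hsq F hF
      have eZ := hZ.mono hsq F hF
      have ey := hy.mono hs F hF
      beta_reduce at eX ec eZ ey
      rw [hG] at ey
      refine ec (nm F C) (fun U hU => ?_) (fun x hx => ?_)
      · have hUA := ((hC F U).1 hU).1
        exact ⟨eX.sub U hUA, fun x hx => ⟨U, hUA, hx, fun _ h => h⟩⟩
      · obtain ⟨U, hU, hxU, hV⟩ := tub_cover eZ (fun n _ => (hW n).mono hsq F hF) (ey.2 x hx)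
        exact ⟨U, (hC F U).2 ⟨hU, hV⟩, hxU⟩
    obtain ⟨f, hf⟩ := Fc.name (A := fun F f => OG45.Finite (In F) (nm F (onT ℕ)) f ∧
      Sub (In F) f (nm F C) ∧ ∀ x, In F x (nm F X) → ∃ U, In F U f ∧ In F x U)
      (fun f => (rpFinite _ _).and ((rpSub _ _).and (RpP.all fun x => (RpP.mem _ _).imp
        (RpP.ex fun U => (RpP.mem _ _).and (RpP.mem _ _))))) h1
    obtain ⟨t, ht, l, hl⟩ := exists_list (f := f) (q := s) (fun F hF => (hf F hF).1)
    refine ⟨t, ht, fun F hF => ?_⟩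
    have eY := hY.mono (ht.trans hsq) F hF
    have ef := hf.mono ht F hF
    have el := hl F hF
    have ey := hy.mono (ht.trans hs) F hF
    beta_reduce at eY ef el ey ⊢
    rw [hG] at ey
    have h2 : ∀ u ∈ l, ∃ V, TubP W i m F (nm F B) (nm F y) (nm F u) V := by
      intro u hu
      have h3 : In F (nm F u) (nm F f) := (el _).2 ⟨u, hu, rfl⟩
      exact ((hC F _).1 (ef.2.1 _ h3)).2
    obtain ⟨V, hV, hyV, hVl⟩ := tub_inter eY ey.1 l h2
    refine ⟨V, hV, hyV, fun y' hy' => ?_⟩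
    rw [hG]
    refine ⟨eY.sub V hV y' hy', fun x hx => ?_⟩
    obtain ⟨U, hUf, hxU⟩ := ef.2.2 x hx
    obtain ⟨u, hu, rfl⟩ := (el U).1 hUf
    obtain ⟨-, -, j, hj, hij, h4⟩ := hVl u hu
    exact ⟨j, hj, hij, h4 x hxU y' hy'⟩
  intro F hF
  refine ⟨fun y hy => ((hG i m F y).1 hy).1, hmain F hF⟩

end Pool.Agent.IN45
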