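import Pool.Agent.IN45.Prp
import Pool.Agent.IN45.Blk
import Pool.Agent.IN45.Tbl

/-!
# The bounding sequence (module UNB)
-/

namespace Pool.Agent.IN45

open Classical Set Pool.Agent Pool.Agent.LadderTree Pool.Agent.Forcing Pool.Agent.MAx
open Pool.Agent.BVM (BSet UF eqv memv chk Congr le_of_uf Disc OPair FunOn op on onT)
open Pool.Agent.OG45 Pool.Agent.SP45

variable {P : Type} [Preorder P]

/-- finitely many of the numbers `α i` are decided -/
private theorem helper23_decide {α : ℕ → BSet (RO P)} {q : P}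
    (hα : ∀ j, Fc q fun F => In F (nm F (α j)) (nm F (onT ℕ))) {r : P} (hr : r ≤ q) (k : ℕ) :
    ∃ s ≤ r, ∃ v : ℕ → ℕ, ∀ i < k, Fc s fun F => nm F (α i) = nm F (on (v i)) := by
  induction k with
  | zero => exact ⟨r, le_rfl, fun _ => 0, fun i hi => absurd hi (Nat.not_lt_zero i)⟩
  | succ k ih =>
    obtain ⟨s, hs, v, hv⟩ := ih
    obtain ⟨t, ht, n, hn⟩ := fc_nat ((hα k).mono (hs.trans hr))
    refine ⟨t, ht.trans hs, fun i => if i = k then n else v i, fun i hi => ?_⟩
    by_cases h : i = k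
    · rw [h]
      beta_reduce
      rw [if_pos rfl]
      exact hn
    · beta_reduce
      rw [if_neg h]
      exact (hv i (by omega)).mono ht

private theorem helper23_eq {s : P} {a : BSet (RO P)} {m n : ℕ}
    (ha : Fc s fun F => nm F a = nm F (on m)) (hb : Fc s fun F => nm F a = nm F (on n)) :
    m = n := by
  obtain ⟨F, hF⟩ := exists_gg s
  have h1 : nm F a = nm F (on m) := ha F hF
  have h2 : nm F a = nm F (on n) := hb F hF
  exact nat_inj.1 (h1.symm.trans h2)

private theorem helper23_find {v : ℕ → ℕ} {a k : ℕ} (h1 : v a ≤ k) :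
    ∀ K, a ≤ K → k < v K → ∃ j, a ≤ j ∧ j < K ∧ v j ≤ k ∧ k < v (j + 1) := by
  intro K haK
  induction K, haK using Nat.le_induction with
  | base => intro h2; omega
  | succ K haK ih =>
    intro h2
    by_cases h3 : k < v K
    · obtain ⟨j, h4, h5, h6⟩ := ih h3
      exact ⟨j, h4, by omega, h6⟩
    · exact ⟨K, haK, Nat.lt_succ_self K, by omega, h2⟩

/-- a point of a block is in some `O k` with `k` in the block -/
private theorem helper23_pick {Y : BSet (RO P)} {O : ℕ → BSet (RO P)} {U : ℕ → ℕ → BSet (RO P)}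
    (hU : ∀ m n (F : GG P) y, In F y (nm F (U m n)) ↔
      (In F y (nm F Y) ∧ ∃ k < n, m ≤ k ∧ In F y (nm F (O k))))
    {α : ℕ → BSet (RO P)} {q : P}
    (hα : ∀ j, Fc q fun F => In F (nm F (α j)) (nm F (onT ℕ)))
    (hinc : ∀ j, Fc q fun F => In F (nm F (α j)) (nm F (α (j + 1)))) {t : P} (ht : t ≤ q)
    {y : BSet (RO P)} {j : ℕ}
    (h : Fc t fun F => In F (nm F y) (nm F (blk U (α j) (α (j + 1))))) :
    ∃ t' ≤ t, ∃ k ≥ j, Fc t' fun F => In F (nm F y) (nm F (O k)) ∧
      ¬ In F (nm F (on k)) (nm F (α j)) ∧ In F (nm F (on k)) (nm F (α (j + 1))) := by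
  obtain ⟨t1, ht1, m, hm⟩ := fc_nat ((hα j).mono ht)
  obtain ⟨t2, ht2, n, hn⟩ := fc_nat ((hα (j + 1)).mono (ht1.trans ht))
  have hjm : j ≤ m := le_alpha hα hinc (ht1.trans ht) hm
  have h1 : Fc t2 fun F => ∃ k < n, m ≤ k ∧ In F (nm F y) (nm F (O k)) := by
    intro F hF
    have e1 : nm F (α j) = nm F (on m) := hm.mono ht2 F hF
    have e2 : nm F (α (j + 1)) = nm F (on n) := hn F hF
    have h2 : In F (nm F y) (nm F (blk U (α j) (α (j + 1)))) := h.mono (ht2.trans ht1) F hF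
    rw [blk_on e1 e2, hU] at h2
    exact h2.2
  obtain ⟨t3, ht3, k, hk, h3⟩ := fc_exFin (A := fun k F => m ≤ k ∧ In F (nm F y) (nm F (O k)))
    (fun k => (RpP.const _).and (RpP.mem _ _)) h1
  have hmk : m ≤ k := by
    obtain ⟨F, hF⟩ := exists_gg t3
    exact (h3 F hF).1
  refine ⟨t3, ht3.trans (ht2.trans ht1), k, hjm.trans hmk, fun F hF => ?_⟩
  have e1 : nm F (α j) = nm F (on m) := hm.mono (ht3.trans ht2) F hF
  have e2 : nm F (α (j + 1)) = nm F (on n) := hn.mono ht3 F hF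
  refine ⟨(h3 F hF).2, ?_, ?_⟩
  · rw [e1, nat_lt]
    omega
  · rw [e2, nat_lt]
    exact hk

/-- module UNB: there is a bound `γ`.
By `exists_proper` and `key_use` (each at a smaller condition) it remains to refute the case that
there are `N` with `U m n ≠ Y` for `m ≥ N`, and `A`.  Let `A'` be the set of elements `a` of `A`
with `¬ a ∈ on N`.  `exists_blocks` for `U`, `A'` and `h m = on m` gives `α`.  The sets
`V j = blk U (α j) (α (j + 1))` are open (finite unions of `O k`; `Fc.dense` and decide) and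
different from each other and from `Y`.  Every `y` is in infinitely many of them: given
`N'`, decide `α N' = on m₀` and then some `k ≥ m₀` with `y ∈ O k` (`hinf`); for some `j` with
`N' ≤ j ≤ k` the block `j` contains `k` (decide all `α i` for `i ≤ k + 1`, `le_alpha`).
`exists_index` gives `J`, and `exists_T`, `sat_T` (for `A`) a set `T`.  Let `s`, `y`, `N''` be given by the
property of `A`.  Since `y` is in infinitely many `V j` with `j ∈ J`, below some condition `y ∈ V j`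
for some `j ≥ N''` in `J`, so `y ∈ O k` for some `k` in block `j`, and `k ≥ j ≥ N''` is in `T`; in
the same way some `k ≥ N''` with `y ∈ O k` is not in `T`. -/
theorem exists_bound (hK : ∀ F : GG P, Key (In F) (nm F (onT ℕ))) {Y D : BSet (RO P)}
    {O : ℕ → BSet (RO P)} {q : P}
    (hS : Fc q fun F => Split (In F) (nm F (onT ℕ)) (nm F Y) (nm F D))
    (hop : ∀ k, Fc q fun F => SP45.IsOpen (In F) (nm F Y) (nm F D) (nm F (O k)))
    (hinf : ∀ r ≤ q, ∀ y, (Fc r fun F => In F (nm F y) (nm F Y)) →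
      Inf r fun k F => In F (nm F y) (nm F (O k))) :
    ∃ r ≤ q, ∃ γ, Bdd r Y O γ := by
  obtain ⟨U, hU⟩ := exists_UO Y O
  obtain ⟨r1, hr1, h | ⟨N, hN⟩⟩ := exists_proper hU q
  · exact ⟨r1, hr1, h⟩
  obtain ⟨r2, hr2, h | ⟨A, hA1, hA2, hT⟩⟩ := key_use hK (Y := Y) (O := O) r1
  · exact ⟨r2, hr2.trans hr1, h⟩
  exfalso
  have hr2q : r2 ≤ q := hr2.trans hr1
  -- the large elements of `A`
  obtain ⟨A', hA'⟩ := MAx.exists_sep (b := (⊤ : RO P)) A (P := fun F a => ¬ In F a (nm F (on N)))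
    (fun a => (RpP.mem _ _).not)
  have hA'1 : Fc r2 fun F => Sub (In F) (nm F A') (nm F (onT ℕ)) := fun F hF x hx =>
    hA1 F hF x ((hA' F x).1 hx).1
  have hA'2 : Fc r2 fun F => ∀ n, In F n (nm F (onT ℕ)) → ∃ a, In F a (nm F A') ∧ In F n a := by
    refine Fc.all fun n => ?_
    have hR : RpP fun F : GG P => ∃ a, In F a (nm F A') ∧ In F (nm F n) a :=
      RpP.ex fun a => (RpP.mem _ _).and (RpP.mem _ _)
    refine Fc.imp (RpP.mem _ _) hR fun r hr hn => ?_
    refine Fc.dense hR fun s hs => ?_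
    obtain ⟨t, ht, m, hm⟩ := fc_nat (hn.mono hs)
    have htr : t ≤ r2 := ht.trans (hs.trans hr)
    obtain ⟨a, ha⟩ := Fc.name (q := t)
      (A := fun F a => In F a (nm F A) ∧ In F (nm F (on (max m N))) a)
      (fun a => (RpP.mem _ _).and (RpP.mem _ _))
      (fun F hF => hA2.mono htr F hF _ (nat_mem _ F))
    obtain ⟨u, hu, a0, ha0⟩ := fc_nat (a := a) (q := t)
      (fun F hF => hA1.mono htr F hF _ (ha F hF).1)
    refine ⟨u, hu.trans ht, fun F hF => ⟨nm F a, ?_, ?_⟩⟩
    · have e : nm F a = nm F (on a0) := ha0 F hF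
      have h1 := ha.mono hu F hF
      have h2 : In F (nm F (on (max m N))) (nm F a) := h1.2
      rw [e, nat_lt] at h2
      refine (hA' F _).2 ⟨h1.1, ?_⟩
      rw [e, nat_lt]
      have := le_max_right m N
      omega
    · have e : nm F a = nm F (on a0) := ha0 F hF
      have e' : nm F n = nm F (on m) := hm.mono hu F hF
      have h2 : In F (nm F (on (max m N))) (nm F a) := (ha.mono hu F hF).2
      rw [e, nat_lt] at h2
      rw [e, e', nat_lt]
      have := le_max_left m N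
      omega
  obtain ⟨α, ha1, ha2, -, ha4, ha5⟩ := exists_blocks (Y := Y) (A := A') (V := U)
    (h := fun m => on m) (q := r2)
    (fun m n F _ x hx => ((hU m n F x).1 hx).1)
    (fun m n F _ x hx => by
      obtain ⟨h1, k, h2, h3, h4⟩ := (hU m n F x).1 hx
      exact (hU m (n + 1) F x).2 ⟨h1, k, by omega, h3, h4⟩)
    (fun m r hr y hy => by
      obtain ⟨s, hs, k, hk, h1⟩ := hinf r (hr.trans hr2q) y hy r le_rfl m
      exact ⟨s, hs, k + 1, fun F hF => (hU m (k + 1) F _).2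
        ⟨hy.mono hs F hF, k, Nat.lt_succ_self k, hk, h1 F hF⟩⟩)
    hA'1 hA'2
    (fun m n => by
      by_cases hm : N ≤ m
      · exact fun F hF _ => (hN m hm n).mono hr2 F hF
      · intro F hF h1
        exact absurd (nat_lt.2 (by omega)) ((hA' F _).1 h1).2)
    (fun m F _ => nat_mem m F)
  have hαω : ∀ j, Fc r2 fun F => In F (nm F (α j)) (nm F (onT ℕ)) := fun j F hF =>
    hA'1 F hF _ (ha1 j F hF)
  have hαA : ∀ j, Fc r2 fun F => In F (nm F (α j)) (nm F A) := fun j F hF =>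
    ((hA' F _).1 (ha1 j F hF)).1
  -- the blocks are open
  have hop' : ∀ j, Fc r2 fun F =>
      SP45.IsOpen (In F) (nm F Y) (nm F D) (nm F (blk U (α j) (α (j + 1)))) := by
    intro j
    refine Fc.dense (rpIsOpen _ _ _) fun r hr => ?_
    obtain ⟨t1, ht1, m, hm⟩ := fc_nat ((hαω j).mono hr)
    obtain ⟨t2, ht2, n, hn⟩ := fc_nat ((hαω (j + 1)).mono (ht1.trans hr))
    refine ⟨t2, ht2.trans ht1, fun F hF => ?_⟩
    have e1 : nm F (α j) = nm F (on m) := hm.mono ht2 F hF
    have e2 : nm F (α (j + 1)) = nm F (on n) := hn F hF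
    beta_reduce
    rw [blk_on e1 e2]
    refine ⟨fun x hx => ((hU m n F x).1 hx).1, fun x hx => ?_⟩
    obtain ⟨_, k, h2, h3, h4⟩ := (hU m n F x).1 hx
    have h5 := (hop k).mono (ht2.trans (ht1.trans (hr.trans hr2q))) F hF
    obtain ⟨W, hW1, hW2, hW3⟩ := h5.2 x h4
    exact ⟨W, hW1, hW2, fun z hz => (hU m n F z).2 ⟨h5.1 z (hW3 z hz), k, h2, h3, hW3 z hz⟩⟩
  -- every point is in infinitely many blocks
  have hinf' : ∀ r ≤ r2, ∀ y, (Fc r fun F => In F (nm F y) (nm F Y)) →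
      Inf r fun j F => In F (nm F y) (nm F (blk U (α j) (α (j + 1)))) := by
    intro r hr y hy r' hr' N'
    obtain ⟨s, hs, m0, hm0⟩ := fc_nat ((hαω N').mono (hr'.trans hr))
    obtain ⟨s1, hs1, k, hk, hyk⟩ := hinf r (hr.trans hr2q) y hy s (hs.trans hr') m0
    have hs1' : s1 ≤ r2 := hs1.trans (hs.trans (hr'.trans hr))
    obtain ⟨s2, hs2, v, hv⟩ := helper23_decide hαω hs1' (k + 2)
    have hN' : N' ≤ m0 := le_alpha hαω ha2 (hs.trans (hr'.trans hr)) hm0
    have hvN : v N' = m0 := helper23_eq (hv N' (by omega)) (hm0.mono (hs2.trans hs1))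
    have hvK : k + 1 ≤ v (k + 1) :=
      le_alpha hαω ha2 (hs2.trans hs1') (hv (k + 1) (by omega))
    obtain ⟨j, hj1, hj2, hj3, hj4⟩ := helper23_find (v := v) (a := N') (k := k) (by omega)
      (k + 1) (by omega) (by omega)
    refine ⟨s2, hs2.trans (hs1.trans hs), j, hj1, fun F hF => ?_⟩
    have e1 : nm F (α j) = nm F (on (v j)) := hv j (by omega) F hF
    have e2 : nm F (α (j + 1)) = nm F (on (v (j + 1))) := hv (j + 1) (by omega) F hF
    beta_reduce
    rw [blk_on e1 e2, hU]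
    exact ⟨hy.mono (hs2.trans (hs1.trans (hs.trans hr'))) F hF, k, hj4, hj3, hyk.mono hs2 F hF⟩
  obtain ⟨J, hJ1, hJ2⟩ := exists_index (V := fun j => blk U (α j) (α (j + 1)))
    (hS.mono hr2q) hop' ha5 ha4 hinf'
  obtain ⟨T, hT1, hT2⟩ := exists_T (J := J) hαω ha2
  obtain ⟨s, hs, y, hy, N'', h⟩ := hT T (sat_T hαω ha2 hαA hT1 hT2)
  rcases h with h | h
  · obtain ⟨t, ht, j, hj, htj⟩ := hJ2 s hs y hy s le_rfl N''
    obtain ⟨t', ht', k, hk, hk'⟩ := helper23_pick hU hαω ha2 (ht.trans hs)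
      (fun F hF => (htj F hF).2)
    obtain ⟨F, hF⟩ := exists_gg t'
    have h1 := hk' F hF
    have h2 : F.1.U (T k) := (h k (hj.trans hk)).mono (ht'.trans ht) F hF h1.1
    have h3 := ((hT1 j k).mono (ht'.trans (ht.trans hs)) F hF h1.2.1 h1.2.2).1 h2
    exact (htj.mono ht' F hF).1 h3
  · obtain ⟨t, ht, j, hj, htj⟩ := hJ1 s hs y hy s le_rfl N''
    obtain ⟨t', ht', k, hk, hk'⟩ := helper23_pick hU hαω ha2 (ht.trans hs)
      (fun F hF => (htj F hF).2)
    obtain ⟨F, hF⟩ := exists_gg t'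
    have h1 := hk' F hF
    have h2 : ¬ F.1.U (T k) := (h k (hj.trans hk)).mono (ht'.trans ht) F hF h1.1
    have h3 := ((hT1 j k).mono (ht'.trans (ht.trans hs)) F hF h1.2.1 h1.2.2).2
      (htj.mono ht' F hF).1
    exact h2 h3

end Pool.Agent.IN45
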