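import Pool.Agent.IN45.Seq
import Pool.Agent.IN45.Tub
import Pool.Agent.IN45.Cpt
import Pool.Agent.IN45.Shr
import Pool.Agent.IN45.OpE
import Pool.Agent.IN45.OpO
import Pool.Agent.IN45.Unb
import Pool.Agent.IN45.Hsq
import Pool.Agent.IN45.Bdd
import Pool.Agent.IN45.Asm

/-!
# The principle implies that products with compact spaces split (module ASM2)
-/

namespace Pool.Agent.IN45

open Classical Set Pool.Agent Pool.Agent.LadderTree Pool.Agent.Forcing Pool.Agent.MAx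
open Pool.Agent.BVM (BSet UF eqv memv chk Congr le_of_uf Disc OPair FunOn op on onT)
open Pool.Agent.OG45 Pool.Agent.SP45

variable {P : Type} [Preorder P]

/-- the empty case: `Z` is empty, so that `C` is empty (a member would be an open subset of `Z`,
hence equal to `Z`) -/
theorem split_empty {Z D C : BSet (RO P)} {q : P}
    (hC : Fc q fun F => Large (In F) (nm F (onT ℕ)) (nm F Z) (nm F D) (nm F C))
    (hne : Fc q fun F => ¬ ∃ z, In F z (nm F Z)) :
    Fc q fun F => ∃ V W, (∀ U, In F U (nm F C) ↔ (In F U V ∨ In F U W)) ∧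
      (∀ U, In F U V → ¬ In F U W) ∧
      (∃ V', Sub (In F) V' V ∧ Large (In F) (nm F (onT ℕ)) (nm F Z) (nm F D) V') ∧
      ∃ W', Sub (In F) W' W ∧ Large (In F) (nm F (onT ℕ)) (nm F Z) (nm F D) W' := by
  intro F hF
  have h1 := hC F hF
  have h2 := hne F hF
  beta_reduce at h1 h2
  have h3 : ∀ U, ¬ In F U (nm F C) := by
    intro U hU
    apply h1.1.2.2
    have : U = nm F Z := ext_nm fun z => by
      constructor
      · exact fun hz => (h1.1.1 U hU).1 z hz
      · exact fun hz => absurd ⟨z, hz⟩ h2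
    rwa [← this]
  refine ⟨nm F C, nm F C, fun U => ?_, fun U hU => absurd hU (h3 U), ⟨_, fun _ h => h, h1⟩,
    ⟨_, fun _ h => h, h1⟩⟩
  rw [or_self]

theorem split_main (hK : ∀ F : GG P, Key (In F) (nm F (onT ℕ))) {X A Y B Z D C : BSet (RO P)}
    {q : P} (hX : Fc q fun F => Space (In F) (nm F (onT ℕ)) (nm F X) (nm F A))
    (hc : Fc q fun F => Compact (In F) (nm F (onT ℕ)) (nm F X) (nm F A))
    (hY : Fc q fun F => Space (In F) (nm F (onT ℕ)) (nm F Y) (nm F B))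
    (hS : Fc q fun F => Split (In F) (nm F (onT ℕ)) (nm F Y) (nm F B))
    (hZ : Fc q fun F => ProdSpace (In F) (nm F Z) (nm F D) (nm F X) (nm F A) (nm F Y) (nm F B))
    (hC : Fc q fun F => Large (In F) (nm F (onT ℕ)) (nm F Z) (nm F D) (nm F C)) :
    ∃ r ≤ q, Fc r fun F => ∃ V W, (∀ U, In F U (nm F C) ↔ (In F U V ∨ In F U W)) ∧
      (∀ U, In F U V → ¬ In F U W) ∧
      (∃ V', Sub (In F) V' V ∧ Large (In F) (nm F (onT ℕ)) (nm F Z) (nm F D) V') ∧
      ∃ W', Sub (In F) W' W ∧ Large (In F) (nm F (onT ℕ)) (nm F Z) (nm F D) W' := by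
  obtain ⟨r, hr, hne | hne⟩ := fc_decide (RpP.ex (P := fun F z => In F z (nm F Z))
    fun z => RpP.mem z Z) q
  swap
  · exact ⟨r, hr, split_empty (hC.mono hr) hne⟩
  replace hX := hX.mono hr
  replace hc := hc.mono hr
  replace hY := hY.mono hr
  replace hS := hS.mono hr
  replace hZ := hZ.mono hr
  replace hC := hC.mono hr
  obtain ⟨ξ, hξ⟩ := exists_enum (q := r) (D := A) (fun F hF => (hX F hF).ctb)
  obtain ⟨β, hβ⟩ := exists_enum (q := r) (D := B) (fun F hF => (hY F hF).ctb)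
  obtain ⟨δ, hδ⟩ := enum_prod hZ hξ hβ
  obtain ⟨W, hW, hWne, hWinf⟩ := exists_cover_seq hδ hC hne
  have hWo : ∀ n, Fc r fun F => SP45.IsOpen (In F) (nm F Z) (nm F D) (nm F (W n)) :=
    fun n F hF => (hC F hF).1.1 _ (hW n F hF)
  obtain ⟨G, hG⟩ := exists_G X Y W
  have hGo := isOpen_G hX hc hY hZ hWo hG
  have hGc : ∀ i, ∀ r' ≤ r, ∀ y, (Fc r' fun F => In F (nm F y) (nm F Y)) →
      ∃ s ≤ r', ∃ m, Fc s fun F => In F (nm F y) (nm F (G i m)) := fun i r' hr' y hy =>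
    cover_G hX hc hZ hWo hWinf hG hr' hy i
  have hGm : ∀ i m, Fc r fun F => Sub (In F) (nm F (G i m)) (nm F (G i (m + 1))) := by
    intro i m F _ y hy
    rw [hG] at hy ⊢
    refine ⟨hy.1, fun x hx => ?_⟩
    obtain ⟨j, hj, hij, h⟩ := hy.2 x hx
    exact ⟨j, hj.trans (Nat.lt_succ_self m), hij, h⟩
  have hGa : ∀ i m, Fc r fun F => Sub (In F) (nm F (G (i + 1) m)) (nm F (G i m)) := by
    intro i m F _ y hy
    rw [hG] at hy ⊢
    refine ⟨hy.1, fun x hx => ?_⟩
    obtain ⟨j, hj, hij, h⟩ := hy.2 x hx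
    exact ⟨j, hj, (Nat.le_succ i).trans hij, h⟩
  choose V hV1 hV2 hV3 hV4 hV5 using fun n => exists_shrink hβ hY (hGo n) (hGm n) (hGc n)
  obtain ⟨E, hE1, hE2, hE3, hE4, hE5, hE6⟩ := exists_E hY hV1 hV2 hV3 hV5
  obtain ⟨O, hO1, hO2, hO3⟩ := exists_O hY hE1 hE2 hE3 hE5 hE6
  obtain ⟨s, hs, γ, hγ⟩ := exists_bound hK hS hO1 hO3
  obtain ⟨h, hh1, hh2⟩ := exists_h hγ (fun n m F hF =>
    Way.sub (hE1 n m F (F.1.mono (pt_mono hs) hF)).1 (hE3 n m F (F.1.mono (pt_mono hs) hF)))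
    (fun n m => (hE5 n m).mono hs) (fun k => (hO2 k).mono hs)
  obtain ⟨t, ht, α, J, hα1, hα2, hJ1, hJ2⟩ := exists_alpha (hS.mono hs)
    (fun i m => (hGo i m).mono hs) (fun i m => (hGm i m).mono hs) (fun i m => (hGa i m).mono hs)
    (fun i r' hr' => hGc i r' (hr'.trans hs)) hh1 (fun s' hs' y hy => by
      obtain ⟨t, ht, N, hN⟩ := hh2 s' hs' y hy
      refine ⟨t, ht, N, fun i hi => ?_⟩
      refine Fc.dense (RpP.mem _ _) fun u hu => ?_
      obtain ⟨v, hv, m, hm⟩ := fc_nat ((hh1 i).mono (hu.trans (ht.trans hs')))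
      refine ⟨v, hv, fun F hF => ?_⟩
      have h1 := (hN i hi).mono (hv.trans hu) F hF
      have h2 : nm F (h i) = nm F (on m) := hm F hF
      beta_reduce at h1 ⊢
      rw [ev_on h2] at h1 ⊢
      exact hV4 i m F (F.1.mono (pt_mono (hv.trans (hu.trans (ht.trans (hs'.trans hs))))) hF) _
        (hE4 i m F (F.1.mono (pt_mono (hv.trans (hu.trans (ht.trans (hs'.trans hs))))) hF) _ h1))
  obtain ⟨T, hT1, -⟩ := exists_T (J := J) hα1 hα2
  have hZ' : Fc t fun F => IsProd (In F) (nm F Z) (nm F X) (nm F Y) :=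
    fun F hF => (hZ.mono (ht.trans hs) F hF).1
  refine ⟨t, ht.trans (hs.trans hr), split_of_index (J := T) (hC.mono (ht.trans hs))
    (fun n => (hW n).mono (ht.trans hs)) (fun m n hmn => (hWne m n hmn).mono (ht.trans hs))
    (fun s' hs' z hz => ?_) (fun s' hs' z hz => ?_)⟩
  · have := inf_T hZ' hG hα1 hα2 hT1 true (fun s'' hs'' y hy => by simpa using hJ1 s'' hs'' y hy)
      hs' hz
    simpa using this
  · have := inf_T hZ' hG hα1 hα2 hT1 false (fun s'' hs'' y hy => by simpa using hJ2 s'' hs'' y hy)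
      hs' hz
    simpa using this

mk_iff_of_inductive_prop Pool.Agent.SP45.Space Pool.Agent.IN45.space_iff'

theorem rpSpace (w X D : BSet (RO P)) :
    RpP fun F : GG P => Space (In F) (nm F w) (nm F X) (nm F D) := by
  simp only [space_iff']
  repeat' (first
    | exact RpP.mem _ _ | exact RpP.eq _ _ | exact rpSub _ _ | exact rpCardLE _ _
    | refine RpP.and ?_ ?_ | refine RpP.ex fun _ => ?_ | refine RpP.all fun _ => ?_
    | refine RpP.not ?_ | refine RpP.imp ?_ ?_)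

theorem rpCompact (w X D : BSet (RO P)) :
    RpP fun F : GG P => Compact (In F) (nm F w) (nm F X) (nm F D) := by
  unfold Compact
  repeat' (first
    | exact RpP.mem _ _ | exact RpP.eq _ _ | exact rpSub _ _ | exact rpIsOpen _ _ _
    | exact rpFinite _ _
    | refine RpP.and ?_ ?_ | refine RpP.ex fun _ => ?_ | refine RpP.all fun _ => ?_
    | refine RpP.imp ?_ ?_)

theorem rpProdSpace (Z D X A Y B : BSet (RO P)) :
    RpP fun F : GG P => ProdSpace (In F) (nm F Z) (nm F D) (nm F X) (nm F A) (nm F Y)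
      (nm F B) := by
  unfold ProdSpace
  repeat' (first
    | exact RpP.mem _ _ | exact RpP.eq _ _ | exact rpSub _ _ | exact rpProd _ _ _
    | refine RpP.and ?_ ?_ | refine RpP.ex fun _ => ?_ | refine RpP.all fun _ => ?_
    | refine RpP.iff ?_ ?_)

/-- the quotient models satisfy the positive answer -/
theorem product_splits (hK : ∀ F : GG P, Key (In F) (nm F (onT ℕ))) (F : GG P)
    (X A Y B Z D : Md F) (hX : Space (In F) (nm F (onT ℕ)) X A)
    (hc : Compact (In F) (nm F (onT ℕ)) X A) (hY : Space (In F) (nm F (onT ℕ)) Y B)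
    (hS : Split (In F) (nm F (onT ℕ)) Y B) (hZ : ProdSpace (In F) Z D X A Y B) :
    Split (In F) (nm F (onT ℕ)) Z D := by
  obtain ⟨X, rfl⟩ := exists_nm X
  obtain ⟨A, rfl⟩ := exists_nm A
  obtain ⟨Y, rfl⟩ := exists_nm Y
  obtain ⟨B, rfl⟩ := exists_nm B
  obtain ⟨Z, rfl⟩ := exists_nm Z
  obtain ⟨D, rfl⟩ := exists_nm D
  refine gg_imp (A := fun F : GG P => Space (In F) (nm F (onT ℕ)) (nm F X) (nm F A) ∧
    Compact (In F) (nm F (onT ℕ)) (nm F X) (nm F A) ∧
    Space (In F) (nm F (onT ℕ)) (nm F Y) (nm F B) ∧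
    Split (In F) (nm F (onT ℕ)) (nm F Y) (nm F B) ∧
    ProdSpace (In F) (nm F Z) (nm F D) (nm F X) (nm F A) (nm F Y) (nm F B))
    (B := fun F : GG P => Split (In F) (nm F (onT ℕ)) (nm F Z) (nm F D))
    ((rpSpace _ _ _).and ((rpCompact _ _ _).and ((rpSpace _ _ _).and ((rpSplit _ _ _).and
      (rpProdSpace _ _ _ _ _ _))))) (rpSplit _ _ _) (fun q hq => ?_) F ⟨hX, hc, hY, hS, hZ⟩
  refine Fc.all (A := fun F C => Large (In F) (nm F (onT ℕ)) (nm F Z) (nm F D) C →
    ∃ V W, (∀ U, In F U C ↔ (In F U V ∨ In F U W)) ∧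
      (∀ U, In F U V → ¬ In F U W) ∧
      (∃ V', Sub (In F) V' V ∧ Large (In F) (nm F (onT ℕ)) (nm F Z) (nm F D) V') ∧
      ∃ W', Sub (In F) W' W ∧ Large (In F) (nm F (onT ℕ)) (nm F Z) (nm F D) W') fun C =>
    Fc.imp (rpLarge _ _ _ _) (rpSplitC _ _ _ _) fun r hr hC =>
      Fc.dense (rpSplitC _ _ _ _) fun s hs => ?_
  have hq' := hq.mono (hs.trans hr)
  exact split_main hK (fun F hF => (hq' F hF).1) (fun F hF => (hq' F hF).2.1)
    (fun F hF => (hq' F hF).2.2.1) (fun F hF => (hq' F hF).2.2.2.1)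
    (fun F hF => (hq' F hF).2.2.2.2) (hC.mono hs)

end Pool.Agent.IN45
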