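import Pool.Agent.IN45.Top

/-!
# Normality (module NRM)
-/

namespace Pool.Agent.IN45

open Classical Set Pool.Agent Pool.Agent.LadderTree Pool.Agent.Forcing Pool.Agent.MAx
open Pool.Agent.BVM (BSet UF eqv memv chk Congr le_of_uf Disc OPair FunOn op on onT)
open Pool.Agent.OG45 Pool.Agent.SP45

variable {P : Type} [Preorder P]

/-- the points of `S` which are not in the closures of the sets `β i`, `i ≤ n`, with `I' i` -/
def NrmC {M : Type*} (E : M → M → Prop) (Y D A U : M) (β : ℕ → M) (n : ℕ) (z : M) : Prop :=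
  E (β n) D ∧ Way E Y D (β n) U ∧ ∀ i < n + 1, (∀ y, Cl E Y D A y → ¬ Cl E Y D (β i) y) →
    ¬ Cl E Y D (β i) z

theorem nrm_rp (Y D A U : BSet (RO P)) (β : ℕ → BSet (RO P)) (n : ℕ) (z : BSet (RO P)) :
    RpP fun F : GG P => NrmC (In F) (nm F Y) (nm F D) (nm F A) (nm F U) (fun i => nm F (β i)) n
      (nm F z) := by
  unfold NrmC
  refine (RpP.mem _ _).and ((rpWay _ _ _ _).and (RpP.allFin (fun i => ?_) (n + 1)))
  exact (RpP.all fun y => (rpCl _ _ _ _).imp (rpCl _ _ _ _).not).imp (rpCl _ _ _ _).not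

theorem nrm_open {M : Type*} {E : M → M → Prop} {w Y D A U V : M} (hS : Space E w Y D)
    {β : ℕ → M} {n : ℕ} (hV : ∀ z, E z V ↔ (E z (β n) ∧ NrmC E Y D A U β n z)) :
    SP45.IsOpen E Y D V := by
  refine ⟨fun x hx => ?_, fun x hx => ?_⟩
  · obtain ⟨h1, h2, _⟩ := (hV x).1 hx
    exact hS.sub _ h2 x h1
  · obtain ⟨h1, h2, h3, h4⟩ := (hV x).1 hx
    obtain ⟨W, hW, hxW, h5, h6⟩ := top_nbhd_fin hS h2 h1 β
      (fun i => ∀ y, Cl E Y D A y → ¬ Cl E Y D (β i) y) (n + 1) h4
    refine ⟨W, hW, hxW, fun z hz => (hV z).2 ⟨h5 z hz, h2, h3, fun i hi hp hc => ?_⟩⟩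
    obtain ⟨u, hu, hu'⟩ := hc.2 W hW hz
    exact h6 i hi hp u hu hu'

/-- module NRM, normality: between the closure of `A` and the open set `U` there is an open set
with its closure.
For standard `j` let `I j` be the statement `Way (β j) U` and `I' j` the statement that no point is
in the closures of `A` and of `β j`.  The name `V` is the union (`unN`) of the names
`V j = {x ∈ β j : I j and, for all i ≤ j, I' i implies that x is not in the closure of β i}`
(`exists_sep`, `RpP.allFin`; also require `β j ∈ D`, to be on the safe side).  Each `V j` is open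
(at `F`; finite induction, `isOpen_sdiff_cl`, or directly), hence `V` is.
`Way A V`: let `r ≤ q` force that `x` is in the closure of `A`.  Then `x ∈ U`, and `exists_way`
gives a member of the base, decided to be `β j`, with `x ∈ β j` and `I j`; if `I' i` then `x` is
not in the closure of `β i`.  So `x ∈ V j`.
`Way V U`: let `r ≤ q` force that `x ∈ Y` is not in `U`.  Then `x` is not in the closure of `A`
(`Way A U`), so some member `S` of the base contains `x` and no point of `A`; the set of all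
points of `S` is open and `exists_way` gives a member of the base, decided to be `β i`, with
`x ∈ β i` and `Way (β i) S`; so `I' i` (a point in the closures of `A` and of `β i` would be
in `S`, so that `S` would meet `A`).  Now `x` is not in the closures of
the finitely many `β j` with `I j`, `j < i` (since `Way (β j) U`); so there is a member `S'` of the
base with `x ∈ S'`, `S' ⊆ β i`, which is disjoint from these `β j`.  `S'` is disjoint from `V`: for
`j ≥ i`, points of `V j` are not in the closure of `β i`. -/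
theorem exists_between {Y D : BSet (RO P)} {β : ℕ → BSet (RO P)} {q : P} (hE : Enum q D β)
    (hS : Fc q fun F => Space (In F) (nm F (onT ℕ)) (nm F Y) (nm F D)) {A U : BSet (RO P)}
    (hA : Fc q fun F => Sub (In F) (nm F A) (nm F Y))
    (hU : Fc q fun F => SP45.IsOpen (In F) (nm F Y) (nm F D) (nm F U))
    (hAU : Fc q fun F => Way (In F) (nm F Y) (nm F D) (nm F A) (nm F U)) :
    ∃ V : BSet (RO P), (Fc q fun F => SP45.IsOpen (In F) (nm F Y) (nm F D) (nm F V)) ∧
      (Fc q fun F => Way (In F) (nm F Y) (nm F D) (nm F A) (nm F V)) ∧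
      Fc q fun F => Way (In F) (nm F Y) (nm F D) (nm F V) (nm F U) := by
  -- the names of the sets `V j`
  have hex : ∀ n : ℕ, ∃ v : BSet (RO P), ∀ (F : GG P) (z : Md F), In F z (nm F v) ↔
      (In F z (nm F (β n)) ∧ NrmC (In F) (nm F Y) (nm F D) (nm F A) (nm F U)
        (fun i => nm F (β i)) n z) := fun n =>
    exists_sep (b := (⊤ : RO P)) (β n) (P := fun F z => NrmC (In F) (nm F Y) (nm F D) (nm F A)
      (nm F U) (fun i => nm F (β i)) n z) (fun z => nrm_rp Y D A U β n z)
  choose v hv using hex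
  have hop : ∀ n, Fc q fun F => SP45.IsOpen (In F) (nm F Y) (nm F D) (nm F (v n)) :=
    fun n F hF => nrm_open (β := fun i => nm F (β i)) (n := n) (hS F hF) (hv n F)
  refine ⟨unN v, ?_, ?_, ?_⟩
  · -- the union is open
    have hRp : ∀ x : BSet (RO P), RpP fun F : GG P => In F (nm F x) (nm F Y) ∧
        ∃ W, In F W (nm F D) ∧ In F (nm F x) W ∧ Sub (In F) W (nm F (unN v)) := fun x =>
      (RpP.mem _ _).and (RpP.ex fun W => (RpP.mem W _).and ((RpP.mem _ W).and (rpSub W _)))
    have h1 : Fc q fun F => ∀ x, In F x (nm F (unN v)) → In F x (nm F Y) ∧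
        ∃ W, In F W (nm F D) ∧ In F x W ∧ Sub (In F) W (nm F (unN v)) := by
      refine Fc.all fun x => Fc.imp (RpP.mem _ _) (hRp x) fun r hr hx => ?_
      refine Fc.dense (hRp x) fun r1 hr1 => ?_
      obtain ⟨s, hs, n, hn⟩ := fc_unN (hx.mono hr1)
      refine ⟨s, hs, fun F hF => ?_⟩
      have h2 := hn F hF
      have h3 := (hop n).mono (hs.trans (hr1.trans hr)) F hF
      beta_reduce at h2 h3
      obtain ⟨W, hW, hxW, h4⟩ := h3.2 _ h2
      exact ⟨h3.1 _ h2, W, hW, hxW, fun z hz => in_unN (h4 z hz)⟩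
    exact fun F hF => ⟨fun x hx => (h1 F hF x hx).1, fun x hx => (h1 F hF x hx).2⟩
  · -- the closure of `A` is contained in the union
    unfold Way
    refine Fc.all fun x => Fc.imp (rpCl _ _ _ _) (RpP.mem _ _) fun r hr hx => ?_
    refine Fc.dense (RpP.mem _ _) fun r1 hr1 => ?_
    obtain ⟨W, hW⟩ := Fc.name (q := r1) (A := fun F W => In F W (nm F D) ∧ In F (nm F x) W ∧
        Way (In F) (nm F Y) (nm F D) W (nm F U))
      (fun W => (RpP.mem W _).and ((RpP.mem _ W).and (rpWay _ _ _ _))) (fun F hF => by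
        have h1 := hU.mono (hr1.trans hr) F hF
        have h2 := hAU.mono (hr1.trans hr) F hF
        have h3 := hx.mono hr1 F hF
        have h4 := hS.mono (hr1.trans hr) F hF
        exact exists_way h4 h1 (h2 _ h3))
    obtain ⟨s, hs, j, hj⟩ := hE.all r1 (hr1.trans hr) W (fun F hF => (hW F hF).1)
    refine ⟨s, hs, fun F hF => ?_⟩
    have h1 := hj F hF
    have h2 := hW.mono hs F hF
    have h3 := hx.mono (hs.trans hr1) F hF
    beta_reduce at h1 h2 h3
    rw [h1] at h2
    exact in_unN ((hv j F _).2 ⟨h2.2.1, h2.1, h2.2.2, fun i _ hp => hp _ h3⟩)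
  · -- the closure of the union is contained in `U`
    unfold Way
    refine Fc.all fun x => Fc.imp (rpCl _ _ _ _) (RpP.mem _ _) fun r hr hx => ?_
    by_contra hcon
    obtain ⟨r1, hr1, hxU⟩ := not_fc (RpP.mem _ _) hcon
    -- a neighbourhood of `x` whose closure is disjoint from the closure of `A`
    obtain ⟨W, hW⟩ := Fc.name (q := r1) (A := fun F W => In F W (nm F D) ∧ In F (nm F x) W ∧
        ∀ y, Cl (In F) (nm F Y) (nm F D) (nm F A) y → ¬ Cl (In F) (nm F Y) (nm F D) W y)
      (fun W => (RpP.mem W _).and ((RpP.mem _ W).and (RpP.all fun y => (rpCl _ _ _ _).imp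
        (rpCl _ _ _ _).not))) (fun F hF => by
        have h1 := hAU.mono (hr1.trans hr) F hF
        have h3 := hx.mono hr1 F hF
        have h4 := hS.mono (hr1.trans hr) F hF
        have h5 := hxU F hF
        beta_reduce at h1 h3 h4 h5
        obtain ⟨S, hSD, hxS, h6⟩ := top_exists_disj h3.1 fun h => h5 (h1 _ h)
        obtain ⟨W, hW, hxW, h7⟩ := exists_way h4 (isOpen_base h4 hSD) hxS
        refine ⟨W, hW, hxW, fun y hy hc => ?_⟩
        obtain ⟨u, hu, hu'⟩ := hy.2 S hSD (h7 y hc)
        exact h6 u hu hu')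
    obtain ⟨s, hs, i, hi⟩ := hE.all r1 (hr1.trans hr) W (fun F hF => (hW F hF).1)
    have hsq : s ≤ q := hs.trans (hr1.trans hr)
    -- a smaller neighbourhood which meets the union
    have h8 : Fc s fun F => ∃ z, In F z (nm F (unN v)) ∧ ∃ S', In F S' (nm F D) ∧ In F z S' ∧
        Sub (In F) S' (nm F (β i)) ∧ ∀ j < i, Way (In F) (nm F Y) (nm F D) (nm F (β j)) (nm F U) →
          ∀ y, In F y S' → ¬ In F y (nm F (β j)) := by
      intro F hF
      have h1 := hi F hF
      have h2 := hW.mono hs F hF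
      have h3 := hx.mono (hs.trans hr1) F hF
      have h4 := hS.mono hsq F hF
      have h5 := hxU.mono hs F hF
      beta_reduce at h1 h2 h3 h4 h5
      rw [h1] at h2
      obtain ⟨S', hS', hxS', h6, h7⟩ := top_nbhd_fin h4 h2.1 h2.2.1 (fun j => nm F (β j))
        (fun j => Way (In F) (nm F Y) (nm F D) (nm F (β j)) (nm F U)) i
        (fun j _ hp hc => h5 (hp _ hc))
      obtain ⟨z, hz, hz'⟩ := h3.2 S' hS' hxS'
      exact ⟨z, hz', S', hS', hz, h6, h7⟩
    have hRp2 : ∀ z : BSet (RO P), RpP fun F : GG P => ∃ S', In F S' (nm F D) ∧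
        In F (nm F z) S' ∧ Sub (In F) S' (nm F (β i)) ∧
        ∀ j < i, Way (In F) (nm F Y) (nm F D) (nm F (β j)) (nm F U) →
          ∀ y, In F y S' → ¬ In F y (nm F (β j)) := by
      intro z
      refine RpP.ex fun S' => (RpP.mem _ _).and ((RpP.mem _ _).and ((rpSub _ _).and ?_))
      exact RpP.allFin (fun j => (rpWay _ _ _ _).imp (RpP.all fun y => (RpP.mem _ _).imp
        (RpP.mem _ _).not)) i
    obtain ⟨z, hz⟩ := Fc.name (q := s) (A := fun F z => In F z (nm F (unN v)) ∧
        ∃ S', In F S' (nm F D) ∧ In F z S' ∧ Sub (In F) S' (nm F (β i)) ∧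
        ∀ j < i, Way (In F) (nm F Y) (nm F D) (nm F (β j)) (nm F U) →
          ∀ y, In F y S' → ¬ In F y (nm F (β j)))
      (fun z => (RpP.mem _ _).and (hRp2 z)) h8
    obtain ⟨t, ht, n, hn⟩ := fc_unN (q := s) (x := z) (u := v) (fun F hF => (hz F hF).1)
    obtain ⟨F, hF⟩ := exists_gg t
    have hFs : F.1.U (pt s) := F.1.mono (pt_mono ht) hF
    have h1 := hi F hFs
    have h2 := hW.mono hs F hFs
    have h4 := hS.mono hsq F hFs
    have h5 := hz F hFs
    have h6 := hn F hF
    beta_reduce at h1 h2 h4 h5 h6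
    rw [h1] at h2
    obtain ⟨S', hS', hzS', h9, h10⟩ := h5.2
    obtain ⟨h11, h12, h13, h14⟩ := (hv n F _).1 h6
    rcases Nat.lt_or_ge n i with h15 | h15
    · exact h10 n h15 h13 _ hzS' h11
    · exact h14 i (Nat.lt_succ_of_le h15) h2.2.2 (cl_of_mem (h4.sub _ h2.1 _ (h9 _ hzS'))
        (h9 _ hzS'))

end Pool.Agent.IN45
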