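import Pool.Agent.IN45.KeyU

/-!
# Unions which are the whole space (module PRP)
-/

namespace Pool.Agent.IN45

open Classical Set Pool.Agent Pool.Agent.LadderTree Pool.Agent.Forcing Pool.Agent.MAx
open Pool.Agent.BVM (BSet UF eqv memv chk Congr le_of_uf Disc OPair FunOn op on onT)
open Pool.Agent.OG45 Pool.Agent.SP45

variable {P : Type} [Preorder P]

/-- the union of `O k` for `m ≤ k < n` -/
theorem exists_UO (Y : BSet (RO P)) (O : ℕ → BSet (RO P)) :
    ∃ U : ℕ → ℕ → BSet (RO P), ∀ m n (F : GG P) y, In F y (nm F (U m n)) ↔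
      (In F y (nm F Y) ∧ ∃ k < n, m ≤ k ∧ In F y (nm F (O k))) := by
  choose U hU using fun m n : ℕ => exists_sep (b := (⊤ : RO P)) Y
    (P := fun F z => ∃ k < n, m ≤ k ∧ In F z (nm F (O k)))
    (fun y => RpP.exFin (A := fun k F => m ≤ k ∧ In F (nm F y) (nm F (O k)))
      (fun k => (RpP.const _).and (RpP.mem _ _)) n)
  exact ⟨U, fun m n F y => hU m n F y⟩

/-- the property of the bound -/
def PrB (Y : BSet (RO P)) (O : ℕ → BSet (RO P)) (n : ℕ) (a : BSet (RO P)) (F : GG P) : Prop :=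
  In F (nm F a) (nm F (onT ℕ)) ∧ ∀ y, In F y (nm F Y) → ∃ k u, In F k (nm F (onT ℕ)) ∧
    BVM.Rel (In F) (nm F (seqN O)) k u ∧ ¬ In F k (nm F (on n)) ∧ ¬ In F (nm F a) k ∧ In F y u

theorem rpPrB (Y : BSet (RO P)) (O : ℕ → BSet (RO P)) (n : ℕ) (a : BSet (RO P)) :
    RpP (PrB Y O n a) := by
  unfold PrB
  repeat' (first
    | exact RpP.mem _ _ | exact RpP.rel _ _ _ | refine RpP.and ?_ ?_
    | refine RpP.ex fun _ => ?_ | refine RpP.all fun _ => ?_ | refine RpP.not ?_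
    | refine RpP.imp ?_ ?_)

/-- module PRP: the unions `U m n` are not all of `Y`, or there is a bound `γ`.
If there are no `r ≤ q` and `N` as in the second alternative, then (`Fc.not`) for all `r ≤ q` and
`N` some `s ≤ r` forces `U m n = Y` for some `m ≥ N` and `n`.  Hence, by `fc_mix`, for
each standard `N` there is a name `γ N ∈ ω` such that `q` forces: each `y ∈ Y` is in some `u`
with `Rel (seqN O) k u`, where `k ∈ ω`, `¬ k ∈ on N`, `¬ γ N ∈ k` (take `on n`). -/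
theorem exists_proper {Y : BSet (RO P)} {O : ℕ → BSet (RO P)} {U : ℕ → ℕ → BSet (RO P)}
    (hU : ∀ m n (F : GG P) y, In F y (nm F (U m n)) ↔
      (In F y (nm F Y) ∧ ∃ k < n, m ≤ k ∧ In F y (nm F (O k)))) (q : P) :
    ∃ r ≤ q, (∃ γ, Bdd r Y O γ) ∨ ∃ N, ∀ m ≥ N, ∀ n, Fc r fun F => nm F (U m n) ≠ nm F Y := by
  by_cases hcase : ∃ r ≤ q, ∃ N, ∀ m ≥ N, ∀ n, Fc r fun F => nm F (U m n) ≠ nm F Y
  · obtain ⟨r, hr, N, h⟩ := hcase
    exact ⟨r, hr, Or.inr ⟨N, h⟩⟩
  push Not at hcase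
  have hstep : ∀ N, ∃ a, Fc q (PrB Y O N a) := by
    intro N
    refine fc_mix (Φ := PrB Y O N) (rpPrB Y O N) (fun a a' F he h => ?_) fun r hr => ?_
    · unfold PrB at h ⊢
      rw [he] at h
      exact h
    · obtain ⟨m, hm, n, h⟩ := hcase r hr N
      obtain ⟨s, hs, h1⟩ : ∃ s ≤ r, Fc s fun F => nm F (U m n) = nm F Y := by
        by_contra hcon
        push Not at hcon
        exact h (Fc.not (RpP.eq _ _) hcon)
      refine ⟨s, hs, on n, fun F hF => ⟨nat_mem n F, fun y hy => ?_⟩⟩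
      have e : nm F (U m n) = nm F Y := h1 F hF
      rw [← e, hU] at hy
      obtain ⟨-, k, hk, hmk, hy⟩ := hy
      refine ⟨nm F (on k), nm F (O k), nat_mem k F, rel_seqN.2 rfl, ?_, ?_, hy⟩
      · rw [nat_lt]; omega
      · rw [nat_lt]; omega
  choose γ hγ using hstep
  refine ⟨q, le_rfl, Or.inl ⟨γ, fun n F hF => (hγ n F hF).1, fun s hs y hy => ⟨s, le_rfl, 0,
    fun n _ t' ht' => ?_⟩⟩⟩
  obtain ⟨k, hk⟩ := Fc.name (q := t') (A := fun F k => ∃ u, In F k (nm F (onT ℕ)) ∧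
    BVM.Rel (In F) (nm F (seqN O)) k u ∧ ¬ In F k (nm F (on n)) ∧ ¬ In F (nm F (γ n)) k ∧
      In F (nm F y) u) (fun k => by
      repeat' (first
        | exact RpP.mem _ _ | exact RpP.rel _ _ _ | refine RpP.and ?_ ?_
        | refine RpP.ex fun _ => ?_ | refine RpP.all fun _ => ?_ | refine RpP.not ?_
        | refine RpP.imp ?_ ?_))
    (fun F hF => (hγ n F ((Fc.mono (A := fun F => F.1.U (pt q)) (fun F hF => hF)
      (ht'.trans hs)) F hF)).2 _ (hy.mono ht' F hF))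
  obtain ⟨u, hu, m, hm⟩ := fc_nat (a := k) (q := t') (fun F hF => by
    obtain ⟨_, h, _⟩ := hk F hF
    exact h)
  have h1 : Fc u fun F => ¬ In F (nm F (on m)) (nm F (on n)) ∧ ¬ In F (nm F (γ n)) (nm F (on m)) ∧
      In F (nm F y) (nm F (O m)) := by
    intro F hF
    obtain ⟨v, h2, h3, h4, h5, h6⟩ := hk.mono hu F hF
    have e : nm F k = nm F (on m) := hm F hF
    rw [e] at h3 h4 h5
    rw [rel_seqN.1 h3] at h6
    exact ⟨h4, h5, h6⟩
  refine ⟨u, hu, m, ?_, fun F hF => (h1 F hF).2⟩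
  obtain ⟨F, hF⟩ := exists_gg u
  by_contra hcon
  exact (h1 F hF).1 (nat_lt.2 (by omega))

end Pool.Agent.IN45
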