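import Pool.Agent.IN45.Enum

/-!
# A sequence of members of a large cover (module SEQ)

Recursion on `n`, at the fixed condition `q`: given names `W 0, …, W (n-1)` choose a name `W n`
such that `q` forces: `W n ∈ C`, `W n ≠ W i` for `i < n`, and, if there is `U ∈ C` with
`β (unpair n).1 ⊆ U` and `U ≠ W i` for all `i < n`, then `β (unpair n).1 ⊆ W n`.  Such a member
exists at every ultrafilter `F ∋ q`: it suffices that `C` has some member outside the finite
set `{W i : i < n}`, which holds since `Z` is not empty and no finite set contains all members of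
`C` to which a point belongs (`finite_chk` for the check set of `Fin n`, whose elements are
described by `mem_chk_fin`).  Use `Fc.name`, `RpP.allFin`, `RpP.exFin`, and `SP45.hist` or
strong recursion for the recursion.
Infinitely often: let `r ≤ q` force `z ∈ Z`, and let `N` be given.  At every `F ∋ r` there is
`U ∈ C` with `z ∈ U` and `U ≠ W i` for all `i < N`; name it; it is open, so there is a
member `V` of the base with `z ∈ V ⊆ U`; decide `V = β j` (`Enum.all`).  Let `n = pair j N' ≥ N`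
with large `N'`.  If the conclusion fails below some `s`, that is (by `Fc.not`) `s` forces
`z ∉ W i` for all `i ≥ N`, then `U ≠ W i` for all `i < n` is forced by `s` (since `z ∈ U` and
`z ∉ W i` for `i ≥ N`), hence `β j ⊆ W n` and `z ∈ W n`, a contradiction.
The model is `SP45.exists_seq` in `Pool/Agent/SP45/Lar.lean` (there with `σ`-closed `P`).
-/

namespace Pool.Agent.IN45

open Classical Set Pool.Agent Pool.Agent.LadderTree Pool.Agent.Forcing Pool.Agent.MAx
open Pool.Agent.BVM (BSet UF eqv memv chk Congr le_of_uf Disc OPair FunOn op on onT)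
open Pool.Agent.OG45 Pool.Agent.SP45

variable {P : Type} [Preorder P]

/-- finite conjunctions over lists of names -/
theorem rpAllList {B : Type} [CompleteBooleanAlgebra B] {b : B} {A : BSet B → Pt b → Prop}
    (h : ∀ u, RpP (A u)) (l : List (BSet B)) : RpP fun F => ∀ u ∈ l, A u F := by
  induction l with
  | nil => exact (RpP.const True).congr fun F => by simp
  | cons u l ih =>
    refine ((h u).and ih).congr fun F => ?_
    rw [List.forall_mem_cons]

/-- a member of a large cover outside a finite list -/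
theorem exists_outside {Z D C : BSet (RO P)} {F : GG P}
    (hC : Large (In F) (nm F (onT ℕ)) (nm F Z) (nm F D) (nm F C)) {z : Md F}
    (hz : In F z (nm F Z)) (l : List (BSet (RO P))) :
    ∃ U, In F U (nm F C) ∧ In F z U ∧ ∀ u ∈ l, U ≠ nm F u := by
  by_contra hcon
  push Not at hcon
  refine hC.2 z hz ⟨nm F (chk fun k : Fin l.length => l.get k), finite_chk _ F,
    fun U hU hzU => ?_⟩
  obtain ⟨u, hu, rfl⟩ := hcon U hU hzU
  obtain ⟨k, rfl⟩ := List.get_of_mem hu
  exact In_chk (fun k : Fin l.length => l.get k) k F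

/-- the next member -/
theorem exists_next {Z D C : BSet (RO P)} {q : P}
    (hC : Fc q fun F => Large (In F) (nm F (onT ℕ)) (nm F Z) (nm F D) (nm F C))
    (hne : Fc q fun F => ∃ z, In F z (nm F Z)) (l : List (BSet (RO P))) (b : BSet (RO P)) :
    ∃ a : BSet (RO P), Fc q fun F => In F (nm F a) (nm F C) ∧ (∀ u ∈ l, nm F a ≠ nm F u) ∧
      ((∃ U, In F U (nm F C) ∧ Sub (In F) (nm F b) U ∧ ∀ u ∈ l, U ≠ nm F u) →
        Sub (In F) (nm F b) (nm F a)) := by
  have hR1 : ∀ U : BSet (RO P), RpP fun F : GG P => ∀ u ∈ l, nm F U ≠ nm F u := fun U =>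
    rpAllList (A := fun u F => nm F U ≠ nm F u) (fun u => (RpP.eq U u).not) l
  have hR2 : RpP fun F : GG P =>
      ∃ U, In F U (nm F C) ∧ Sub (In F) (nm F b) U ∧ ∀ u ∈ l, U ≠ nm F u :=
    RpP.ex (P := fun F U => In F U (nm F C) ∧ Sub (In F) (nm F b) U ∧ ∀ u ∈ l, U ≠ nm F u)
      fun U => (RpP.mem _ _).and ((rpSub _ _).and (hR1 U))
  refine Fc.name (q := q) (A := fun F a => In F a (nm F C) ∧ (∀ u ∈ l, a ≠ nm F u) ∧
      ((∃ U, In F U (nm F C) ∧ Sub (In F) (nm F b) U ∧ ∀ u ∈ l, U ≠ nm F u) →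
        Sub (In F) (nm F b) a)) (fun a => (RpP.mem _ _).and ((hR1 a).and (hR2.imp (rpSub _ _))))
    (fun F hF => ?_)
  by_cases h : ∃ U, In F U (nm F C) ∧ Sub (In F) (nm F b) U ∧ ∀ u ∈ l, U ≠ nm F u
  · obtain ⟨U, h1, h2, h3⟩ := h
    exact ⟨U, h1, h3, fun _ => h2⟩
  · obtain ⟨z, hz⟩ := hne F hF
    obtain ⟨U, h1, _, h3⟩ := exists_outside (hC F hF) hz l
    exact ⟨U, h1, h3, fun h' => absurd h' h⟩

theorem exists_cover_seq {Z D C : BSet (RO P)} {β : ℕ → BSet (RO P)} {q : P} (hE : Enum q D β)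
    (hC : Fc q fun F => Large (In F) (nm F (onT ℕ)) (nm F Z) (nm F D) (nm F C))
    (hne : Fc q fun F => ∃ z, In F z (nm F Z)) :
    ∃ W : ℕ → BSet (RO P), (∀ n, Fc q fun F => In F (nm F (W n)) (nm F C)) ∧
      (∀ m n, m < n → Fc q fun F => nm F (W m) ≠ nm F (W n)) ∧
      ∀ r ≤ q, ∀ z, (Fc r fun F => In F (nm F z) (nm F Z)) →
        Inf r fun n F => In F (nm F z) (nm F (W n)) := by
  choose nx hnx using fun (l : List (BSet (RO P))) (b : BSet (RO P)) => exists_next hC hne l b
  obtain ⟨L, hL0, hLs⟩ : ∃ L : ℕ → List (BSet (RO P)), L 0 = [] ∧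
      ∀ n, L (n + 1) = nx (L n) (β (Nat.unpair n).1) :: L n :=
    ⟨fun n => Nat.rec [] (fun n l => nx l (β (Nat.unpair n).1) :: l) n, rfl, fun n => rfl⟩
  have hmem : ∀ n u, u ∈ L n ↔ ∃ m < n, u = nx (L m) (β (Nat.unpair m).1) := by
    intro n
    induction n with
    | zero => intro u; rw [hL0]; simp
    | succ n ih =>
      intro u
      rw [hLs, List.mem_cons, ih]
      constructor
      · rintro (h | ⟨m, hm, h⟩)
        · exact ⟨n, Nat.lt_succ_self n, h⟩
        · exact ⟨m, hm.trans (Nat.lt_succ_self n), h⟩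
      · rintro ⟨m, hm, h⟩
        rcases Nat.lt_succ_iff_lt_or_eq.1 hm with h1 | rfl
        · exact Or.inr ⟨m, h1, h⟩
        · exact Or.inl h
  refine ⟨fun n => nx (L n) (β (Nat.unpair n).1), fun n F hF => (hnx _ _ F hF).1,
    fun m n hmn F hF h => ?_, fun r hr z hz r' hr' N => ?_⟩
  · exact (hnx (L n) (β (Nat.unpair n).1) F hF).2.1 _ ((hmem n _).2 ⟨m, hmn, rfl⟩) h.symm
  · by_contra hcon
    push Not at hcon
    have hz' := hz.mono hr'
    have hCr := hC.mono (hr'.trans hr)
    have hR1 : ∀ U : BSet (RO P), RpP fun F : GG P => ∀ u ∈ L N, nm F U ≠ nm F u := fun U =>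
      rpAllList (A := fun u F => nm F U ≠ nm F u) (fun u => (RpP.eq U u).not) (L N)
    obtain ⟨U, hU⟩ := Fc.name (q := r') (A := fun F U => In F U (nm F C) ∧ In F (nm F z) U ∧
      ∀ u ∈ L N, U ≠ nm F u) (fun U => (RpP.mem _ _).and ((RpP.mem _ _).and (hR1 U)))
      (fun F hF => exists_outside (hCr F hF) (hz' F hF) (L N))
    obtain ⟨V, hV⟩ := Fc.name (q := r') (A := fun F V => In F V (nm F D) ∧ In F (nm F z) V ∧
      Sub (In F) V (nm F U)) (fun V => (RpP.mem _ _).and ((RpP.mem _ _).and (rpSub _ _)))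
      (fun F hF => ((hCr F hF).1.1 _ (hU F hF).1).2 _ (hU F hF).2.1)
    obtain ⟨s, hs, j, hj⟩ := hE.all r' (hr'.trans hr) V (fun F hF => (hV F hF).1)
    have hn : ∀ n ≥ N, Fc s fun F => ¬ In F (nm F z) (nm F (nx (L n) (β (Nat.unpair n).1))) :=
      fun n hn => Fc.not (RpP.mem _ _) fun t ht => hcon t (ht.trans hs) n hn
    obtain ⟨F, hF⟩ := exists_gg s
    have hF' : F.1.U (pt r') := F.1.mono (pt_mono hs) hF
    have hFq : F.1.U (pt q) := F.1.mono (pt_mono (hr'.trans hr)) hF'
    obtain ⟨hU1, hU2, hU3⟩ := hU F hF'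
    obtain ⟨_, hV2, hV3⟩ := hV F hF'
    have e : nm F V = nm F (β j) := hj F hF
    have hNn : N ≤ Nat.pair j N := Nat.right_le_pair j N
    refine hn (Nat.pair j N) hNn F hF ?_
    have h1 := (hnx (L (Nat.pair j N)) (β (Nat.unpair (Nat.pair j N)).1) F hFq).2.2
    rw [Nat.unpair_pair] at h1 ⊢
    refine h1 ⟨nm F U, hU1, ?_, fun u hu heq => ?_⟩ _ ?_
    · rw [← e]
      exact hV3
    · obtain ⟨m, hm, rfl⟩ := (hmem _ _).1 hu
      by_cases hmN : m < N
      · exact hU3 _ ((hmem N _).2 ⟨m, hmN, rfl⟩) heq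
      · push Not at hmN
        refine hn m hmN F hF ?_
        rw [← heq]
        exact hU2
    · rw [← e]
      exact hV2


end Pool.Agent.IN45
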