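import Pool.Agent.IN45.Lrg

/-!
# Splitting a large cover by a set of indices (module SPL)

`V` is the set of all `U ∈ C` which are in `famJ W J` and `W'` the set of all other members of
`C` (`exists_sep`).  The large families are `famJ W J ⊆ V` and `famJ W Jᶜ ⊆ W'` (`large_famJ`).
For the second inclusion: if `U = W n` with `n ∉ J` and `U = W m` with `m ∈ J` (after `fc_famJ`,
twice, below a condition), then `m ≠ n`, which contradicts `hne`.
-/

namespace Pool.Agent.IN45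

open Classical Set Pool.Agent Pool.Agent.LadderTree Pool.Agent.Forcing Pool.Agent.MAx
open Pool.Agent.BVM (BSet UF eqv memv chk Congr le_of_uf Disc OPair FunOn op on onT)
open Pool.Agent.OG45 Pool.Agent.SP45

variable {P : Type} [Preorder P]

theorem sub_of_fc {X Y : BSet (RO P)} {q : P}
    (h : ∀ r ≤ q, ∀ y : BSet (RO P), (Fc r fun F => In F (nm F y) (nm F X)) →
      ∃ s ≤ r, Fc s fun F => In F (nm F y) (nm F Y)) :
    Fc q fun F => Sub (In F) (nm F X) (nm F Y) := by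
  refine Fc.all (A := fun F y => In F y (nm F X) → In F y (nm F Y)) fun y => ?_
  refine Fc.imp (RpP.mem _ _) (RpP.mem _ _) fun r hr hy => ?_
  refine Fc.dense (RpP.mem _ _) fun s hs => ?_
  obtain ⟨t, ht, h1⟩ := h s (hs.trans hr) y (hy.mono hs)
  exact ⟨t, ht, h1⟩

theorem split_of_index {Z D C : BSet (RO P)} {W : ℕ → BSet (RO P)} {J : ℕ → RO P} {q : P}
    (hC : Fc q fun F => Large (In F) (nm F (onT ℕ)) (nm F Z) (nm F D) (nm F C))
    (hW : ∀ n, Fc q fun F => In F (nm F (W n)) (nm F C))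
    (hne : ∀ m n, m < n → Fc q fun F => nm F (W m) ≠ nm F (W n))
    (h1 : ∀ r ≤ q, ∀ z, (Fc r fun F => In F (nm F z) (nm F Z)) →
      Inf r fun n F => F.1.U (J n) ∧ In F (nm F z) (nm F (W n)))
    (h2 : ∀ r ≤ q, ∀ z, (Fc r fun F => In F (nm F z) (nm F Z)) →
      Inf r fun n F => ¬ F.1.U (J n) ∧ In F (nm F z) (nm F (W n))) :
    Fc q fun F => ∃ V W, (∀ U, In F U (nm F C) ↔ (In F U V ∨ In F U W)) ∧
      (∀ U, In F U V → ¬ In F U W) ∧
      (∃ V', Sub (In F) V' V ∧ Large (In F) (nm F (onT ℕ)) (nm F Z) (nm F D) V') ∧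
      ∃ W', Sub (In F) W' W ∧ Large (In F) (nm F (onT ℕ)) (nm F Z) (nm F D) W' := by
  obtain ⟨V, hV⟩ := exists_sep (b := (⊤ : RO P)) C
    (P := fun F z => In F z (nm F (famJ W J))) (fun y => RpP.mem _ _)
  obtain ⟨V₂, hV₂⟩ := exists_sep (b := (⊤ : RO P)) C
    (P := fun F z => ¬ In F z (nm F (famJ W J))) (fun y => (RpP.mem _ _).not)
  have hsubC : ∀ K : ℕ → RO P, Fc q fun F => Sub (In F) (nm F (famJ W K)) (nm F C) := by
    intro K
    refine sub_of_fc fun r hr y hy => ?_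
    obtain ⟨s, hs, n, hn⟩ := fc_famJ hy
    refine ⟨s, hs, fun F hF => ?_⟩
    have e := (hn F hF).2
    have h3 := (hW n).mono (hs.trans hr) F hF
    beta_reduce at h3
    rw [← e] at h3
    exact h3
  have hdis : Fc q fun F => ∀ y, In F y (nm F (famJ W fun n => (J n)ᶜ)) →
      ¬ In F y (nm F (famJ W J)) := by
    refine Fc.all (A := fun F y => In F y (nm F (famJ W fun n => (J n)ᶜ)) →
      ¬ In F y (nm F (famJ W J))) fun y => ?_
    refine Fc.imp (RpP.mem _ _) (RpP.mem _ _).not fun r hr hy => ?_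
    refine Fc.not (RpP.mem _ _) fun s hs hy2 => ?_
    obtain ⟨t, ht, n, hn⟩ := fc_famJ (hy.mono hs)
    obtain ⟨u, hu, m, hm⟩ := fc_famJ (hy2.mono ht)
    refine Fc.false (q := u) fun F hF => ?_
    have h3 := (hn.mono hu) F hF
    have h4 := hm F hF
    beta_reduce at h3 h4
    have hle : u ≤ q := hu.trans (ht.trans (hs.trans hr))
    rcases lt_trichotomy m n with h5 | h5 | h5
    · exact (hne m n h5).mono hle F hF (h4.2.symm.trans h3.2)
    · subst h5
      exact (F.1.compl_iff.1 h3.1) h4.1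
    · exact (hne n m h5).mono hle F hF (h3.2.symm.trans h4.2)
  have hop : ∀ n, Fc q fun F => SP45.IsOpen (In F) (nm F Z) (nm F D) (nm F (W n)) :=
    fun n F hF => (hC F hF).1.1 _ (hW n F hF)
  have hpr : ∀ n, Fc q fun F => nm F (W n) ≠ nm F Z := by
    intro n F hF h3
    have h4 := hW n F hF
    beta_reduce at h4
    rw [h3] at h4
    exact (hC F hF).1.2.2 h4
  have hL1 := large_famJ (J := J) hop hne hpr h1
  have hL2 := large_famJ (J := fun n => (J n)ᶜ) hop hne hpr (fun r hr z hz =>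
    (h2 r hr z hz).imp fun n F _ h3 => ⟨F.1.compl_iff.2 h3.1, h3.2⟩)
  intro F hF
  refine ⟨nm F V, nm F V₂, fun U => ?_, fun U h3 h4 => ?_,
    ⟨nm F (famJ W J), fun U h3 => ?_, hL1 F hF⟩,
    nm F (famJ W fun n => (J n)ᶜ), fun U h3 => ?_, hL2 F hF⟩
  · rw [hV, hV₂]
    constructor
    · intro h3
      by_cases h4 : In F U (nm F (famJ W J))
      · exact Or.inl ⟨h3, h4⟩
      · exact Or.inr ⟨h3, h4⟩
    · rintro (h3 | h3)
      · exact h3.1
      · exact h3.1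
  · rw [hV] at h3
    rw [hV₂] at h4
    exact h4.2 h3.2
  · rw [hV]
    exact ⟨hsubC J F hF U h3, h3⟩
  · rw [hV₂]
    exact ⟨hsubC _ F hF U h3, hdis F hF U h3⟩

/-- the property `Split` of `Y` splits sequences of open sets -/
theorem exists_index {Y D : BSet (RO P)} {V : ℕ → BSet (RO P)} {q : P}
    (hS : Fc q fun F => Split (In F) (nm F (onT ℕ)) (nm F Y) (nm F D))
    (hop : ∀ n, Fc q fun F => SP45.IsOpen (In F) (nm F Y) (nm F D) (nm F (V n)))
    (hne : ∀ m n, m < n → Fc q fun F => nm F (V m) ≠ nm F (V n))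
    (hpr : ∀ n, Fc q fun F => nm F (V n) ≠ nm F Y)
    (hinf : ∀ r ≤ q, ∀ y, (Fc r fun F => In F (nm F y) (nm F Y)) →
      Inf r fun n F => In F (nm F y) (nm F (V n))) :
    ∃ J : ℕ → RO P, (∀ r ≤ q, ∀ y, (Fc r fun F => In F (nm F y) (nm F Y)) →
        Inf r fun n F => F.1.U (J n) ∧ In F (nm F y) (nm F (V n))) ∧
      ∀ r ≤ q, ∀ y, (Fc r fun F => In F (nm F y) (nm F Y)) →
        Inf r fun n F => ¬ F.1.U (J n) ∧ In F (nm F y) (nm F (V n)) := by
  -- `famJ V ⊤` is large; names `𝒱`, `𝒲`, `𝒱'`, `𝒲'` by `Fc.name` (four times, or once for each);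
  -- `J n := memv (V n) 𝒱`, so that `F.1.U (J n) ↔ V n ∈ 𝒱` (`In_nm`); then `𝒱' ⊆ famJ V J` and
  -- `𝒲' ⊆ famJ V Jᶜ` are forced (`fc_famJ` for `famJ V ⊤`), and `inf_of_large` for both.
  have hL := large_famJ (J := fun _ => ⊤) hop hne hpr (fun r hr z hz =>
    (hinf r hr z hz).imp fun n F _ h3 => ⟨F.1.top, h3⟩)
  let Φ : ∀ F : GG P, Md F → Md F → Md F → Md F → Prop := fun F v w v' w' =>
    (∀ U, In F U (nm F (famJ V fun _ => (⊤ : RO P))) ↔ (In F U v ∨ In F U w)) ∧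
      (∀ U, In F U v → ¬ In F U w) ∧
      (Sub (In F) v' v ∧ Large (In F) (nm F (onT ℕ)) (nm F Y) (nm F D) v') ∧
      (Sub (In F) w' w ∧ Large (In F) (nm F (onT ℕ)) (nm F Y) (nm F D) w')
  have hΦ : ∀ v w v' w' : BSet (RO P), RpP fun F : GG P =>
      Φ F (nm F v) (nm F w) (nm F v') (nm F w') := by
    intro v w v' w'
    show RpP fun F : GG P =>
      (∀ U, In F U (nm F (famJ V fun _ => (⊤ : RO P))) ↔ (In F U (nm F v) ∨ In F U (nm F w))) ∧
      (∀ U, In F U (nm F v) → ¬ In F U (nm F w)) ∧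
      (Sub (In F) (nm F v') (nm F v) ∧
        Large (In F) (nm F (onT ℕ)) (nm F Y) (nm F D) (nm F v')) ∧
      (Sub (In F) (nm F w') (nm F w) ∧
        Large (In F) (nm F (onT ℕ)) (nm F Y) (nm F D) (nm F w'))
    repeat' (first
      | exact RpP.mem _ _ | exact rpLarge _ _ _ _ | exact rpSub _ _
      | refine RpP.and ?_ ?_ | refine RpP.or ?_ ?_ | refine RpP.ex fun _ => ?_
      | refine RpP.all fun _ => ?_ | refine RpP.iff ?_ ?_
      | refine RpP.not ?_ | refine RpP.imp ?_ ?_)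
  have h0 : Fc q fun F => ∃ v, ∃ w, ∃ v', ∃ w', Φ F v w v' w' := by
    intro F hF
    obtain ⟨v, w, h3, h4, ⟨v', h5⟩, w', h6⟩ := hS F hF _ (hL F hF)
    exact ⟨v, w, v', w', h3, h4, h5, h6⟩
  obtain ⟨v, hv⟩ := Fc.name (A := fun F v => ∃ w, ∃ v', ∃ w', Φ F v w v' w')
    (fun v => RpP.ex fun w => RpP.ex fun v' => RpP.ex fun w' => hΦ v w v' w') h0
  obtain ⟨w, hw⟩ := Fc.name (A := fun F w => ∃ v', ∃ w', Φ F (nm F v) w v' w')
    (fun w => RpP.ex fun v' => RpP.ex fun w' => hΦ v w v' w') hv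
  obtain ⟨v', hv'⟩ := Fc.name (A := fun F v' => ∃ w', Φ F (nm F v) (nm F w) v' w')
    (fun v' => RpP.ex fun w' => hΦ v w v' w') hw
  obtain ⟨w', hw'⟩ := Fc.name (A := fun F w' => Φ F (nm F v) (nm F w) (nm F v') w')
    (fun w' => hΦ v w v' w') hv'
  have hJ : ∀ (n : ℕ) (F : GG P), F.1.U (memv (V n) v) ↔ In F (nm F (V n)) (nm F v) :=
    fun n F => Iff.rfl
  have hs1 : Fc q fun F => Sub (In F) (nm F v') (nm F (famJ V fun n => memv (V n) v)) := by
    refine sub_of_fc fun r hr y hy => ?_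
    have hy2 : Fc r fun F => In F (nm F y) (nm F (famJ V fun _ => (⊤ : RO P))) := by
      intro F hF
      obtain ⟨h3, h4, h5, h6⟩ := hw'.mono hr F hF
      exact (h3 _).2 (Or.inl (h5.1 _ (hy F hF)))
    obtain ⟨s, hs, n, hn⟩ := fc_famJ hy2
    refine ⟨s, hs, fun F hF => ?_⟩
    obtain ⟨h3, h4, h5, h6⟩ := hw'.mono (hs.trans hr) F hF
    have h7 := h5.1 _ (hy.mono hs F hF)
    have e := (hn F hF).2
    rw [e] at h7
    show In F (nm F y) _
    rw [e]
    exact in_famJ ((hJ n F).2 h7)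
  have hs2 : Fc q fun F => Sub (In F) (nm F w') (nm F (famJ V fun n => (memv (V n) v)ᶜ)) := by
    refine sub_of_fc fun r hr y hy => ?_
    have hy2 : Fc r fun F => In F (nm F y) (nm F (famJ V fun _ => (⊤ : RO P))) := by
      intro F hF
      obtain ⟨h3, h4, h5, h6⟩ := hw'.mono hr F hF
      exact (h3 _).2 (Or.inr (h6.1 _ (hy F hF)))
    obtain ⟨s, hs, n, hn⟩ := fc_famJ hy2
    refine ⟨s, hs, fun F hF => ?_⟩
    obtain ⟨h3, h4, h5, h6⟩ := hw'.mono (hs.trans hr) F hF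
    have h7 := h6.1 _ (hy.mono hs F hF)
    have e := (hn F hF).2
    rw [e] at h7
    show In F (nm F y) _
    rw [e]
    refine in_famJ (F.1.compl_iff.2 fun h8 => ?_)
    exact h4 _ ((hJ n F).1 h8) h7
  refine ⟨fun n => memv (V n) v, fun r hr y hy => ?_, fun r hr y hy => ?_⟩
  · exact inf_of_large (fun F hF => (hw' F hF).2.2.1.2) hs1 hr hy
  · exact (inf_of_large (fun F hF => (hw' F hF).2.2.2.2) hs2 hr hy).imp
      fun n F _ h3 => ⟨F.1.compl_iff.1 h3.1, h3.2⟩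

end Pool.Agent.IN45
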