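import Pool.Agent.IN45.Enum

/-!
# Elementary facts on closures (module TOP)
-/

namespace Pool.Agent.IN45

open Classical Set Pool.Agent Pool.Agent.LadderTree Pool.Agent.Forcing Pool.Agent.MAx
open Pool.Agent.BVM (BSet UF eqv memv chk Congr le_of_uf Disc OPair FunOn op on onT)
open Pool.Agent.OG45 Pool.Agent.SP45

section

variable {M : Type*} {E : M → M → Prop} {w Y D : M}

theorem cl_of_mem {V y : M} (hy : E y Y) (h : E y V) : Cl E Y D V y :=
  ⟨hy, fun _ _ hU => ⟨y, hU, h⟩⟩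

theorem Cl.mono {V V' y : M} (h : Cl E Y D V y) (hV : Sub E V V') : Cl E Y D V' y :=
  ⟨h.1, fun U hU hy => by
    obtain ⟨x, hx, hx'⟩ := h.2 U hU hy
    exact ⟨x, hx, hV x hx'⟩⟩

theorem Way.sub {V U : M} (hV : Sub E V Y) (h : Way E Y D V U) : Sub E V U :=
  fun y hy => h y (cl_of_mem (hV y hy) hy)

theorem Way.mono_right {V U U' : M} (h : Way E Y D V U) (hU : Sub E U U') : Way E Y D V U' :=
  fun y hy => hU y (h y hy)

theorem Way.mono_left {V V' U : M} (h : Way E Y D V U) (hV : Sub E V' V) : Way E Y D V' U :=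
  fun y hy => h y (hy.mono hV)

/-- a point which is not in the closure has a neighbourhood in the base which is disjoint from the
set -/
theorem top_exists_disj {V y : M} (hy : E y Y) (h : ¬ Cl E Y D V y) :
    ∃ U, E U D ∧ E y U ∧ ∀ x, E x U → ¬ E x V := by
  by_contra hc
  push Not at hc
  exact h ⟨hy, fun U hU hy => hc U hU hy⟩

/-- the closure of a union of two sets -/
theorem cl_union (hS : Space E w Y D) {V V' S y : M} (hU : ∀ x, E x S → (E x V ∨ E x V'))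
    (h : Cl E Y D S y) : Cl E Y D V y ∨ Cl E Y D V' y := by
  by_contra hcon
  push Not at hcon
  obtain ⟨h1, h2⟩ := hcon
  have h3 : ∃ U, E U D ∧ E y U ∧ ∀ x, E x U → ¬ E x V := by
    by_contra hc
    push Not at hc
    exact h1 ⟨h.1, fun U hU hy => hc U hU hy⟩
  have h4 : ∃ U, E U D ∧ E y U ∧ ∀ x, E x U → ¬ E x V' := by
    by_contra hc
    push Not at hc
    exact h2 ⟨h.1, fun U hU hy => hc U hU hy⟩
  obtain ⟨U1, hU1, hy1, h5⟩ := h3
  obtain ⟨U2, hU2, hy2, h6⟩ := h4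
  obtain ⟨W, hW, hyW, h7, h8⟩ := hS.inter U1 U2 y hU1 hU2 hy1 hy2
  obtain ⟨x, hxW, hxS⟩ := h.2 W hW hyW
  rcases hU x hxS with h9 | h9
  · exact h5 x (h7 x hxW) h9
  · exact h6 x (h8 x hxW) h9

/-- intersections of two open sets are open -/
theorem isOpen_inter (hS : Space E w Y D) {U V S : M} (hU : SP45.IsOpen E Y D U)
    (hV : SP45.IsOpen E Y D V) (h : ∀ x, E x S ↔ (E x U ∧ E x V)) : SP45.IsOpen E Y D S := by
  refine ⟨fun x hx => hU.1 x ((h x).1 hx).1, fun x hx => ?_⟩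
  obtain ⟨V1, hV1, hx1, h1⟩ := hU.2 x ((h x).1 hx).1
  obtain ⟨V2, hV2, hx2, h2⟩ := hV.2 x ((h x).1 hx).2
  obtain ⟨W, hW, hxW, h3, h4⟩ := hS.inter V1 V2 x hV1 hV2 hx1 hx2
  exact ⟨W, hW, hxW, fun z hz => (h z).2 ⟨h1 z (h3 z hz), h2 z (h4 z hz)⟩⟩

/-- the complement of a closure is open -/
theorem isOpen_sdiff_cl (hS : Space E w Y D) {U V S : M} (hU : SP45.IsOpen E Y D U)
    (h : ∀ x, E x S ↔ (E x U ∧ ¬ Cl E Y D V x)) : SP45.IsOpen E Y D S := by
  refine ⟨fun x hx => hU.1 x ((h x).1 hx).1, fun x hx => ?_⟩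
  obtain ⟨V1, hV1, hx1, h1⟩ := hU.2 x ((h x).1 hx).1
  obtain ⟨U', hU', hx', h2⟩ := top_exists_disj (hU.1 x ((h x).1 hx).1) ((h x).1 hx).2
  obtain ⟨W, hW, hxW, h3, h4⟩ := hS.inter V1 U' x hV1 hU' hx1 hx'
  exact ⟨W, hW, hxW, fun z hz => (h z).2 ⟨h1 z (h3 z hz), fun hc => by
    obtain ⟨u, hu, hu'⟩ := hc.2 W hW hz
    exact h2 u (h4 u hu) hu'⟩⟩

/-- members of the base are open -/
theorem isOpen_base (hS : Space E w Y D) {U : M} (hU : E U D) : SP45.IsOpen E Y D U :=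
  ⟨hS.sub U hU, fun _ hx => ⟨U, hU, hx, fun _ h => h⟩⟩

/-- a neighbourhood whose closure is contained in an open set -/
theorem exists_way (hS : Space E w Y D) {U y : M} (hU : SP45.IsOpen E Y D U) (hy : E y U) :
    ∃ V, E V D ∧ E y V ∧ Way E Y D V U := by
  obtain ⟨V1, hV1, hy1, h1⟩ := hU.2 y hy
  obtain ⟨V, hV, hyV, h2⟩ := hS.reg V1 y hV1 hy1
  refine ⟨V, hV, hyV, fun z hz => ?_⟩
  by_cases hz1 : E z V1
  · exact h1 z hz1
  · obtain ⟨W, hW, hzW, h3⟩ := h2 z hz.1 hz1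
    obtain ⟨x, hx, hx'⟩ := hz.2 W hW hzW
    exact absurd hx' (h3 x hx)

/-- a neighbourhood which is disjoint from finitely many sets -/
theorem top_nbhd_fin (hS : Space E w Y D) {W x : M} (hW : E W D) (hx : E x W) (B : ℕ → M)
    (p : ℕ → Prop) (m : ℕ) (h : ∀ i < m, p i → ¬ Cl E Y D (B i) x) :
    ∃ W', E W' D ∧ E x W' ∧ Sub E W' W ∧ ∀ i < m, p i → ∀ z, E z W' → ¬ E z (B i) := by
  induction m with
  | zero => exact ⟨W, hW, hx, fun _ h => h, fun i hi => absurd hi (Nat.not_lt_zero i)⟩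
  | succ m ih =>
    obtain ⟨W', hW', hx', h1, h2⟩ := ih fun i hi => h i (hi.trans (Nat.lt_succ_self m))
    by_cases hp : p m
    · obtain ⟨U, hU, hxU, h3⟩ := top_exists_disj (hS.sub W hW x hx) (h m (Nat.lt_succ_self m) hp)
      obtain ⟨W'', hW'', hx'', h4, h5⟩ := hS.inter W' U x hW' hU hx' hxU
      refine ⟨W'', hW'', hx'', fun z hz => h1 z (h4 z hz), fun i hi hpi z hz => ?_⟩
      rcases Nat.lt_succ_iff_lt_or_eq.1 hi with h6 | h6
      · exact h2 i h6 hpi z (h4 z hz)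
      · rw [h6]
        exact h3 z (h5 z hz)
    · refine ⟨W', hW', hx', h1, fun i hi hpi z hz => ?_⟩
      rcases Nat.lt_succ_iff_lt_or_eq.1 hi with h6 | h6
      · exact h2 i h6 hpi z hz
      · rw [h6] at hpi
        exact absurd hpi hp

end

end Pool.Agent.IN45
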